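import Pool.Agent.H639R2.NTP.Defs

/-!
# Basic facts: the universal verifier, an enumeration of codes
-/

namespace Pool.Agent.H639R2.NTP

open Pool.Agent.NPC Pool.Agent.H660R2.NX Turing

attribute [local irreducible] unpair

theorem exists_acc {V : List Bool → List Bool} (hV : PolyTime V) : ∃ e q, IsAcc e V q := by
  obtain ⟨e, p, he⟩ := U_complete hV
  have hc : IsCode e V p := fun x t ht => he x t ht
  refine ⟨e, 2 * Polynomial.X + 1 + p.comp (2 * Polynomial.X + 1), ⟨fun w c h => ?_, fun w c h => ?_⟩⟩
  · unfold acc at h
    rw [decide_eq_true_eq] at h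
    exact (hc.eq h).symm
  · refine ⟨pairBits c (List.replicate (p.eval (pairBits w c).length) false), ?_, ?_⟩
    · unfold acc
      rw [unpair_pairBits]
      simp only [List.length_replicate, decide_eq_true_eq]
      rw [hc _ _ le_rfl, h]
    · rw [length_pairBits, List.length_replicate]
      simp only [Polynomial.eval_add, Polynomial.eval_mul, Polynomial.eval_ofNat,
        Polynomial.eval_X, Polynomial.eval_one, Polynomial.eval_comp]
      have h1 := eval_mono p (show (pairBits w c).length ≤ 2 * (w.length + c.length) + 1 by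
        rw [length_pairBits]; omega)
      omega

theorem poly_acc {α : Type} [TEnc α] {e : α → Code} {w c : α → List Bool} (he : Poly e)
    (hw : Poly w) (hc : Poly c) : Poly (fun a => acc (e a) (w a) (c a)) := by
  unfold acc
  refine Poly.dec_eq (f := fun a => U (e a) (pairBits (w a) (unpair (c a)).1)
    (unpair (c a)).2.length) (g := fun _ => some [true]) ?_ (by fun_prop)
  refine (poly_U.comp (f := fun a => (e a, pairBits (w a) (unpair (c a)).1,
    (unpair (c a)).2.map (fun _ => ()))) (by fun_prop)).congr fun a => ?_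
  simp

theorem mem_NT_of_poly {L : Set (List Bool)} {t : ℕ → ℕ} {R : List Bool × List Bool → Bool}
    (hR : Poly R) (p : Polynomial ℕ) (hs : ∀ w c, R (w, c) = true → w ∈ L)
    (hc : ∀ w ∈ L, ∃ c : List Bool, c.length ≤ p.eval (t w.length) ∧ R (w, c) = true) :
    L ∈ NT t := by
  refine ⟨fun y => [R (unpair y)], p, polyTime_of_poly (hR.comp poly_unpair), fun w c h => ?_,
    fun w hw => ?_⟩
  · simp only [unpair_pairBits] at h
    exact hs w c (by simpa using h)
  · obtain ⟨c, h1, h2⟩ := hc w hw
    refine ⟨c, h1, ?_⟩
    simp only [unpair_pairBits, h2]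

theorem exists_code_of_mem_NT {L : Set (List Bool)} {t : ℕ → ℕ} (ht : ∀ n, n ≤ t n)
    (hL : L ∈ NT t) : ∃ (e : Code) (p : Polynomial ℕ), (∀ w c, acc e w c = true → w ∈ L) ∧
      ∀ w ∈ L, ∃ c : List Bool, c.length ≤ p.eval (t w.length) ∧ acc e w c = true := by
  obtain ⟨V, p, hV, hs, hc⟩ := hL
  obtain ⟨e, q, he⟩ := exists_acc hV
  refine ⟨e, q.comp (Polynomial.X + p), fun w c h => hs w _ (he.sound w c h), fun w hw => ?_⟩
  obtain ⟨c, h1, h2⟩ := hc w hw
  obtain ⟨c', h3, h4⟩ := he.complete w c h2
  refine ⟨c', h4.trans ?_, h3⟩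
  simp only [Polynomial.eval_comp, Polynomial.eval_add, Polynomial.eval_X]
  exact eval_mono q (by have := ht w.length; omega)

/-- The bit string number `n`. -/
def str (n : ℕ) : List Bool := n.bits.reverse.tail.reverse

theorem bits_valB (l : List Bool) : (valB (l ++ [true])).bits = l ++ [true] ∧
    valB (l ++ [true]) ≠ 0 := by
  induction l with
  | nil => simp [valB]
  | cons b l ih =>
    obtain ⟨h1, h2⟩ := ih
    have h3 : valB (b :: l ++ [true]) = Nat.bit b (valB (l ++ [true])) := by
      rw [List.cons_append, valB_cons]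
      cases b <;> simp [Nat.bit] <;> omega
    refine ⟨?_, ?_⟩
    · rw [h3, Nat.bits_append_bit _ _ (fun h => absurd h h2), h1]
      rfl
    · rw [List.cons_append, valB_cons]
      omega

theorem str_valB (l : List Bool) : str (valB (l ++ [true])) = l ∧
    l.length < valB (l ++ [true]) := by
  have h := (bits_valB l).1
  refine ⟨?_, ?_⟩
  · unfold str
    rw [h]
    simp
  · have h1 : (valB (l ++ [true])).size = l.length + 1 := by
      rw [← Nat.size_eq_bits_len, h]
      simp
    have h2 : (valB (l ++ [true])).size ≤ valB (l ++ [true]) :=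
      Nat.size_le.2 Nat.lt_two_pow_self
    omega

/-- The pair number `n`. -/
def D₀ (n : ℕ) : Code × ℕ :=
  (unbits (Code × List Unit) (str n)).elim ((T.nil, []), 0)
    (fun p => (p.1, min p.2.length n))

/-- An enumeration of all pairs (code, exponent). -/
theorem exists_enum : ∃ D : ℕ → Code × ℕ, Poly (fun u : List Unit => (D u.length).1) ∧
    UPoly (fun u : List Unit => (D u.length).2) ∧ (∀ e k, ∃ n, D n = (e, k)) ∧
    ∀ n, (D n).2 ≤ n := by
  have h1 : Poly (fun u : List Unit => unbits (Code × List Unit) (str u.length)) := by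
    refine poly_unbits.comp ?_
    unfold str
    have : Poly (fun u : List Unit => u.length.bits) := Poly.natBits (by fun_prop)
    fun_prop
  have h2 : Poly (fun u : List Unit => D₀ u.length) := by
    unfold D₀
    exact Poly.optElim h1 (by fun_prop) (by fun_prop)
  have h4 : ∀ n, (D₀ n).2 ≤ n := by
    intro n
    unfold D₀
    cases unbits (Code × List Unit) (str n) with
    | none => simp
    | some p => simp
  refine ⟨D₀, by fun_prop, ?_, fun e k => ?_, h4⟩
  · exact UPoly.of_le (n := fun u : List Unit => u.length) (by fun_prop)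
      (UPoly.length (Poly.id)) fun u => h4 _
  · obtain ⟨h5, h6⟩ := str_valB (bits ((e, List.replicate k ()) : Code × List Unit))
    refine ⟨valB (bits ((e, List.replicate k ()) : Code × List Unit) ++ [true]), ?_⟩
    unfold D₀
    rw [h5, unbits_bits]
    simp only [Option.elim_some, List.length_replicate, Prod.mk.injEq, true_and]
    refine min_eq_left ?_
    have h7 := length_lt_sz (List.replicate k ())
    rw [List.length_replicate] at h7
    rw [bits_length] at h6
    simp only [sz_pair] at h6
    omega

end Pool.Agent.H639R2.NTP
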