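import Pool.Agent.H639R2.NTP.Defs
import Pool.Agent.H671R2.PolyAuto

/-!
# Every computable function is below an honest one (task BR)
-/

namespace Pool.Agent.H639R2.NTP

open Pool.Agent.NPC

/-! ### equations for Mathlib's bounded evaluation -/

theorem br_zero (k n : ℕ) :
    Nat.Partrec.Code.evaln k Nat.Partrec.Code.zero n = if n < k then some 0 else none := by
  cases k with
  | zero => simp [Nat.Partrec.Code.evaln]
  | succ k => by_cases h : n ≤ k <;> simp [Nat.Partrec.Code.evaln, h, Nat.lt_succ_iff]

theorem br_succ (k n : ℕ) :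
    Nat.Partrec.Code.evaln k Nat.Partrec.Code.succ n = if n < k then some (n + 1) else none := by
  cases k with
  | zero => simp [Nat.Partrec.Code.evaln]
  | succ k => by_cases h : n ≤ k <;> simp [Nat.Partrec.Code.evaln, h, Nat.lt_succ_iff]

theorem br_left (k n : ℕ) :
    Nat.Partrec.Code.evaln k Nat.Partrec.Code.left n =
      if n < k then some (Nat.unpair n).1 else none := by
  cases k with
  | zero => simp [Nat.Partrec.Code.evaln]
  | succ k => by_cases h : n ≤ k <;> simp [Nat.Partrec.Code.evaln, h, Nat.lt_succ_iff]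

theorem br_right (k n : ℕ) :
    Nat.Partrec.Code.evaln k Nat.Partrec.Code.right n =
      if n < k then some (Nat.unpair n).2 else none := by
  cases k with
  | zero => simp [Nat.Partrec.Code.evaln]
  | succ k => by_cases h : n ≤ k <;> simp [Nat.Partrec.Code.evaln, h, Nat.lt_succ_iff]

theorem br_pair (cf cg : Nat.Partrec.Code) (k n : ℕ) :
    Nat.Partrec.Code.evaln k (Nat.Partrec.Code.pair cf cg) n =
      if n < k then (Nat.Partrec.Code.evaln k cf n).bind fun x =>
        (Nat.Partrec.Code.evaln k cg n).map fun y => Nat.pair x y else none := by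
  cases k with
  | zero => simp [Nat.Partrec.Code.evaln]
  | succ k =>
    by_cases h : n ≤ k
    · simp only [Nat.Partrec.Code.evaln, h, Nat.lt_succ_iff, if_true, guard_true]
      cases Nat.Partrec.Code.evaln (k + 1) cf n <;> rfl
    · simp [Nat.Partrec.Code.evaln, h, Nat.lt_succ_iff]

theorem br_comp (cf cg : Nat.Partrec.Code) (k n : ℕ) :
    Nat.Partrec.Code.evaln k (Nat.Partrec.Code.comp cf cg) n =
      if n < k then (Nat.Partrec.Code.evaln k cg n).bind fun x =>
        Nat.Partrec.Code.evaln k cf x else none := by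
  cases k with
  | zero => simp [Nat.Partrec.Code.evaln]
  | succ k =>
    by_cases h : n ≤ k
    · simp only [Nat.Partrec.Code.evaln, h, Nat.lt_succ_iff, if_true, guard_true]
      rfl
    · simp [Nat.Partrec.Code.evaln, h, Nat.lt_succ_iff]

theorem br_prec (cf cg : Nat.Partrec.Code) (k n : ℕ) :
    Nat.Partrec.Code.evaln (k + 1) (Nat.Partrec.Code.prec cf cg) n =
      if n ≤ k then
        (match (Nat.unpair n).2 with
          | 0 => Nat.Partrec.Code.evaln (k + 1) cf (Nat.unpair n).1
          | y + 1 => (Nat.Partrec.Code.evaln k (Nat.Partrec.Code.prec cf cg)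
              (Nat.pair (Nat.unpair n).1 y)).bind fun i =>
              Nat.Partrec.Code.evaln (k + 1) cg (Nat.pair (Nat.unpair n).1 (Nat.pair y i)))
      else none := by
  by_cases h : n ≤ k
  · rw [Nat.Partrec.Code.evaln, if_pos h]
    simp only [h, guard_true, pure_bind, Nat.unpaired]
    cases (Nat.unpair n).2 <;> rfl
  · simp [Nat.Partrec.Code.evaln, h]

theorem br_rfind (cf : Nat.Partrec.Code) (k n : ℕ) :
    Nat.Partrec.Code.evaln (k + 1) (Nat.Partrec.Code.rfind' cf) n =
      if n ≤ k then (Nat.Partrec.Code.evaln (k + 1) cf n).bind fun x =>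
        if x = 0 then some (Nat.unpair n).2 else
          Nat.Partrec.Code.evaln k (Nat.Partrec.Code.rfind' cf)
            (Nat.pair (Nat.unpair n).1 ((Nat.unpair n).2 + 1))
      else none := by
  by_cases h : n ≤ k
  · rw [Nat.Partrec.Code.evaln, if_pos h]
    simp only [h, guard_true, pure_bind, Nat.unpaired, Nat.pair_unpair]
    rfl
  · simp [Nat.Partrec.Code.evaln, h]

/-! ### polynomial-time arithmetic -/

section Arith

variable {α : Type} [TEnc α]

theorem br_polyPair {f g : α → ℕ} (hf : Poly f) (hg : Poly g) :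
    Poly (fun a => Nat.pair (f a) (g a)) := by
  unfold Nat.pair
  exact Poly.ite (Poly.decide_lt hf hg) (Poly.add (Poly.mul hg hg) hf)
    (Poly.add (Poly.add (Poly.mul hf hf) hf) hg)

theorem br_filter_range (m n : ℕ) (h : m ≤ n) :
    ((List.range n).filter (fun k => decide (k < m))).length = m := by
  have : (List.range n).filter (fun k => decide (k < m)) = List.range m := by
    obtain ⟨d, rfl⟩ := Nat.exists_eq_add_of_le h
    rw [List.range_add, List.filter_append]
    have h1 : (List.range m).filter (fun k => decide (k < m)) = List.range m := by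
      rw [List.filter_eq_self]
      intro k hk
      simpa using hk
    have h2 : ((List.range d).map (fun x => m + x)).filter (fun k => decide (k < m)) = [] := by
      rw [List.filter_eq_nil_iff]
      intro k hk
      simp at hk ⊢
      omega
    rw [h1, h2, List.append_nil]
  rw [this, List.length_range]

theorem br_sqrt {N : α → ℕ} (hN : UPoly N) : Poly (fun a => Nat.sqrt (N a)) := by
  have h : Poly (fun a => ((List.range (N a)).filter
      (fun i => decide ((i + 1) * (i + 1) ≤ N a))).length) :=
    Poly.length (Poly.filter (p := fun a i => decide ((i + 1) * (i + 1) ≤ N a)) hN.range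
      (Poly.decide_le (Poly.mul (Poly.succ (Poly.snd Poly.id)) (Poly.succ (Poly.snd Poly.id)))
        (Poly.comp hN.toPoly (Poly.fst Poly.id))))
  refine h.congr fun a => ?_
  have h1 : (fun i => decide ((i + 1) * (i + 1) ≤ N a)) =
      fun i => decide (i < Nat.sqrt (N a)) := by
    funext i
    rw [decide_eq_decide, ← Nat.le_sqrt]
    exact Nat.succ_le_iff
  rw [h1]
  exact br_filter_range _ _ (Nat.sqrt_le_self _)

theorem br_unpair1 {N : α → ℕ} (hN : UPoly N) : Poly (fun a => (Nat.unpair (N a)).1) := by
  have hs := br_sqrt hN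
  have hn := hN.toPoly
  refine (Poly.ite (p := fun a => N a - Nat.sqrt (N a) * Nat.sqrt (N a) < Nat.sqrt (N a))
    (Poly.decide_lt (Poly.sub hn (Poly.mul hs hs)) hs)
    (Poly.sub hn (Poly.mul hs hs)) hs).congr fun a => ?_
  unfold Nat.unpair
  by_cases h : N a - Nat.sqrt (N a) * Nat.sqrt (N a) < Nat.sqrt (N a) <;> simp [h]

theorem br_unpair2 {N : α → ℕ} (hN : UPoly N) : Poly (fun a => (Nat.unpair (N a)).2) := by
  have hs := br_sqrt hN
  have hn := hN.toPoly
  refine (Poly.ite (p := fun a => N a - Nat.sqrt (N a) * Nat.sqrt (N a) < Nat.sqrt (N a))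
    (Poly.decide_lt (Poly.sub hn (Poly.mul hs hs)) hs) hs
    (Poly.sub (Poly.sub hn (Poly.mul hs hs)) hs)).congr fun a => ?_
  unfold Nat.unpair
  by_cases h : N a - Nat.sqrt (N a) * Nat.sqrt (N a) < Nat.sqrt (N a) <;> simp [h]

end Arith

/-! ### bounded evaluation of a fixed code is polynomial in unary -/

/-- bounded evaluation is computable in polynomial time in unary -/
def EvP (c : Nat.Partrec.Code) : Prop :=
  Poly (fun p : List Unit × List Unit => Nat.Partrec.Code.evaln p.1.length c p.2.length)

/-- the values are polynomially bounded -/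
def EvB (c : Nat.Partrec.Code) : Prop := ∃ q : Polynomial ℕ, ∀ k n y,
  Nat.Partrec.Code.evaln k c n = some y → y ≤ q.eval k

theorem br_none {c : Nat.Partrec.Code} {k n : ℕ} (h : ¬ n < k) :
    Nat.Partrec.Code.evaln k c n = none := by
  rw [Option.eq_none_iff_forall_not_mem]
  intro x hx
  exact h (Nat.Partrec.Code.evaln_bound hx)

theorem EvP.app {c : Nat.Partrec.Code} (h : EvP c) {α : Type} [TEnc α] {K n : α → ℕ}
    (hK : UPoly K) (hn : Poly n) : Poly (fun a => Nat.Partrec.Code.evaln (K a) c (n a)) := by
  have h1 : UPoly (fun a => min (n a) (K a)) :=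
    UPoly.of_le (Poly.min hn hK.toPoly) hK (fun a => min_le_right _ _)
  have h2 : Poly (fun a => Nat.Partrec.Code.evaln (List.replicate (K a) ()).length c
      (List.replicate (min (n a) (K a)) ()).length) := Poly.comp h (Poly.pair hK h1)
  refine (Poly.ite (p := fun a => n a < K a) (Poly.decide_lt hn hK.toPoly) h2
    (Pool.Agent.NPC.Poly.const (none : Option ℕ))).congr fun a => ?_
  by_cases hlt : n a < K a
  · rw [if_pos hlt, List.length_replicate, List.length_replicate, min_eq_left hlt.le]
  · rw [if_neg hlt, br_none hlt]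

section Basic

theorem br_hK : UPoly (fun p : List Unit × List Unit => p.1.length) :=
  UPoly.length (Poly.fst Poly.id)

theorem br_hn : UPoly (fun p : List Unit × List Unit => p.2.length) :=
  UPoly.length (Poly.snd Poly.id)

theorem br_lt : Poly (fun p : List Unit × List Unit => decide (p.2.length < p.1.length)) :=
  Poly.decide_lt br_hn.toPoly br_hK.toPoly

theorem evP_zero : EvP Nat.Partrec.Code.zero :=
  (Poly.ite br_lt (Pool.Agent.NPC.Poly.const (some 0 : Option ℕ)) (Pool.Agent.NPC.Poly.const (none : Option ℕ))).congr fun p => (br_zero _ _).symm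

theorem evP_succ : EvP Nat.Partrec.Code.succ :=
  (Poly.ite br_lt (Poly.some (Poly.succ br_hn.toPoly)) (Pool.Agent.NPC.Poly.const (none : Option ℕ))).congr
    fun p => (br_succ _ _).symm

theorem evP_left : EvP Nat.Partrec.Code.left :=
  (Poly.ite br_lt (Poly.some (br_unpair1 br_hn)) (Pool.Agent.NPC.Poly.const (none : Option ℕ))).congr
    fun p => (br_left _ _).symm

theorem evP_right : EvP Nat.Partrec.Code.right :=
  (Poly.ite br_lt (Poly.some (br_unpair2 br_hn)) (Pool.Agent.NPC.Poly.const (none : Option ℕ))).congr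
    fun p => (br_right _ _).symm

theorem evP_pair {cf cg : Nat.Partrec.Code} (hf : EvP cf) (hg : EvP cg) :
    EvP (Nat.Partrec.Code.pair cf cg) := by
  have h1 : Poly (fun p : List Unit × List Unit =>
      (Nat.Partrec.Code.evaln p.1.length cf p.2.length).bind fun x =>
        (Nat.Partrec.Code.evaln p.1.length cg p.2.length).map fun y => Nat.pair x y) := by
    refine Poly.optBind (f := fun (p : List Unit × List Unit) x =>
      (Nat.Partrec.Code.evaln p.1.length cg p.2.length).map fun y => Nat.pair x y) hf ?_
    refine Poly.optMap (f := fun (q : (List Unit × List Unit) × ℕ) y => Nat.pair q.2 y)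
      (Poly.comp hg (Poly.fst Poly.id)) ?_
    exact br_polyPair (Poly.snd (Poly.fst Poly.id)) (Poly.snd Poly.id)
  exact (Poly.ite br_lt h1 (Pool.Agent.NPC.Poly.const (none : Option ℕ))).congr fun p => (br_pair _ _ _ _).symm

theorem evP_comp {cf cg : Nat.Partrec.Code} (hf : EvP cf) (hg : EvP cg) :
    EvP (Nat.Partrec.Code.comp cf cg) := by
  have h1 : Poly (fun p : List Unit × List Unit =>
      (Nat.Partrec.Code.evaln p.1.length cg p.2.length).bind fun x =>
        Nat.Partrec.Code.evaln p.1.length cf x) := by
    refine Poly.optBind (f := fun (p : List Unit × List Unit) x =>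
      Nat.Partrec.Code.evaln p.1.length cf x) hg ?_
    exact hf.app (br_hK.comp (Poly.fst Poly.id)) (Poly.snd Poly.id)
  exact (Poly.ite br_lt h1 (Pool.Agent.NPC.Poly.const (none : Option ℕ))).congr fun p => (br_comp _ _ _ _).symm

theorem br_sz_opt (o : Option ℕ) (B : ℕ) (h : ∀ y, o = some y → y ≤ B) : sz o ≤ 4 * B + 3 := by
  cases o with
  | none => simp
  | some y =>
    have h1 := h y rfl
    have h2 := sz_nat_le y
    have h3 : y.size ≤ y := Nat.size_le.2 Nat.lt_two_pow_self
    simp only [sz_some]
    omega

end Basic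

/-! ### primitive recursion -/

section Prec

/-- one step of the primitive recursion -/
def brF (cg : Nat.Partrec.Code) (K a k0 : ℕ) (acc : Option ℕ) (j : ℕ) : Option ℕ :=
  if Nat.pair a (j + 1) ≤ k0 + j then
    acc.bind fun i => Nat.Partrec.Code.evaln (min (k0 + j + 1) K) cg (Nat.pair a (Nat.pair j i))
  else none

theorem br_prec_claim (cf cg : Nat.Partrec.Code) (K a k0 : ℕ) : ∀ j, k0 + j ≤ K →
    (List.range j).foldl (brF cg K a k0)
      (Nat.Partrec.Code.evaln k0 (Nat.Partrec.Code.prec cf cg) (Nat.pair a 0)) =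
      Nat.Partrec.Code.evaln (k0 + j) (Nat.Partrec.Code.prec cf cg) (Nat.pair a j)
  | 0, _ => rfl
  | j + 1, h => by
    rw [List.range_succ, List.foldl_append, br_prec_claim cf cg K a k0 j (by omega)]
    simp only [List.foldl_cons, List.foldl_nil]
    rw [← add_assoc, br_prec, Nat.unpair_pair]
    unfold brF
    rw [min_eq_left (by omega)]

theorem br_prec_init (cf cg : Nat.Partrec.Code) (a k0 : ℕ) :
    Nat.Partrec.Code.evaln k0 (Nat.Partrec.Code.prec cf cg) (Nat.pair a 0) =
      if Nat.pair a 0 < k0 then Nat.Partrec.Code.evaln k0 cf a else none := by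
  cases k0 with
  | zero => simp [Nat.Partrec.Code.evaln]
  | succ k =>
    rw [br_prec, Nat.unpair_pair]
    simp only [Nat.lt_succ_iff]

theorem evB_prec {cf cg : Nat.Partrec.Code} (hf : EvB cf) (hg : EvB cg) :
    EvB (Nat.Partrec.Code.prec cf cg) := by
  obtain ⟨q, hq⟩ := hf
  obtain ⟨r, hr⟩ := hg
  refine ⟨q + r, fun k n y h => ?_⟩
  rw [Polynomial.eval_add]
  cases k with
  | zero => simp [Nat.Partrec.Code.evaln] at h
  | succ k =>
    rw [br_prec] at h
    split_ifs at h with hnk
    cases hy : (Nat.unpair n).2 with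
    | zero =>
      rw [hy] at h
      exact (hq _ _ _ h).trans (Nat.le_add_right _ _)
    | succ m =>
      rw [hy] at h
      simp only [Option.bind_eq_some_iff] at h
      obtain ⟨i, _, hi⟩ := h
      exact (hr _ _ _ hi).trans (Nat.le_add_left _ _)

theorem evP_prec {cf cg : Nat.Partrec.Code} (hf : EvP cf) (hg : EvP cg) (hB : EvB cf)
    (hB' : EvB cg) : EvP (Nat.Partrec.Code.prec cf cg) := by
  obtain ⟨q, hq⟩ := evB_prec hB hB'
  have ha : Poly (fun p : List Unit × List Unit => (Nat.unpair p.2.length).1) := br_unpair1 br_hn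
  have hY0 : Poly (fun p : List Unit × List Unit => min (Nat.unpair p.2.length).2 p.1.length) :=
    Poly.min (br_unpair2 br_hn) br_hK.toPoly
  have hY : UPoly (fun p : List Unit × List Unit => min (Nat.unpair p.2.length).2 p.1.length) :=
    UPoly.of_le hY0 br_hK fun p => min_le_right _ _
  have hk0 : Poly (fun p : List Unit × List Unit =>
      p.1.length - min (Nat.unpair p.2.length).2 p.1.length) := Poly.sub br_hK.toPoly hY0
  have hk0U : UPoly (fun p : List Unit × List Unit =>
      p.1.length - min (Nat.unpair p.2.length).2 p.1.length) :=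
    UPoly.of_le hk0 br_hK fun p => Nat.sub_le _ _
  have hinit : Poly (fun p : List Unit × List Unit => Nat.Partrec.Code.evaln
      (p.1.length - min (Nat.unpair p.2.length).2 p.1.length) (Nat.Partrec.Code.prec cf cg)
      (Nat.pair (Nat.unpair p.2.length).1 0)) :=
    (Poly.ite (Poly.decide_lt (br_polyPair ha (Pool.Agent.NPC.Poly.const (0 : ℕ))) hk0) (hf.app hk0U ha)
      (Pool.Agent.NPC.Poly.const (none : Option ℕ))).congr fun p => (br_prec_init _ _ _ _).symm
  have hstep : Poly (fun s : (List Unit × List Unit) × Option ℕ × ℕ =>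
      brF cg s.1.1.length (Nat.unpair s.1.2.length).1
        (s.1.1.length - min (Nat.unpair s.1.2.length).2 s.1.1.length) s.2.1 s.2.2) := by
    have hj : Poly (fun s : (List Unit × List Unit) × Option ℕ × ℕ => s.2.2) :=
      Poly.snd (Poly.snd Poly.id)
    have ha' := Poly.comp ha (Poly.fst (Poly.id (α := (List Unit × List Unit) × Option ℕ × ℕ)))
    have hk' := Poly.comp hk0 (Poly.fst (Poly.id (α := (List Unit × List Unit) × Option ℕ × ℕ)))
    have hK' := br_hK.comp (Poly.fst (Poly.id (α := (List Unit × List Unit) × Option ℕ × ℕ)))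
    have hlev : UPoly (fun s : (List Unit × List Unit) × Option ℕ × ℕ =>
        min (s.1.1.length - min (Nat.unpair s.1.2.length).2 s.1.1.length + s.2.2 + 1)
          s.1.1.length) :=
      UPoly.of_le (Poly.min (Poly.succ (Poly.add hk' hj)) hK'.toPoly) hK'
        fun s => min_le_right _ _
    unfold brF
    refine Poly.ite (Poly.decide_le (br_polyPair ha' (Poly.succ hj)) (Poly.add hk' hj)) ?_
      (Pool.Agent.NPC.Poly.const (none : Option ℕ))
    refine Poly.optBind (f := fun (s : (List Unit × List Unit) × Option ℕ × ℕ) i =>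
      Nat.Partrec.Code.evaln
        (min (s.1.1.length - min (Nat.unpair s.1.2.length).2 s.1.1.length + s.2.2 + 1)
          s.1.1.length) cg (Nat.pair (Nat.unpair s.1.2.length).1 (Nat.pair s.2.2 i)))
      (Poly.fst (Poly.snd Poly.id)) ?_
    have ha2 : Poly (fun s : (((List Unit × List Unit) × Option ℕ × ℕ) × ℕ) =>
        (Nat.unpair s.1.1.2.length).1) :=
      Poly.comp (g := fun s : (List Unit × List Unit) × Option ℕ × ℕ =>
        (Nat.unpair s.1.2.length).1) ha' (Poly.fst Poly.id)
    have hj2 : Poly (fun s : (((List Unit × List Unit) × Option ℕ × ℕ) × ℕ) => s.1.2.2) :=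
      Poly.snd (Poly.snd (Poly.fst Poly.id))
    exact hg.app (hlev.comp (Poly.fst Poly.id))
      (br_polyPair ha2 (br_polyPair hj2 (Poly.snd Poly.id)))
  have hfold := Poly.foldl (l := fun p : List Unit × List Unit =>
      List.range (min (Nat.unpair p.2.length).2 p.1.length))
    (s := fun p : List Unit × List Unit => Nat.Partrec.Code.evaln
      (p.1.length - min (Nat.unpair p.2.length).2 p.1.length) (Nat.Partrec.Code.prec cf cg)
      (Nat.pair (Nat.unpair p.2.length).1 0))
    (F := fun p : List Unit × List Unit => brF cg p.1.length (Nat.unpair p.2.length).1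
        (p.1.length - min (Nat.unpair p.2.length).2 p.1.length))
    hY.range hinit hstep (Polynomial.C 4 * q + Polynomial.C 3) (by
      intro p k hk
      rw [List.length_range] at hk
      rw [List.take_range, min_eq_left hk, br_prec_claim cf cg _ _ _ k (by omega)]
      simp only [Polynomial.eval_add, Polynomial.eval_mul, Polynomial.eval_C]
      refine br_sz_opt _ _ fun y hy => (hq _ _ _ hy).trans (eval_mono q ?_)
      have h1 : p.1.length < sz p := by
        have h2 := length_lt_sz p.1
        obtain ⟨u, v⟩ := p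
        simp only [sz_pair] at h2 ⊢
        omega
      omega)
  refine (Poly.ite br_lt hfold (Pool.Agent.NPC.Poly.const (none : Option ℕ))).congr fun p => ?_
  by_cases h : p.2.length < p.1.length
  · rw [if_pos h]
    have hYle : (Nat.unpair p.2.length).2 ≤ p.2.length := Nat.unpair_right_le _
    rw [br_prec_claim cf cg _ _ _ _ (by omega), min_eq_left (by omega), Nat.sub_add_cancel
      (by omega), Nat.pair_unpair]
  · rw [if_neg h, br_none h]

end Prec

/-! ### unbounded search -/

section Rfind

theorem br_rfind_bound (cf : Nat.Partrec.Code) : ∀ (k n y : ℕ),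
    Nat.Partrec.Code.evaln k (Nat.Partrec.Code.rfind' cf) n = some y → y ≤ k
  | 0, n, y, h => by simp [Nat.Partrec.Code.evaln] at h
  | k + 1, n, y, h => by
    rw [br_rfind] at h
    split_ifs at h with hnk
    rw [Option.bind_eq_some_iff] at h
    obtain ⟨x, _, hx⟩ := h
    split_ifs at hx with h0
    · simp only [Option.some.injEq] at hx
      have := Nat.unpair_right_le n
      omega
    · have := br_rfind_bound cf k _ _ hx
      omega

theorem evB_rfind (cf : Nat.Partrec.Code) : EvB (Nat.Partrec.Code.rfind' cf) :=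
  ⟨Polynomial.X, fun k n y h => by
    rw [Polynomial.eval_X]
    exact br_rfind_bound cf k n y h⟩

/-- one step of the search -/
def brR (cf : Nat.Partrec.Code) (K a m0 t : ℕ) (acc : Option ℕ) : Option ℕ :=
  if Nat.pair a (m0 + t) < K - t then
    (Nat.Partrec.Code.evaln (K - t) cf (Nat.pair a (m0 + t))).bind fun x =>
      if x = 0 then some (m0 + t) else acc
  else none

theorem br_rfind_claim (cf : Nat.Partrec.Code) (K a m0 : ℕ) : ∀ d t, d + t = K →
    ((List.range K).drop t).foldr (brR cf K a m0) none =
      Nat.Partrec.Code.evaln d (Nat.Partrec.Code.rfind' cf) (Nat.pair a (m0 + t))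
  | 0, t, h => by
    rw [List.drop_of_length_le (by rw [List.length_range]; omega)]
    simp [Nat.Partrec.Code.evaln]
  | d + 1, t, h => by
    have ht : t < (List.range K).length := by rw [List.length_range]; omega
    rw [List.drop_eq_getElem_cons ht, List.foldr_cons,
      br_rfind_claim cf K a m0 d (t + 1) (by omega), List.getElem_range, br_rfind,
      Nat.unpair_pair]
    unfold brR
    have hKt : K - t = d + 1 := by omega
    rw [hKt]
    simp only [Nat.lt_succ_iff, add_assoc]

theorem evP_rfind {cf : Nat.Partrec.Code} (hf : EvP cf) :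
    EvP (Nat.Partrec.Code.rfind' cf) := by
  have ha : Poly (fun p : List Unit × List Unit => (Nat.unpair p.2.length).1) := br_unpair1 br_hn
  have hm : Poly (fun p : List Unit × List Unit => (Nat.unpair p.2.length).2) := br_unpair2 br_hn
  have hstep : Poly (fun s : (List Unit × List Unit) × ℕ × Option ℕ =>
      brR cf s.1.1.length (Nat.unpair s.1.2.length).1 (Nat.unpair s.1.2.length).2
        s.2.1 s.2.2) := by
    have hj : Poly (fun s : (List Unit × List Unit) × ℕ × Option ℕ => s.2.1) :=
      Poly.fst (Poly.snd Poly.id)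
    have ha' := Poly.comp ha (Poly.fst (Poly.id (α := (List Unit × List Unit) × ℕ × Option ℕ)))
    have hm' := Poly.comp hm (Poly.fst (Poly.id (α := (List Unit × List Unit) × ℕ × Option ℕ)))
    have hK' := br_hK.comp (Poly.fst (Poly.id (α := (List Unit × List Unit) × ℕ × Option ℕ)))
    have hlev : UPoly (fun s : (List Unit × List Unit) × ℕ × Option ℕ =>
        s.1.1.length - s.2.1) :=
      UPoly.of_le (Poly.sub hK'.toPoly hj) hK' fun s => Nat.sub_le _ _
    unfold brR
    refine Poly.ite (Poly.decide_lt (br_polyPair ha' (Poly.add hm' hj))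
      (Poly.sub hK'.toPoly hj)) ?_ (Pool.Agent.NPC.Poly.const (none : Option ℕ))
    refine Poly.optBind (f := fun (s : (List Unit × List Unit) × ℕ × Option ℕ) x =>
      if x = 0 then some ((Nat.unpair s.1.2.length).2 + s.2.1) else s.2.2)
      (hf.app hlev (br_polyPair ha' (Poly.add hm' hj))) ?_
    have hm2 : Poly (fun s : (((List Unit × List Unit) × ℕ × Option ℕ) × ℕ) =>
        (Nat.unpair s.1.1.2.length).2) :=
      Poly.comp (g := fun s : (List Unit × List Unit) × ℕ × Option ℕ =>
        (Nat.unpair s.1.2.length).2) hm' (Poly.fst Poly.id)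
    have hj2 : Poly (fun s : (((List Unit × List Unit) × ℕ × Option ℕ) × ℕ) => s.1.2.1) :=
      Poly.fst (Poly.snd (Poly.fst Poly.id))
    exact Poly.ite (Poly.decide_eq (Poly.snd Poly.id) (Pool.Agent.NPC.Poly.const (0 : ℕ)))
      (Poly.some (Poly.add hm2 hj2)) (Poly.snd (Poly.snd (Poly.fst Poly.id)))
  have hfold := Poly.foldr (l := fun p : List Unit × List Unit => List.range p.1.length)
    (s := fun _ : List Unit × List Unit => (none : Option ℕ))
    (F := fun p : List Unit × List Unit => brR cf p.1.length (Nat.unpair p.2.length).1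
        (Nat.unpair p.2.length).2)
    br_hK.range (Pool.Agent.NPC.Poly.const (none : Option ℕ)) hstep
    (Polynomial.C 4 * Polynomial.X + Polynomial.C 3) (by
      intro p k hk
      rw [List.length_range] at hk
      rw [br_rfind_claim cf _ _ _ (p.1.length - k) k (by omega)]
      simp only [Polynomial.eval_add, Polynomial.eval_mul, Polynomial.eval_C, Polynomial.eval_X]
      refine br_sz_opt _ _ fun y hy => (br_rfind_bound _ _ _ _ hy).trans ?_
      have h1 : p.1.length < sz p := by
        have h2 := length_lt_sz p.1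
        obtain ⟨u, v⟩ := p
        simp only [sz_pair] at h2 ⊢
        omega
      omega)
  refine hfold.congr fun p => ?_
  have h := br_rfind_claim cf p.1.length (Nat.unpair p.2.length).1 (Nat.unpair p.2.length).2
    p.1.length 0 (by omega)
  rw [List.drop_zero, add_zero, Nat.pair_unpair] at h
  exact h

end Rfind

/-- Bounded evaluation of a fixed code is computable in polynomial time in unary. -/
theorem evP_all (c : Nat.Partrec.Code) : EvP c ∧ EvB c := by
  induction c with
  | zero =>
    refine ⟨evP_zero, 0, fun k n y h => ?_⟩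
    rw [br_zero] at h
    split_ifs at h
    simp only [Option.some.injEq] at h
    omega
  | succ =>
    refine ⟨evP_succ, Polynomial.X, fun k n y h => ?_⟩
    rw [br_succ] at h
    split_ifs at h
    simp only [Option.some.injEq] at h
    rw [Polynomial.eval_X]
    omega
  | left =>
    refine ⟨evP_left, Polynomial.X, fun k n y h => ?_⟩
    rw [br_left] at h
    split_ifs at h
    simp only [Option.some.injEq] at h
    rw [Polynomial.eval_X]
    have := Nat.unpair_left_le n
    omega
  | right =>
    refine ⟨evP_right, Polynomial.X, fun k n y h => ?_⟩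
    rw [br_right] at h
    split_ifs at h
    simp only [Option.some.injEq] at h
    rw [Polynomial.eval_X]
    have := Nat.unpair_right_le n
    omega
  | pair cf cg hf hg =>
    obtain ⟨hf, q, hq⟩ := hf
    obtain ⟨hg, r, hr⟩ := hg
    refine ⟨evP_pair hf hg, (q + r + 1) ^ 2, fun k n y h => ?_⟩
    rw [br_pair] at h
    split_ifs at h
    rw [Option.bind_eq_some_iff] at h
    obtain ⟨x, hx, h⟩ := h
    rw [Option.map_eq_some_iff] at h
    obtain ⟨z, hz, rfl⟩ := h
    have h1 := hq _ _ _ hx
    have h2 := hr _ _ _ hz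
    rw [Polynomial.eval_pow, Polynomial.eval_add, Polynomial.eval_add, Polynomial.eval_one]
    refine (Nat.pair_lt_max_add_one_sq x z).le.trans (Nat.pow_le_pow_left ?_ 2)
    have : max x z ≤ q.eval k + r.eval k := max_le (by omega) (by omega)
    omega
  | comp cf cg hf hg =>
    obtain ⟨hf, q, hq⟩ := hf
    obtain ⟨hg, _⟩ := hg
    refine ⟨evP_comp hf hg, q, fun k n y h => ?_⟩
    rw [br_comp] at h
    split_ifs at h
    rw [Option.bind_eq_some_iff] at h
    obtain ⟨x, _, h⟩ := h
    exact hq _ _ _ h
  | prec cf cg hf hg => exact ⟨evP_prec hf.1 hg.1 hf.2 hg.2, evB_prec hf.2 hg.2⟩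
  | rfind' cf hf => exact ⟨evP_rfind hf.1, evB_rfind cf⟩

/-! ### the honest bound -/

theorem bridge {g : ℕ → ℕ} (hg : Computable g) : ∃ G, Hon G ∧ ∀ n, g n ≤ G n := by
  classical
  obtain ⟨c, hc⟩ := Nat.Partrec.Code.exists_code.1 (Partrec.nat_iff.1 hg)
  have hsound : ∀ k n y, Nat.Partrec.Code.evaln k c n = some y → y = g n := by
    intro k n y h
    have h1 := Nat.Partrec.Code.evaln_sound (Option.mem_def.2 h)
    rw [hc] at h1
    simpa using h1
  have hcomplete : ∀ n, ∃ k, Nat.Partrec.Code.evaln k c n = some (g n) := by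
    intro n
    have h1 : g n ∈ Nat.Partrec.Code.eval c n := by
      rw [hc]
      simp
    obtain ⟨k, hk⟩ := Nat.Partrec.Code.evaln_complete.1 h1
    exact ⟨k, hk⟩
  -- the test
  set R : ℕ → ℕ → Prop := fun x k =>
    ((Nat.Partrec.Code.evaln k c x).any fun y => decide (y ≤ k)) = true with hR
  have hRiff : ∀ x k, R x k ↔ Nat.Partrec.Code.evaln k c x = some (g x) ∧ g x ≤ k := by
    intro x k
    rw [hR]
    cases h : Nat.Partrec.Code.evaln k c x with
    | none => simp [h]
    | some y =>
      have := hsound _ _ _ h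
      subst this
      simp [h]
  have hRmono : ∀ x k k', k ≤ k' → R x k → R x k' := by
    intro x k k' hkk h
    rw [hRiff] at h ⊢
    exact ⟨Nat.Partrec.Code.evaln_mono hkk h.1, h.2.trans hkk⟩
  set Q : ℕ → ℕ → Prop := fun n k => n ≤ k ∧ ∀ x < n + 1, R x k with hQ
  have hQex : ∀ n, ∃ k, Q n k := by
    intro n
    choose κ hκ using hcomplete
    refine ⟨n + ∑ x ∈ Finset.range (n + 1), (κ x + g x), by omega, fun x hx => ?_⟩
    have h1 : κ x + g x ≤ ∑ x ∈ Finset.range (n + 1), (κ x + g x) :=
      Finset.single_le_sum (f := fun x => κ x + g x) (fun i _ => Nat.zero_le _)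
        (Finset.mem_range.2 hx)
    refine (hRiff _ _).2 ⟨Nat.Partrec.Code.evaln_mono ?_ (hκ x), by omega⟩
    omega
  have hQmono : ∀ n k k', k ≤ k' → Q n k → Q n k' := fun n k k' h hq =>
    ⟨hq.1.trans h, fun x hx => hRmono x k k' h (hq.2 x hx)⟩
  set G : ℕ → ℕ := fun n => Nat.find (hQex n) with hG
  have hGspec : ∀ n, Q n (G n) := fun n => Nat.find_spec (hQex n)
  have hGle : ∀ n k, G n ≤ k ↔ Q n k := fun n k =>
    ⟨fun h => hQmono n _ _ h (hGspec n), fun h => Nat.find_min' (hQex n) h⟩
  refine ⟨G, ⟨?_, fun n => (hGspec n).1, ?_, ?_⟩, fun n => ?_⟩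
  · -- monotone
    intro n n' h
    rw [hGle]
    exact ⟨h.trans (hGspec n').1, fun x hx => (hGspec n').2 x (by omega)⟩
  · -- computable
    have hPR : PrimrecRel R := by
      have h1 : Primrec (fun p : ℕ × ℕ => Nat.Partrec.Code.evaln p.2 c p.1) :=
        Nat.Partrec.Code.primrec_evaln.comp
          (Primrec.pair (Primrec.pair Primrec.snd (Primrec.const c)) Primrec.fst)
      have h2 : Primrec (fun p : ℕ × ℕ =>
          (Option.casesOn (Nat.Partrec.Code.evaln p.2 c p.1) false
            (fun y => decide (y ≤ p.2)) : Bool)) :=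
        Primrec.option_casesOn h1 (Primrec.const false)
          (Primrec.nat_le.decide.comp Primrec.snd (Primrec.snd.comp Primrec.fst)).to₂
      have h3 : PrimrecPred (fun p : ℕ × ℕ =>
          (Option.casesOn (Nat.Partrec.Code.evaln p.2 c p.1) false
            (fun y => decide (y ≤ p.2)) : Bool) = true) :=
        Primrec.eq.comp h2 (Primrec.const true)
      refine h3.of_eq fun p => ?_
      simp only [hR]
      cases Nat.Partrec.Code.evaln p.2 c p.1 <;> simp
    have hPQ : PrimrecRel Q := by
      have h1 := PrimrecRel.forall_lt hPR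
      have h2 : PrimrecPred (fun p : ℕ × ℕ => ∀ x < p.1 + 1, R x p.2) :=
        h1.comp (Primrec.succ.comp Primrec.fst) Primrec.snd
      exact (PrimrecPred.and (Primrec.nat_le.comp Primrec.fst Primrec.snd) h2)
    have hP : Partrec₂ (fun n k => (Part.some (decide (Q n k)) : Part Bool)) :=
      (PrimrecRel.decide hPQ).to_comp.partrec
    refine (Partrec.rfind hP).of_eq fun n => ?_
    rw [PFun.coe_val, Part.eq_some_iff, Nat.mem_rfind]
    refine ⟨?_, fun {m} hm => ?_⟩
    · simpa using hGspec n
    · have := Nat.find_min (hQex n) hm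
      simpa using this
  · -- the test in unary
    have hT : Poly (fun p : List Unit × List Unit => decide (p.1.length ≤ p.2.length) &&
        (List.range (p.1.length + 1)).all fun x =>
          (Nat.Partrec.Code.evaln p.2.length c x).any fun y => decide (y ≤ p.2.length)) := by
      refine Poly.and (Poly.decide_le br_hK.toPoly br_hn.toPoly) ?_
      refine Poly.all (p := fun (p : List Unit × List Unit) x =>
        (Nat.Partrec.Code.evaln p.2.length c x).any fun y => decide (y ≤ p.2.length))
        (UPoly.range (UPoly.add br_hK (UPoly.const 1))) ?_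
      refine Poly.optAny_fp (h := fun (q : (List Unit × List Unit) × ℕ) y =>
        decide (y ≤ q.1.2.length))
        ((evP_all c).1.app (br_hn.comp (Poly.fst Poly.id)) (Poly.snd Poly.id)) ?_
      have hn2 : Poly (fun s : (((List Unit × List Unit) × ℕ) × ℕ) => s.1.1.2.length) :=
        Poly.comp (g := fun p : List Unit × List Unit => p.2.length) br_hn.toPoly
          (Poly.fst (Poly.fst Poly.id))
      exact Poly.decide_le (Poly.snd Poly.id) hn2
    refine hT.congr fun p => ?_
    have h1 : decide (G p.1.length ≤ p.2.length) = decide (Q p.1.length p.2.length) := by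
      rw [decide_eq_decide]
      exact hGle _ _
    rw [h1, Bool.eq_iff_iff, Bool.and_eq_true, decide_eq_true_iff, List.all_eq_true,
      decide_eq_true_iff]
    simp only [List.mem_range, hQ, hR]
  · exact ((hRiff _ _).1 ((hGspec n).2 n (by omega))).2

end Pool.Agent.H639R2.NTP
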