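import Pool.Agent.H639R2.NTP.Defs

/-!
# Capped computations with unary numbers
-/

namespace Pool.Agent.H639R2.NTP

open Pool.Agent.NPC Pool.Agent.H660R2.NX Turing

variable {α : Type} [TEnc α]

theorem uPoly_min {m n : α → ℕ} (hm : UPoly m) (hn : UPoly n) :
    UPoly (fun a => min (m a) (n a)) :=
  UPoly.of_le (Poly.min hm.toPoly hn.toPoly) hn fun _ => min_le_right _ _

theorem uPoly_min' {m n : α → ℕ} (hm : Poly m) (hn : UPoly n) :
    UPoly (fun a => min (m a) (n a)) :=
  UPoly.of_le (Poly.min hm hn.toPoly) hn fun _ => min_le_right _ _

theorem iter_capPow (s m : ℕ) : ∀ k, (fun x => min (x * s) m)^[k] (min 1 m) = min (s ^ k) m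
  | 0 => rfl
  | k + 1 => by
    rw [Function.iterate_succ_apply', iter_capPow s m k, pow_succ]
    rcases Nat.le_total (s ^ k) m with h | h
    · rw [min_eq_left h]
    · rw [min_eq_right h]
      rcases Nat.eq_zero_or_pos s with h0 | h0
      · subst h0
        simp
      · rw [min_eq_right (Nat.le_mul_of_pos_right m h0),
          min_eq_right (h.trans (Nat.le_mul_of_pos_right _ h0))]

/-- Capped powers. -/
theorem uPoly_capPow {s k m : α → ℕ} (hs : Poly s) (hk : UPoly k) (hm : UPoly m) :
    UPoly (fun a => min (s a ^ k a) (m a)) := by
  obtain ⟨q, hq⟩ := Poly.sz_le hm.toPoly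
  have h1 : Poly (fun a => (fun x => min (x * s a) (m a))^[(List.replicate (k a) ()).length]
      (min 1 (m a))) := by
    have hm' := hm.toPoly
    refine Poly.iterLen (l := fun a => List.replicate (k a) ()) (s := fun a => min 1 (m a))
      (F := fun a x => min (x * s a) (m a)) hk (by fun_prop) ?_ (2 * q) ?_
    · have h2 : Poly (fun p : α × ℕ => m p.1) := hm'.comp (by fun_prop)
      have h3 : Poly (fun p : α × ℕ => s p.1) := hs.comp (by fun_prop)
      fun_prop
    · intro a j _
      rw [iter_capPow]
      have h4 := sz_nat_mono_le (min_le_right (s a ^ j) (m a))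
      have h5 := hq a
      simp only [Polynomial.eval_mul, Polynomial.eval_ofNat]
      omega
  refine UPoly.of_le (h1.congr fun a => ?_) hm fun _ => min_le_right _ _
  rw [List.length_replicate, iter_capPow]

theorem length_filter_range (g m : ℕ) :
    ((List.range m).filter (fun v => !decide (g ≤ min v m))).length = min g m := by
  induction m generalizing g with
  | zero => simp
  | succ m ih =>
    rw [List.range_succ, List.filter_append, List.length_append]
    have h1 : (List.range m).filter (fun v => !decide (g ≤ min v (m + 1))) =
        (List.range m).filter (fun v => !decide (g ≤ min v m)) := by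
      refine List.filter_congr fun v hv => ?_
      rw [List.mem_range] at hv
      rw [min_eq_left (by omega), min_eq_left (by omega)]
    rw [h1, ih]
    by_cases h : g ≤ m
    · have h2 : [m].filter (fun v => !decide (g ≤ min v (m + 1))) = [] := by
        rw [List.filter_eq_nil_iff]
        intro v hv
        rw [List.mem_singleton] at hv
        subst hv
        simp [h, Nat.le_succ_of_le h]
      rw [h2, List.length_nil]
      omega
    · have h2 : [m].filter (fun v => !decide (g ≤ min v (m + 1))) = [m] := by
        rw [List.filter_eq_self]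
        intro v hv
        rw [List.mem_singleton] at hv
        subst hv
        simp [h]
      rw [h2, List.length_singleton]
      omega

/-- Capped values of honest functions. -/
theorem uPoly_capHon {G : ℕ → ℕ} (hG : Hon G) {n m : α → ℕ} (hn : UPoly n) (hm : UPoly m) :
    UPoly (fun a => min (G (n a)) (m a)) := by
  have h1 : Poly (fun a => (List.range (m a)).filter
      (fun v => !decide (G (n a) ≤ min v (m a)))) := by
    refine Poly.filter (p := fun a v => !decide (G (n a) ≤ min v (m a))) hm.range ?_
    have h2 : UPoly (fun p : α × ℕ => min p.2 (m p.1)) :=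
      uPoly_min' (Poly.snd Poly.id) (hm.comp (Poly.fst Poly.id))
    have h3 : UPoly (fun p : α × ℕ => n p.1) := hn.comp (Poly.fst Poly.id)
    refine Poly.not ((hG.poly.comp (Poly.pair h3 h2)).congr fun p => ?_)
    simp
  exact (UPoly.length h1).congr fun a => by simp only [length_filter_range]

/-- Testing honest functions against unary numbers. -/
theorem poly_decide_hon {G : ℕ → ℕ} (hG : Hon G) {n m : α → ℕ} (hn : UPoly n) (hm : UPoly m) :
    Poly (fun a => decide (G (n a) ≤ m a)) :=
  (hG.poly.comp (Poly.pair hn hm)).congr fun a => by simp

end Pool.Agent.H639R2.NTP
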