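import Pool.Agent.NPC.Prog
import Pool.Agent.H642R2.TMSim

/-!
# Polynomial-time computable functions are (primitive recursive, hence) computable
-/

namespace Pool.Agent.H639R2.NTP

open Pool.Agent.NPC Turing

namespace Comp

/-- Register files. -/
abbrev St (n : ℕ) : Type := Fin (n + 1) → List Bool

/-- A total evaluator with fuel. -/
def ev {n : ℕ} : Cmd (Fin (n + 1)) → ℕ → St n → Option (St n)
  | Cmd.skip, _, s => some s
  | Cmd.push k b, _, s => some (fun i => if i = k then b :: s k else s i)
  | Cmd.pop k, _, s => some (fun i => if i = k then (s k).tail else s i)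
  | Cmd.seq c d, t, s => (ev c t s).bind (fun s' => ev d t s')
  | Cmd.cases k c₀ cf ct, t, s =>
    if s k = [] then ev c₀ t s else if (s k).head? = some true then ev ct t s else ev cf t s
  | Cmd.loop k c, t, s =>
    ((fun o : Option (St n) => o.bind (fun s' => if s' k = [] then some s' else ev c t s'))^[t]
      (some s)).bind (fun s' => if s' k = [] then some s' else none)

theorem primrec_upd {n : ℕ} {α : Type} [Primcodable α] {s : α → St n} {g : α → List Bool}
    (k : Fin (n + 1)) (hs : Primrec s) (hg : Primrec g) :
    Primrec (fun a => (fun i => if i = k then g a else s a i : St n)) := by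
  rw [Primrec.fin_curry]
  apply Primrec.ite
  · exact Primrec.eq.comp Primrec.snd (Primrec.const k)
  · exact hg.comp Primrec.fst
  · exact Primrec.fin_app.comp (hs.comp Primrec.fst) Primrec.snd

theorem primrec_get {n : ℕ} {α : Type} [Primcodable α] {s : α → St n} (k : Fin (n + 1))
    (hs : Primrec s) : Primrec (fun a => s a k) :=
  Primrec.fin_app.comp hs (Primrec.const k)

theorem primrec_ev {n : ℕ} (c : Cmd (Fin (n + 1))) :
    Primrec (fun p : ℕ × St n => ev c p.1 p.2) := by
  induction c with
  | skip => exact Primrec.option_some.comp Primrec.snd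
  | push k b =>
    exact Primrec.option_some.comp (primrec_upd k Primrec.snd
      (Primrec.list_cons.comp (Primrec.const b) (primrec_get k Primrec.snd)))
  | pop k =>
    exact Primrec.option_some.comp (primrec_upd k Primrec.snd
      (Primrec.list_tail.comp (primrec_get k Primrec.snd)))
  | seq c d ihc ihd =>
    have h : Primrec₂ (fun (p : ℕ × St n) (s' : St n) => ev d p.1 s') :=
      ihd.comp (Primrec.pair (Primrec.fst.comp Primrec.fst) Primrec.snd)
    exact Primrec.option_bind ihc h
  | cases k c₀ cf ct ih0 ihf iht =>
    apply Primrec.ite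
    · exact Primrec.eq.comp (primrec_get k Primrec.snd) (Primrec.const [])
    · exact ih0
    · apply Primrec.ite
      · exact Primrec.eq.comp (Primrec.list_head?.comp (primrec_get k Primrec.snd))
          (Primrec.const (some true))
      · exact iht
      · exact ihf
  | loop k c ih =>
    have hb : Primrec₂ (fun (p : ℕ × St n) (o : Option (St n)) =>
        o.bind (fun s' => if s' k = [] then some s' else ev c p.1 s')) := by
      have h1 : Primrec₂ (fun (q : (ℕ × St n) × Option (St n)) (s' : St n) =>
          if s' k = [] then some s' else ev c q.1.1 s') := by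
        apply Primrec.ite
        · exact Primrec.eq.comp (primrec_get k Primrec.snd) (Primrec.const [])
        · exact Primrec.option_some.comp Primrec.snd
        · exact ih.comp (Primrec.pair (Primrec.fst.comp (Primrec.fst.comp Primrec.fst))
            Primrec.snd)
      exact Primrec.option_bind (Primrec.snd (α := ℕ × St n) (β := Option (St n))) h1
    have hit := Primrec.nat_iterate (Primrec.fst (α := ℕ) (β := St n))
      (Primrec.option_some.comp (Primrec.snd (α := ℕ) (β := St n))) hb
    have hlast : Primrec₂ (fun (_ : ℕ × St n) (s' : St n) =>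
        if s' k = [] then some s' else none) := by
      apply Primrec.ite
      · exact Primrec.eq.comp (primrec_get k Primrec.snd) (Primrec.const [])
      · exact Primrec.option_some.comp Primrec.snd
      · exact Primrec.const none
    exact Primrec.option_bind hit hlast

/-- One round of a loop. -/
def rnd {n : ℕ} (k : Fin (n + 1)) (c : Cmd (Fin (n + 1))) (t : ℕ) (o : Option (St n)) :
    Option (St n) :=
  o.bind (fun s' => if s' k = [] then some s' else ev c t s')

theorem rnd_stop {n : ℕ} (k : Fin (n + 1)) (c : Cmd (Fin (n + 1))) (t : ℕ) (s : St n)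
    (hs : s k = []) (j : ℕ) : (rnd k c t)^[j] (some s) = some s := by
  induction j with
  | zero => rfl
  | succ j ih =>
    rw [Function.iterate_succ_apply]
    have : rnd k c t (some s) = some s := by simp [rnd, hs]
    rw [this, ih]

theorem upd_eq {n : ℕ} (s : St n) (k : Fin (n + 1)) (v : List Bool) :
    Function.update s k v = fun i => if i = k then v else s i := by
  funext i
  rw [Function.update_apply]

theorem ev_of_run {n : ℕ} {c : Cmd (Fin (n + 1))} {s s' : St n} {m : ℕ} (h : Run c s s' m) :
    (∀ t, m ≤ t → ev c t s = some s') ∧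
    ∀ k d, c = Cmd.loop k d → s' k = [] ∧
      ∀ t, m ≤ t → ∀ j, m ≤ j → (rnd k d t)^[j] (some s) = some s' := by
  induction h with
  | skip s => exact ⟨fun t _ => rfl, fun k d hc => by cases hc⟩
  | push s k b =>
    refine ⟨fun t _ => ?_, fun k d hc => by cases hc⟩
    rw [upd_eq]; rfl
  | pop s k =>
    refine ⟨fun t _ => ?_, fun k d hc => by cases hc⟩
    rw [upd_eq]; rfl
  | @seq c d s s' s'' t t' _ _ ih₁ ih₂ =>
    refine ⟨fun u hu => ?_, fun k d hc => by cases hc⟩
    have h1 := ih₁.1 u (by omega)
    have h2 := ih₂.1 u (by omega)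
    simp only [ev, h1, Option.bind_some, h2]
  | @casesNil k c₀ cf ct s s' t hk _ ih =>
    refine ⟨fun u hu => ?_, fun k d hc => by cases hc⟩
    simp only [ev, hk, if_true]
    exact ih.1 u (by omega)
  | @casesFalse k c₀ cf ct s s' t l hk _ ih =>
    refine ⟨fun u hu => ?_, fun k d hc => by cases hc⟩
    simp only [ev, hk]
    simpa using ih.1 u (by omega)
  | @casesTrue k c₀ cf ct s s' t l hk _ ih =>
    refine ⟨fun u hu => ?_, fun k d hc => by cases hc⟩
    simp only [ev, hk]
    simpa using ih.1 u (by omega)
  | @loopNil k c s hk =>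
    have h2 : ∀ k' d, Cmd.loop k c = Cmd.loop k' d → s k' = [] ∧
        ∀ t, 1 ≤ t → ∀ j, 1 ≤ j → (rnd k' d t)^[j] (some s) = some s := by
      intro k' d hc
      cases hc
      exact ⟨hk, fun t _ j _ => rnd_stop k c t s hk j⟩
    refine ⟨fun t ht => ?_, h2⟩
    have h3 := (h2 k c rfl).2 t ht t ht
    simp only [ev]
    change ((rnd k c t)^[t] (some s)).bind _ = _
    rw [h3]
    simp [hk]
  | @loopCons k c s s' s'' t t' hk _ _ ih₁ ih₂ =>
    have h2 : ∀ k' d, Cmd.loop k c = Cmd.loop k' d → s'' k' = [] ∧
        ∀ u, t + t' + 1 ≤ u → ∀ j, t + t' + 1 ≤ j →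
          (rnd k' d u)^[j] (some s) = some s'' := by
      intro k' d hc
      cases hc
      obtain ⟨h3, h4⟩ := ih₂.2 k c rfl
      refine ⟨h3, fun u hu j hj => ?_⟩
      obtain ⟨j', rfl⟩ : ∃ j', j = j' + 1 := ⟨j - 1, by omega⟩
      rw [Function.iterate_succ_apply]
      have h5 : rnd k c u (some s) = some s' := by
        have := ih₁.1 u (by omega)
        simp [rnd, hk, this]
      rw [h5]
      exact h4 u (by omega) j' (by omega)
    refine ⟨fun u hu => ?_, h2⟩
    obtain ⟨h6, h7⟩ := h2 k c rfl
    have h3 := h7 u hu u hu
    simp only [ev]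
    change ((rnd k c u)^[u] (some s)).bind _ = _
    rw [h3]
    simp [h6]

theorem primrec_eval (p : Polynomial ℕ) : Primrec (fun n : ℕ => p.eval n) := by
  induction p using Polynomial.induction_on' with
  | add p q hp hq =>
    simp only [Polynomial.eval_add]
    exact Primrec.nat_add.comp hp hq
  | monomial k c =>
    simp only [Polynomial.eval_monomial]
    refine Primrec.nat_mul.comp (Primrec.const c) ?_
    induction k with
    | zero => simpa using Primrec.const 1
    | succ k ih =>
      simp only [pow_succ]
      exact Primrec.nat_mul.comp ih Primrec.id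

end Comp

open Pool.Agent.H639R2.NTP.Comp in
/-- Polynomial-time computable functions are primitive recursive. -/
theorem polyTime_primrec {f : List Bool → List Bool} (hf : PolyTime f) : Primrec f := by
  obtain ⟨c, p, hc⟩ := Pool.Agent.H642R2.TMSim.polyTime_toPC hf
  obtain ⟨n, hn⟩ : ∃ n, c.bd ≤ n + 1 := ⟨c.bd, Nat.le_succ _⟩
  set c' : Cmd (Fin (n + 1)) := c.map (Fin.ofNat (n + 1)) with hc'
  have hinp : Primrec (fun x : List Bool => (fun i => if i = 0 then x else [] : St n)) := by
    have := primrec_upd (n := n) (s := fun _ : List Bool => (fun _ => [] : St n)) (0 : Fin (n + 1))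
      (Primrec.const _) Primrec.id
    exact this
  have hinp2 : ∀ x : List Bool, (fun i => if i = 0 then x else [] : St n) =
      fun i : Fin (n + 1) => (inp x : ℕ → List Bool) i := by
    intro x
    funext i
    unfold inp
    rw [Function.update_apply]
    by_cases hi : i = 0
    · simp [hi]
    · have : (i : ℕ) ≠ 0 := fun h => hi (Fin.ext (by simpa using h))
      simp [hi, this]
  have hmain : ∀ x, ev c' (p.eval x.length) (fun i => if i = 0 then x else []) =
      some (fun i => if i = 0 then f x else []) := by
    intro x
    obtain ⟨t, ht, hrun⟩ := hc x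
    have h1 := Run.restrict hrun hn
    have h2 := (ev_of_run h1).1 (p.eval x.length) ht
    rw [hinp2, hinp2]
    exact h2
  have hP : Primrec (fun x : List Bool =>
      ((ev c' (p.eval x.length) (fun i => if i = 0 then x else [])).map (fun s => s 0)).getD []) := by
    refine Primrec.option_getD.comp (Primrec.option_map ?_ ?_) (Primrec.const [])
    · exact (primrec_ev c').comp (Primrec.pair ((primrec_eval p).comp Primrec.list_length) hinp)
    · exact primrec_get (0 : Fin (n + 1)) Primrec.snd
  refine hP.of_eq fun x => ?_
  rw [hmain x]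
  simp

/-- Polynomial-time computable functions are computable. -/
theorem polyTime_computable {f : List Bool → List Bool} (hf : PolyTime f) : Computable f :=
  (polyTime_primrec hf).to_comp

end Pool.Agent.H639R2.NTP
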