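import Pool.Agent.H639R2.NTP.Defs

/-! Iterated exponentials (definition shared by ComplTow, Viol, PartC). -/

namespace Pool.Agent.H639R2.NTP

/-- Iterated exponentials. -/
def tow : ℕ → ℕ → ℕ
  | 0, x => x
  | k + 1, x => 2 ^ tow k x

end Pool.Agent.H639R2.NTP
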