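import Pool.Agent.H639R2.NTP.Basic
import Pool.Agent.H639R2.NTP.Tow
import Pool.Agent.H671R2.PolyAuto

/-!
# C1: brute force complement
-/

namespace Pool.Agent.H639R2.NTP

open Pool.Agent.NPC Pool.Agent.H660R2.NX Turing

namespace C1

variable {α : Type} [TEnc α]

/-- doubling with a cap -/
theorem iter_double (m : ℕ) : ∀ u : ℕ, (fun x => min (2 * x) (m + 1))^[u] 1 = min (2 ^ u) (m + 1) := by
  intro u
  induction u with
  | zero => simp
  | succ u ih =>
    rw [Function.iterate_succ_apply', ih, pow_succ]
    show min (2 * min (2 ^ u) (m + 1)) (m + 1) = min (2 ^ u * 2) (m + 1)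
    omega

theorem upoly_pow {u m : α → ℕ} (hu : UPoly u) (hm : UPoly m) :
    UPoly (fun a => min (2 ^ u a) (m a + 1)) := by
  have hm1 : UPoly (fun a => m a + 1) := hm.add (UPoly.const 1)
  have hm' : Poly (fun a => m a + 1) := hm1.toPoly
  obtain ⟨q, hq⟩ := Poly.sz_le hm1
  have h1 : Poly (fun a => (fun x => min (2 * x) (m a + 1))^[(List.replicate (u a) ()).length] 1) := by
    refine Poly.iterLen (l := fun a => List.replicate (u a) ()) (s := fun _ => 1)
      (F := fun a x => min (2 * x) (m a + 1)) hu (by fun_prop) ?_ (4 * q + 1) ?_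
    · have h2 : Poly (fun p : α × ℕ => m p.1 + 1) := hm'.comp (by fun_prop)
      exact Poly.min (by fun_prop) h2
    · intro a j _
      rw [iter_double]
      have h3 := sz_nat_le (min (2 ^ j) (m a + 1))
      have h4 : (min (2 ^ j) (m a + 1)).size ≤ m a + 1 :=
        (Poly.size_le_self _).trans (min_le_right _ _)
      have h5 : sz (List.replicate (m a + 1) ()) ≤ q.eval (sz a) := hq a
      have h6 := length_lt_sz (List.replicate (m a + 1) ())
      rw [List.length_replicate] at h6
      simp only [Polynomial.eval_add, Polynomial.eval_mul, Polynomial.eval_one,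
        Polynomial.eval_ofNat]
      omega
  have h2 : Poly (fun a => min (2 ^ u a) (m a + 1)) := by
    refine h1.congr fun a => ?_
    rw [iter_double, List.length_replicate]
  exact UPoly.of_le h2 hm1 (fun a => min_le_right _ _)

theorem filter_count (g : ℕ) : ∀ m : ℕ,
    ((List.range m).filter (fun j => !decide (g ≤ j))).length = min g m := by
  intro m
  induction m with
  | zero => simp
  | succ m ih =>
    rw [List.range_succ, List.filter_append, List.length_append, ih]
    by_cases h : g ≤ m
    · simp [h]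
      omega
    · simp [h]
      omega

theorem upoly_capG {G : ℕ → ℕ} (hG : Hon G) {x m : α → ℕ} (hx : UPoly x) (hm : UPoly m) :
    UPoly (fun a => min (G (x a)) (m a + 1)) := by
  have hm1 : UPoly (fun a => m a + 1) := hm.add (UPoly.const 1)
  have h0 : Poly (fun p : α × ℕ => decide (G (x p.1) ≤ min p.2 (m p.1 + 1))) := by
    have hmp : UPoly (fun p : α × ℕ => m p.1 + 1) := hm1.comp (f := Prod.fst) (by fun_prop)
    have h2 : UPoly (fun p : α × ℕ => min p.2 (m p.1 + 1)) :=
      UPoly.of_le (Poly.min (by fun_prop) hmp.toPoly) hmp (fun _ => min_le_right _ _)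
    have hxp : UPoly (fun p : α × ℕ => x p.1) := hx.comp (f := Prod.fst) (by fun_prop)
    refine (hG.poly.comp (f := fun p : α × ℕ => (List.replicate (x p.1) (),
      List.replicate (min p.2 (m p.1 + 1)) ())) (Poly.pair hxp h2)).congr fun p => ?_
    simp only [List.length_replicate]
  have h1 : Poly (fun a => (List.range (m a + 1)).filter
      (fun j => !decide (G (x a) ≤ min j (m a + 1)))) :=
    Poly.filter (p := fun a j => !decide (G (x a) ≤ min j (m a + 1))) hm1.range (Poly.not h0)
  refine (UPoly.length h1).congr fun a => ?_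
  show List.replicate (((List.range (m a + 1)).filter
      (fun j => !decide (G (x a) ≤ min j (m a + 1)))).length) () =
    List.replicate (min (G (x a)) (m a + 1)) ()
  rw [← filter_count]
  congr 2
  apply List.filter_congr
  intro j hj
  rw [List.mem_range] at hj
  rw [min_eq_left hj.le]

theorem upoly_capTow {G : ℕ → ℕ} (hG : Hon G) {x m : α → ℕ} (hx : UPoly x) (hm : UPoly m) :
    ∀ k, UPoly (fun a => min (tow k (G (x a))) (m a + 1)) := by
  intro k
  induction k with
  | zero => exact upoly_capG hG hx hm
  | succ k ih =>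
    refine (upoly_pow ih hm).congr fun a => ?_
    show List.replicate _ () = List.replicate _ ()
    congr 1
    show min (2 ^ min (tow k (G (x a))) (m a + 1)) (m a + 1) =
      min (2 ^ tow k (G (x a))) (m a + 1)
    by_cases h : tow k (G (x a)) ≤ m a + 1
    · rw [min_eq_left h]
    · have h1 : m a + 1 < 2 ^ (m a + 1) := Nat.lt_two_pow_self
      have h2 : 2 ^ (m a + 1) ≤ 2 ^ tow k (G (x a)) :=
        Nat.pow_le_pow_right (by norm_num) (by omega)
      rw [min_eq_right (by omega : m a + 1 ≤ tow k (G (x a)))]
      rw [min_eq_right h1.le, min_eq_right (h1.le.trans h2)]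

theorem pow_le_two_pow (k v : ℕ) : v ^ k ≤ (k + 1) ^ k * 2 ^ v := by
  rcases Nat.eq_zero_or_pos k with rfl | hk
  · simp [Nat.one_le_two_pow]
  · have h1 : v ≤ k * (v / k + 1) := by
      have := Nat.lt_mul_div_succ v hk
      omega
    have h2 : v / k + 1 ≤ 2 ^ (v / k) := Nat.lt_two_pow_self
    calc v ^ k ≤ (k * (v / k + 1)) ^ k := Nat.pow_le_pow_left h1 k
      _ = k ^ k * (v / k + 1) ^ k := by rw [mul_pow]
      _ ≤ (k + 1) ^ k * (2 ^ (v / k)) ^ k :=
        Nat.mul_le_mul (Nat.pow_le_pow_left (by omega) k) (Nat.pow_le_pow_left h2 k)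
      _ = (k + 1) ^ k * 2 ^ (v / k * k) := by rw [← pow_mul]
      _ ≤ (k + 1) ^ k * 2 ^ v :=
        Nat.mul_le_mul_left _ (Nat.pow_le_pow_right (by norm_num) (Nat.div_mul_le_self v k))

theorem eval_le_two_pow (p : Polynomial ℕ) : ∃ C, ∀ v, p.eval v ≤ C * 2 ^ v := by
  induction p using Polynomial.induction_on' with
  | add p q hp hq =>
    obtain ⟨C, hC⟩ := hp
    obtain ⟨D, hD⟩ := hq
    refine ⟨C + D, fun v => ?_⟩
    rw [Polynomial.eval_add, add_mul]
    exact add_le_add (hC v) (hD v)
  | monomial k c =>
    refine ⟨c * (k + 1) ^ k, fun v => ?_⟩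
    rw [Polynomial.eval_monomial, mul_assoc]
    exact Nat.mul_le_mul_left c (pow_le_two_pow k v)

theorem le_tow (k x : ℕ) : x ≤ tow k x := by
  induction k with
  | zero => exact le_rfl
  | succ k ih => exact ih.trans (Nat.lt_two_pow_self).le

/-- the test -/
def test (G : ℕ → ℕ) (k : ℕ) (e : Code) (p : Polynomial ℕ) (z : List Bool × List Bool) : Bool :=
  let v := min (tow k (G z.1.length)) (z.2.length + 1)
  decide (v ≤ z.2.length) && decide (min (2 ^ p.eval v) (z.2.length + 1) ≤ z.2.length) &&
    (allB (p.eval v) (z.2.map (fun _ => ()))).all (fun c => !acc e z.1 c)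

theorem poly_test {G : ℕ → ℕ} (hG : Hon G) (k : ℕ) (e : Code) (p : Polynomial ℕ) :
    Poly (test G k e p) := by
  have hx : UPoly (fun z : List Bool × List Bool => z.1.length) :=
    UPoly.length (l := fun z : List Bool × List Bool => z.1) (by fun_prop)
  have hm : UPoly (fun z : List Bool × List Bool => z.2.length) :=
    UPoly.length (l := fun z : List Bool × List Bool => z.2) (by fun_prop)
  have hv := upoly_capTow hG hx hm k
  have hpv := hv.eval p
  have h2 := upoly_pow hpv hm
  have hall : Poly (fun z : List Bool × List Bool =>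
      allB (p.eval (min (tow k (G z.1.length)) (z.2.length + 1))) (z.2.map (fun _ => ()))) :=
    poly_allB hpv (by fun_prop)
  unfold test
  refine Poly.and (Poly.and ?_ ?_) ?_
  · exact Poly.decide_le hv.toPoly hm.toPoly
  · exact Poly.decide_le h2.toPoly hm.toPoly
  · refine Poly.all (p := fun (z : List Bool × List Bool) c => !acc e z.1 c) hall ?_
    exact Poly.not (poly_acc (e := fun _ => e)
      (w := fun q : (List Bool × List Bool) × List Bool => q.1.1) (c := fun q => q.2)
      (by fun_prop) (by fun_prop) (by fun_prop))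

end C1

open C1 in
/-- C1 -/
theorem compl_tow {G : ℕ → ℕ} (hG : Hon G) (k : ℕ) {L : Set (List Bool)}
    (hL : L ∈ NT (fun n => tow k (G n))) : Lᶜ ∈ NT (fun n => tow (k + 2) (G n)) := by
  obtain ⟨e, p, hs, hc⟩ := exists_code_of_mem_NT (t := fun n => tow k (G n))
    (fun n => (hG.le n).trans (le_tow k _)) hL
  obtain ⟨C, hC⟩ := eval_le_two_pow p
  refine mem_NT_of_poly (R := test G k e p) (poly_test hG k e p)
    (Polynomial.X ^ C + Polynomial.X) ?_ ?_
  · intro w c h
    unfold test at h
    simp only [Bool.and_eq_true, decide_eq_true_eq, List.all_eq_true] at h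
    obtain ⟨⟨h1, h2⟩, h3⟩ := h
    have hv : min (tow k (G w.length)) (c.length + 1) = tow k (G w.length) := by omega
    rw [hv] at h1 h2 h3
    intro hw
    obtain ⟨c', hc', ha⟩ := hc w hw
    have h4 : 2 ^ p.eval (tow k (G w.length)) ≤ (c.map (fun _ => ())).length := by
      rw [List.length_map]
      omega
    have h5 := h3 c' (by rw [allB_eq h4]; exact mem_allStr.2 hc')
    rw [ha] at h5
    simp at h5
  · intro w hw
    set v := tow k (G w.length) with hv
    refine ⟨List.replicate (2 ^ p.eval v + v) true, ?_, ?_⟩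
    · rw [List.length_replicate]
      simp only [Polynomial.eval_add, Polynomial.eval_pow, Polynomial.eval_X]
      have h1 : tow (k + 2) (G w.length) = 2 ^ 2 ^ v := rfl
      rw [h1]
      have h2 : 2 ^ p.eval v ≤ (2 ^ 2 ^ v) ^ C := by
        rw [← pow_mul]
        exact Nat.pow_le_pow_right (by norm_num) ((hC v).trans (le_of_eq (mul_comm _ _)))
      have h3 : v ≤ 2 ^ 2 ^ v := (Nat.lt_two_pow_self).le.trans (Nat.lt_two_pow_self).le
      omega
    · unfold test
      simp only [Bool.and_eq_true, decide_eq_true_eq, List.all_eq_true, List.length_replicate]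
      rw [← hv]
      have h1 : min v (2 ^ p.eval v + v + 1) = v :=
        min_eq_left ((Nat.le_add_left v _).trans (Nat.le_succ _))
      rw [h1]
      refine ⟨⟨Nat.le_add_left v _, (min_le_left _ _).trans (Nat.le_add_right _ v)⟩, ?_⟩
      intro c' _
      cases hcc : acc e w c' with
      | false => rfl
      | true => exact absurd (hs w c' hcc) hw

end Pool.Agent.H639R2.NTP
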