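import Pool.Agent.H660R2.NX.UnivSet

/-!
# The classes `NTIME(Pol t)` for arbitrary computable time bounds `t`
-/

namespace Pool.Agent.H639R2.NTP

open Pool.Agent.NPC Pool.Agent.H660R2.NX Turing

/-- The class `NTIME(Pol t)` in certificate form: `L` has a verifier `V`, computable in time
polynomial in the length of the word together with the certificate, such that exactly the words of
`L` have accepted certificates, and every word `w` of `L` has an accepted certificate of length at
most `p (t |w|)`, where `p` is a polynomial.  (The verifier need not know `t`.) -/
def NT (t : ℕ → ℕ) : Set (Set (List Bool)) :=
  {L | ∃ (V : List Bool → List Bool) (p : Polynomial ℕ), PolyTime V ∧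
    (∀ w c : List Bool, V (pairBits w c) = [true] → w ∈ L) ∧
    ∀ w ∈ L, ∃ c : List Bool, c.length ≤ p.eval (t w.length) ∧ V (pairBits w c) = [true]}

/-- Honest functions: nondecreasing computable functions above the identity whose values can be
compared in polynomial time with numbers written in unary. -/
structure Hon (G : ℕ → ℕ) : Prop where
  mono : Monotone G
  le : ∀ n, n ≤ G n
  comp : Computable G
  poly : Poly (fun p : List Unit × List Unit => decide (G p.1.length ≤ p.2.length))

/-- The universal verifier: the program with code `e` accepts the pair of `w` and the first
component of `c`, in a number of steps given by the length of the second component of `c`. -/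
def acc (e : Code) (w c : List Bool) : Bool :=
  decide (U e (pairBits w (unpair c).1) (unpair c).2.length = some [true])

/-- `e` is a code of the verifier `V` with polynomial overhead `q`. -/
structure IsAcc (e : Code) (V : List Bool → List Bool) (q : Polynomial ℕ) : Prop where
  sound : ∀ w c, acc e w c = true → V (pairBits w (unpair c).1) = [true]
  complete : ∀ w c, V (pairBits w c) = [true] →
    ∃ c', acc e w c' = true ∧ c'.length ≤ q.eval (w.length + c.length)

end Pool.Agent.H639R2.NTP
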