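import Pool.Agent.H639R2.NTP.Defs
import Pool.Agent.H671R2.PolyAuto

/-!
# Task EL: a fast growing honest sequence
-/

namespace Pool.Agent.H639R2.NTP

open Pool.Agent.NPC Pool.Agent.H660R2.NX Turing

/-- A fast growing sequence of even numbers. -/
def ell (G : ℕ → ℕ) : ℕ → ℕ
  | 0 => 2 * (G 0 + 1)
  | i + 1 => 2 * (G (i + 1) + 2 ^ (ell G i + 1) ^ (i + 1))

namespace Ell

variable {α : Type} [TEnc α]

/-- capped powers -/
theorem cpow_iter (b M : ℕ) (hb : 1 ≤ b) (k : ℕ) :
    (fun x => min (x * b) M)^[k] (min 1 M) = min (b ^ k) M := by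
  induction k with
  | zero => simp
  | succ k ih =>
    rw [Function.iterate_succ_apply', ih, pow_succ]
    rcases le_total (b ^ k) M with h | h
    · rw [min_eq_left h]
    · rw [min_eq_right h, min_eq_right (Nat.le_mul_of_pos_right M hb),
        min_eq_right (le_trans h (Nat.le_mul_of_pos_right _ hb))]

theorem poly_cpow {b M k : α → ℕ} (hb : Poly b) (hk : UPoly k) (hM : Poly M)
    (hb1 : ∀ a, 1 ≤ b a) : Poly (fun a => min (b a ^ k a) (M a)) := by
  obtain ⟨r, hr⟩ := hM.sz_le
  have h1 : Poly (fun a => (fun x => min (x * b a) (M a))^[(List.replicate (k a) ()).length]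
      (min 1 (M a))) := by
    refine Poly.iterLen (F := fun a x => min (x * b a) (M a)) hk (NPC.Poly.min (NPC.Poly.const 1) hM)
      (Poly.min (Poly.mul (Poly.snd Poly.id) (hb.comp (Poly.fst Poly.id)))
        (hM.comp (Poly.fst Poly.id))) (Polynomial.C 2 * r) ?_
    intro a j _
    have h2 : (fun x => min (x * b a) (M a))^[j] (min 1 (M a)) ≤ M a := by
      rw [cpow_iter _ _ (hb1 a)]
      exact min_le_right _ _
    have h3 := sz_nat_mono_le h2
    have h4 := hr a
    simp only [Polynomial.eval_mul, Polynomial.eval_C]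
    exact le_trans h3 (Nat.mul_le_mul le_rfl h4)
  refine h1.congr fun a => ?_
  rw [List.length_replicate, cpow_iter _ _ (hb1 a)]

/-- the capped values of an honest function -/
theorem poly_capG {G : ℕ → ℕ} (hG : Hon G) {j m : α → ℕ} (hj : UPoly j) (hm : UPoly m) :
    Poly (fun a => min (G (j a)) (m a + 1)) := by
  classical
  have h0 : UPoly (fun x : α × ℕ => min x.2 (m x.1)) :=
    UPoly.of_le (Poly.min (Poly.snd Poly.id) (hm.toPoly.comp (Poly.fst Poly.id)))
      (hm.comp (Poly.fst Poly.id)) fun _ => min_le_right _ _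
  have h1 : Poly (fun x : α × ℕ => decide (G (j x.1) ≤ min x.2 (m x.1))) :=
    (hG.poly.comp (Poly.pair (hj.comp (Poly.fst Poly.id)) h0)).congr fun x => by
      simp only [List.length_replicate]
  have h2 : Poly (fun a => ((List.range (m a + 1)).filter
      (fun v => !decide (G (j a) ≤ min v (m a)))).length) :=
    Poly.length (Poly.filter (p := fun a v => !decide (G (j a) ≤ min v (m a)))
      (hm.add (UPoly.const 1)).range (Poly.not h1))
  refine h2.congr fun a => ?_
  have key : ∀ g M : ℕ, ((List.range M).filter (fun v => !decide (g ≤ v))).length = min g M := by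
    intro g M
    induction M with
    | zero => simp
    | succ M ih =>
      rw [List.range_succ, List.filter_append, List.length_append, ih]
      by_cases h : g ≤ M
      · simp only [List.filter_cons, h, decide_true, Bool.not_true, List.filter_nil,
          Bool.false_eq_true, if_false, List.length_nil, add_zero]
        rw [min_eq_left h, min_eq_left (by omega)]
      · simp only [List.filter_cons, h, decide_false, Bool.not_false, List.filter_nil,
          if_true, List.length_cons, List.length_nil]
        rw [min_eq_right (by omega), min_eq_right (by omega)]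
  have h3 : (List.range (m a + 1)).filter (fun v => !decide (G (j a) ≤ min v (m a))) =
      (List.range (m a + 1)).filter (fun v => !decide (G (j a) ≤ v)) := by
    refine List.filter_congr fun v hv => ?_
    rw [List.mem_range] at hv
    rw [min_eq_left (by omega)]
  rw [h3, key]

/-- one capped step -/
def stepc (G : ℕ → ℕ) (m s j : ℕ) : ℕ :=
  if m < s then m + 1
  else min (2 * (min (G j) (m + 1) + min (2 ^ min ((s + 1) ^ j) (m + 1)) (m + 1))) (m + 1)

theorem stepc_eq (G : ℕ → ℕ) (m e j : ℕ) (hj : 1 ≤ j) :
    stepc G m (min e (m + 1)) j = min (2 * (G j + 2 ^ (e + 1) ^ j)) (m + 1) := by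
  have hpow : e < 2 ^ (e + 1) ^ j := by
    have h1 : e + 1 ≤ (e + 1) ^ j := Nat.le_self_pow (by omega) _
    have h2 : (e + 1) ^ j < 2 ^ (e + 1) ^ j := Nat.lt_two_pow_self
    omega
  unfold stepc
  by_cases h : m < e
  · rw [if_pos (by omega)]
    rw [min_eq_right (by omega)]
  · rw [if_neg (by omega), min_eq_left (show e ≤ m + 1 by omega)]
    have h1 : min (2 ^ min ((e + 1) ^ j) (m + 1)) (m + 1) = min (2 ^ (e + 1) ^ j) (m + 1) := by
      rcases le_total ((e + 1) ^ j) (m + 1) with h2 | h2
      · rw [min_eq_left h2]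
      · rw [min_eq_right h2]
        have h3 : m + 1 < 2 ^ (m + 1) := Nat.lt_two_pow_self
        have h4 : 2 ^ (m + 1) ≤ 2 ^ (e + 1) ^ j := Nat.pow_le_pow_right (by norm_num) h2
        rw [min_eq_right h3.le, min_eq_right (by omega)]
    rw [h1]
    generalize G j = g
    generalize 2 ^ (e + 1) ^ j = P at *
    omega

theorem ell_cap (G : ℕ → ℕ) (m n : ℕ) :
    (List.range n).foldl (fun s j => stepc G m s (j + 1)) (min (ell G 0) (m + 1)) =
      min (ell G n) (m + 1) := by
  induction n with
  | zero => rfl
  | succ n ih =>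
    rw [List.range_succ, List.foldl_append, ih, List.foldl_cons, List.foldl_nil,
      stepc_eq G m (ell G n) (n + 1) (by omega)]
    rfl

theorem ell_lt (G : ℕ → ℕ) (i : ℕ) : ell G i < ell G (i + 1) := by
  have h1 : ell G i + 1 ≤ (ell G i + 1) ^ (i + 1) := Nat.le_self_pow (by omega) _
  have h2 : (ell G i + 1) ^ (i + 1) < 2 ^ (ell G i + 1) ^ (i + 1) := Nat.lt_two_pow_self
  show ell G i < 2 * (G (i + 1) + 2 ^ (ell G i + 1) ^ (i + 1))
  omega

theorem poly_ell {G : ℕ → ℕ} (hG : Hon G) :
    Poly (fun p : List Unit × List Unit => decide (ell G p.1.length ≤ p.2.length)) := by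
  classical
  have hn : UPoly (fun p : List Unit × List Unit => p.1.length) := UPoly.length (Poly.fst Poly.id)
  have hm : UPoly (fun p : List Unit × List Unit => p.2.length) := UPoly.length (Poly.snd Poly.id)
  -- parameters of the step: ((p, s), j)
  have hs0 : Poly (fun p : List Unit × List Unit => min (ell G 0) (p.2.length + 1)) :=
    NPC.Poly.min (NPC.Poly.const _) (hm.add (UPoly.const 1)).toPoly
  -- the step, with the index capped by `n`
  let F : List Unit × List Unit → ℕ → ℕ → ℕ := fun p s j =>
    stepc G p.2.length (min s (p.2.length + 1)) (min (j + 1) (p.1.length))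
  have hF : Poly (fun x : (List Unit × List Unit) × ℕ × ℕ => F x.1 x.2.1 x.2.2) := by
    have e1 : UPoly (fun x : (List Unit × List Unit) × ℕ × ℕ => x.1.2.length) :=
      hm.comp (Poly.fst Poly.id)
    have e2 : UPoly (fun x : (List Unit × List Unit) × ℕ × ℕ => min (x.2.2 + 1) x.1.1.length) :=
      UPoly.of_le (Poly.min (Poly.succ (Poly.snd (Poly.snd Poly.id)))
        (hn.comp (Poly.fst Poly.id)).toPoly) (hn.comp (Poly.fst Poly.id))
        fun _ => min_le_right _ _
    have e3 : Poly (fun x : (List Unit × List Unit) × ℕ × ℕ =>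
        min (G (min (x.2.2 + 1) x.1.1.length)) (x.1.2.length + 1)) := poly_capG hG e2 e1
    have e4 : Poly (fun x : (List Unit × List Unit) × ℕ × ℕ => x.1.2.length + 1) :=
      (e1.add (UPoly.const 1)).toPoly
    have es : Poly (fun x : (List Unit × List Unit) × ℕ × ℕ =>
        min x.2.1 (x.1.2.length + 1)) := Poly.min (Poly.fst (Poly.snd Poly.id)) e4
    have e5 : Poly (fun x : (List Unit × List Unit) × ℕ × ℕ =>
        min ((min x.2.1 (x.1.2.length + 1) + 1) ^ (min (x.2.2 + 1) x.1.1.length))
          (x.1.2.length + 1)) :=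
      poly_cpow (Poly.succ es) e2 e4 fun _ => Nat.le_add_left 1 _
    have e6 : UPoly (fun x : (List Unit × List Unit) × ℕ × ℕ =>
        min ((min x.2.1 (x.1.2.length + 1) + 1) ^ (min (x.2.2 + 1) x.1.1.length))
          (x.1.2.length + 1)) :=
      UPoly.of_le e5 (e1.add (UPoly.const 1)) fun _ => min_le_right _ _
    have e7 : Poly (fun x : (List Unit × List Unit) × ℕ × ℕ =>
        min (2 ^ min ((min x.2.1 (x.1.2.length + 1) + 1) ^ (min (x.2.2 + 1) x.1.1.length))
          (x.1.2.length + 1)) (x.1.2.length + 1)) :=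
      poly_cpow (NPC.Poly.const 2) e6 e4 fun _ => by norm_num
    exact Poly.ite (Poly.decide_lt e1.toPoly es) e4
      (Poly.min (NPC.Poly.mul (NPC.Poly.const 2) (Poly.add e3 e7)) e4)
  have hFle : ∀ p s j, F p s j ≤ p.2.length + 1 := by
    intro p s j
    simp only [F, stepc]
    split_ifs
    · exact le_rfl
    · exact min_le_right _ _
  obtain ⟨r, hr⟩ := (hm.add (UPoly.const 1)).toPoly.sz_le
  have h1 : Poly (fun p : List Unit × List Unit =>
      (List.range p.1.length).foldl (F p) (min (ell G 0) (p.2.length + 1))) := by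
    refine Poly.foldl hn.range hs0 hF (Polynomial.C 2 * r) ?_
    intro p k _
    have h2 : (List.take k (List.range p.1.length)).foldl (F p)
        (min (ell G 0) (p.2.length + 1)) ≤ p.2.length + 1 := by
      generalize List.take k (List.range p.1.length) = l
      induction l using List.reverseRecOn with
      | nil => exact min_le_right _ _
      | append_singleton l b _ =>
        rw [List.foldl_append, List.foldl_cons, List.foldl_nil]
        exact hFle _ _ _
    have h3 := sz_nat_mono_le h2
    have h4 := hr p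
    simp only [Polynomial.eval_mul, Polynomial.eval_C]
    exact le_trans h3 (Nat.mul_le_mul le_rfl h4)
  have h2 : Poly (fun p : List Unit × List Unit => decide (
      (List.range p.1.length).foldl (F p) (min (ell G 0) (p.2.length + 1)) ≤ p.2.length)) :=
    Poly.decide_le h1 hm.toPoly
  refine h2.congr fun p => ?_
  have h3 : (List.range p.1.length).foldl (F p) (min (ell G 0) (p.2.length + 1)) =
      min (ell G p.1.length) (p.2.length + 1) := by
    rw [← ell_cap G p.2.length p.1.length]
    have key : ∀ n, n ≤ p.1.length → (List.range n).foldl (F p) (min (ell G 0) (p.2.length + 1)) =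
        (List.range n).foldl (fun s j => stepc G p.2.length s (j + 1))
          (min (ell G 0) (p.2.length + 1)) := by
      intro n
      induction n with
      | zero => intro _; rfl
      | succ n ih =>
        intro hn
        rw [List.range_succ, List.foldl_append, List.foldl_append, ih (by omega),
          List.foldl_cons, List.foldl_nil, List.foldl_cons, List.foldl_nil, ell_cap]
        simp only [F]
        rw [min_eq_left (show min (ell G n) (p.2.length + 1) ≤ p.2.length + 1 from min_le_right _ _),
          min_eq_left hn]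
    exact key _ le_rfl
  rw [h3]
  congr 1
  rw [eq_iff_iff]
  omega

theorem computable_ell {G : ℕ → ℕ} (hG : Computable G) : Computable (ell G) := by
  have hpow : Primrec₂ ((· ^ ·) : ℕ → ℕ → ℕ) := Primrec₂.unpaired'.1 Nat.Primrec.pow
  have hstep : Computable₂ (fun (_ : ℕ) (x : ℕ × ℕ) =>
      2 * (G (x.1 + 1) + 2 ^ (x.2 + 1) ^ (x.1 + 1))) := by
    have c1 : Computable (fun y : ℕ × ℕ × ℕ => y.2.1 + 1) :=
      Computable.succ.comp (Computable.fst.comp Computable.snd)
    have c2 : Computable (fun y : ℕ × ℕ × ℕ => y.2.2 + 1) :=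
      Computable.succ.comp (Computable.snd.comp Computable.snd)
    have c3 : Computable (fun y : ℕ × ℕ × ℕ => (y.2.2 + 1) ^ (y.2.1 + 1)) :=
      hpow.to_comp.comp c2 c1
    have c4 : Computable (fun y : ℕ × ℕ × ℕ => 2 ^ (y.2.2 + 1) ^ (y.2.1 + 1)) :=
      hpow.to_comp.comp (Computable.const 2) c3
    exact Primrec.nat_mul.to_comp.comp (Computable.const 2)
      (Primrec.nat_add.to_comp.comp (hG.comp c1) c4)
  have h := Computable.nat_rec (f := fun n : ℕ => n) (g := fun _ : ℕ => 2 * (G 0 + 1))
    (h := fun (_ : ℕ) (x : ℕ × ℕ) => 2 * (G (x.1 + 1) + 2 ^ (x.2 + 1) ^ (x.1 + 1)))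
    Computable.id (Computable.const _) hstep
  refine h.of_eq fun n => ?_
  induction n with
  | zero => rfl
  | succ n ih =>
    show 2 * (G (n + 1) + 2 ^ (_ + 1) ^ (n + 1)) = ell G (n + 1)
    rw [ih]
    rfl

end Ell

open Ell in
theorem hon_ell {G : ℕ → ℕ} (hG : Hon G) : Hon (ell G) where
  mono := monotone_nat_of_le_succ fun i => (ell_lt G i).le
  le := fun n => by
    induction n with
    | zero => exact Nat.zero_le _
    | succ n ih => exact lt_of_le_of_lt ih (ell_lt G n)
  comp := computable_ell hG.comp
  poly := poly_ell hG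

end Pool.Agent.H639R2.NTP
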