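import Pool.Agent.H639R2.NTP.Basic
import Pool.Agent.H639R2.NTP.Comp
import Pool.Agent.H639R2.NTP.Ell

/-!
# PAH: the diagonal set
-/

namespace Pool.Agent.H639R2.NTP

open Pool.Agent.NPC Pool.Agent.H660R2.NX Turing

/-- Bounded acceptance of the word `true^n`. -/
def W (e : Code) (k n : ℕ) : Prop :=
  ∃ c : List Bool, c.length ≤ n ^ k + k ∧ acc e (List.replicate n true) c = true

/-- The properties of the diagonal set `H` for the enumeration `D` and the interval ends `l`. -/
structure Diag (D : ℕ → Code × ℕ) (l : ℕ → ℕ) (H : ℕ → Prop) : Prop where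
  even : ∀ n, H n → n % 2 = 0
  small : ∀ n, n < l 0 → ¬ H n
  mid : ∀ i n, l i ≤ n → n + 2 < l (i + 1) → n % 2 = 0 →
    (H n ↔ W (D i).1 (D i).2 (n + 2))
  last : ∀ i n, l i ≤ n → n + 2 = l (i + 1) → (H n ↔ ¬ W (D i).1 (D i).2 (l i))

/-- The index `i` with `l i ≤ n < l (i + 1)` (for a strictly increasing sequence `l`). -/
def blk (l : ℕ → ℕ) (n : ℕ) : ℕ := Nat.findGreatest (fun i => l i ≤ n) n

namespace DiagX

variable {α : Type} [TEnc α]

/-! ### unary functions -/

theorem filter_lt (k : ℕ) : ∀ n : ℕ,
    ((List.range n).filter (fun m => decide (m < k))).length = min k n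
  | 0 => by simp
  | n + 1 => by
    rw [List.range_succ, List.filter_append, List.length_append, filter_lt k n]
    by_cases h : n < k
    · rw [List.filter_cons_of_pos (by simpa using h)]
      simp
      omega
    · rw [List.filter_cons_of_neg (by simpa using h)]
      simp
      omega

theorem uLe {l : ℕ → ℕ} (hl : Poly (fun p : List Unit × List Unit =>
    decide (l p.1.length ≤ p.2.length))) {a b : α → ℕ} (ha : UPoly a) (hb : UPoly b) :
    Poly (fun x => decide (l (a x) ≤ b x)) :=
  (hl.comp (Poly.pair ha hb)).congr fun x => by simp only [List.length_replicate]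

theorem uMin {a b : α → ℕ} (ha : Poly a) (hb : UPoly b) : UPoly (fun x => min (a x) (b x)) :=
  UPoly.of_le (Poly.min ha hb.toPoly) hb (fun x => min_le_right _ _)

theorem uMinL {l : ℕ → ℕ} (hl : Poly (fun p : List Unit × List Unit =>
    decide (l p.1.length ≤ p.2.length))) {a b : α → ℕ} (ha : UPoly a) (hb : UPoly b) :
    UPoly (fun x => min (l (a x)) (b x)) := by
  have h1 : Poly (fun x => (List.range (b x)).filter
      (fun m => !decide (l (a x) ≤ min m (b x)))) := by
    refine Poly.filter (p := fun x m => !decide (l (a x) ≤ min m (b x))) hb.range ?_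
    have h2 : Poly (fun y : α × ℕ => y.1) := Poly.fst Poly.id
    exact Poly.not (uLe hl (ha.comp h2) (uMin (Poly.snd Poly.id) (hb.comp h2)))
  refine (UPoly.length h1).congr fun x => ?_
  beta_reduce
  congr 1
  rw [← filter_lt (l (a x)) (b x)]
  congr 1
  apply List.filter_congr
  intro m hm
  rw [List.mem_range] at hm
  rw [min_eq_left hm.le, ← decide_not]
  exact decide_eq_decide.2 not_le

theorem blk_iff {l : ℕ → ℕ} (hl : StrictMono l) (n i : ℕ) : i < blk l n ↔ l (i + 1) ≤ n := by
  unfold blk
  constructor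
  · intro h
    have h1 : l (Nat.findGreatest (fun i => l i ≤ n) n) ≤ n :=
      Nat.findGreatest_of_ne_zero (P := fun i => l i ≤ n) rfl (by omega)
    exact (hl.monotone h).trans h1
  · intro h
    have h1 : i + 1 ≤ n := (hl.id_le (i + 1)).trans h
    have := Nat.le_findGreatest (P := fun i => l i ≤ n) h1 h
    omega

theorem blk_le (l : ℕ → ℕ) (n : ℕ) : blk l n ≤ n := Nat.findGreatest_le n

theorem l_blk_le {l : ℕ → ℕ} {n : ℕ} (h : l 0 ≤ n) : l (blk l n) ≤ n :=
  Nat.findGreatest_spec (P := fun i => l i ≤ n) (Nat.zero_le n) h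

theorem lt_l_blk {l : ℕ → ℕ} (hl : StrictMono l) (n : ℕ) : n < l (blk l n + 1) := by
  by_contra h
  push Not at h
  exact lt_irrefl _ ((blk_iff hl n _).2 h)

theorem blk_eq {l : ℕ → ℕ} (hl : StrictMono l) {n i : ℕ} (h1 : l i ≤ n) (h2 : n < l (i + 1)) :
    blk l n = i := by
  rcases lt_trichotomy (blk l n) i with h | h | h
  · exfalso
    have h3 := lt_l_blk hl n
    have h4 : l (blk l n + 1) ≤ l i := hl.monotone h
    omega
  · exact h
  · exfalso
    have := (blk_iff hl n i).1 h
    omega

theorem uBlk {l : ℕ → ℕ} (hl : Poly (fun p : List Unit × List Unit =>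
    decide (l p.1.length ≤ p.2.length))) (hm : StrictMono l) {n : α → ℕ} (hn : UPoly n) :
    UPoly (fun x => blk l (n x)) := by
  have h1 : Poly (fun x => (List.range (n x)).filter
      (fun i => decide (l (min i (n x) + 1) ≤ n x))) := by
    refine Poly.filter (p := fun x i => decide (l (min i (n x) + 1) ≤ n x)) hn.range ?_
    have h2 : Poly (fun y : α × ℕ => y.1) := Poly.fst Poly.id
    exact uLe hl (UPoly.add (uMin (Poly.snd Poly.id) (hn.comp h2)) (UPoly.const 1)) (hn.comp h2)
  refine (UPoly.length h1).congr fun x => ?_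
  beta_reduce
  congr 1
  rw [← min_eq_left (blk_le l (n x)), ← filter_lt (blk l (n x)) (n x)]
  congr 1
  apply List.filter_congr
  intro i hi
  rw [List.mem_range] at hi
  rw [min_eq_left hi.le]
  exact decide_eq_decide.2 (blk_iff hm _ _).symm

/-! ### powers -/

theorem size_pow_le (m : ℕ) : ∀ j, (m ^ j).size ≤ j * m.size + 1
  | 0 => by simp
  | j + 1 => by
    have ih := size_pow_le m j
    rw [Nat.size_le]
    rw [Nat.size_le] at ih
    have h1 : m < 2 ^ m.size := Nat.lt_size_self m
    rw [pow_succ]
    calc m ^ j * m < 2 ^ (j * m.size + 1) * 2 ^ m.size :=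
          Nat.mul_lt_mul'' ih h1
      _ = 2 ^ ((j + 1) * m.size + 1) := by rw [← pow_add]; congr 1; ring

theorem poly_pow {m k : α → ℕ} (hm : Poly m) (hk : UPoly k) : Poly (fun x => m x ^ k x) := by
  obtain ⟨q, hq⟩ := Poly.sz_le hm
  obtain ⟨q', hq'⟩ := Poly.sz_le hk
  have key : ∀ (x : α) (j : ℕ), (fun s => s * m x)^[j] 1 = m x ^ j := by
    intro x j
    induction j with
    | zero => rfl
    | succ j ih => rw [Function.iterate_succ_apply', ih, pow_succ]
  have h := Poly.iterLen (l := fun x => List.replicate (k x) ()) (s := fun _ : α => (1 : ℕ))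
    (F := fun x s => s * m x) hk (NPC.Poly.const 1)
    (Poly.mul (Poly.snd Poly.id) (hm.comp (Poly.fst Poly.id))) (4 * (q' * q + 1) + 1) (by
      intro x j hj
      rw [List.length_replicate] at hj
      rw [key]
      have h1 := sz_nat_le (m x ^ j)
      have h2 := size_pow_le (m x) j
      have h3 := size_le_sz (m x)
      have h4 := hq x
      have h5 := hq' x
      have h6 := length_lt_sz (List.replicate (k x) ())
      rw [List.length_replicate] at h6
      simp only [Polynomial.eval_add, Polynomial.eval_mul, Polynomial.eval_one,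
        Polynomial.eval_ofNat]
      have h7 : j * (m x).size ≤ q'.eval (sz x) * q.eval (sz x) :=
        Nat.mul_le_mul (by omega) (by omega)
      omega)
  refine h.congr fun x => ?_
  rw [List.length_replicate, key]

/-! ### brute force -/

/-- brute force decision of `W e k m` with the given padding -/
def bfW (e : Code) (k m : ℕ) (pad : List Unit) : Bool :=
  (allB (min (m ^ k + k) pad.length) pad).any (fun c => acc e (List.replicate m true) c)

theorem bfW_iff {e : Code} {k m : ℕ} {pad : List Unit} (h : 2 ^ (m ^ k + k) ≤ pad.length) :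
    bfW e k m pad = true ↔ W e k m := by
  have h1 : m ^ k + k < 2 ^ (m ^ k + k) := Nat.lt_two_pow_self
  unfold bfW W
  rw [min_eq_left (by omega), allB_eq h, List.any_eq_true]
  constructor
  · rintro ⟨c, hc, h2⟩
    exact ⟨c, mem_allStr.1 hc, h2⟩
  · rintro ⟨c, hc, h2⟩
    exact ⟨c, mem_allStr.2 hc, h2⟩

theorem poly_rep {n : α → ℕ} (hn : UPoly n) : Poly (fun x => List.replicate (n x) true) := by
  refine (NPC.Poly.map (F := fun _ _ => true) (show Poly (fun x => List.replicate (n x) ()) from hn)
    (NPC.Poly.const true)).congr fun x => ?_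
  rw [List.map_replicate]

theorem poly_bfW {e : α → Code} {k m : α → ℕ} {pad : α → List Unit} (he : Poly e)
    (hk : UPoly k) (hm : UPoly m) (hp : Poly pad) :
    Poly (fun x => bfW (e x) (k x) (m x) (pad x)) := by
  unfold bfW
  have h1 : UPoly (fun x => min (m x ^ k x + k x) (pad x).length) :=
    uMin (Poly.add (poly_pow hm.toPoly hk) hk.toPoly) (UPoly.length hp)
  have h2 : Poly (fun y : α × List Bool => y.1) := Poly.fst Poly.id
  refine Poly.any (p := fun x c => acc (e x) (List.replicate (m x) true) c) (poly_allB h1 hp) ?_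
  exact poly_acc (he.comp h2) ((poly_rep hm).comp h2) (Poly.snd Poly.id)

/-! ### the diagonal set -/

/-- the set -/
def HH (D : ℕ → Code × ℕ) (l : ℕ → ℕ) (n : ℕ) : Prop :=
  n % 2 = 0 ∧ l 0 ≤ n ∧ if n + 2 < l (blk l n + 1) then W (D (blk l n)).1 (D (blk l n)).2 (n + 2)
    else ¬ W (D (blk l n)).1 (D (blk l n)).2 (l (blk l n))

theorem HH_diag {D : ℕ → Code × ℕ} {l : ℕ → ℕ} (hm : StrictMono l) (he : ∀ i, l i % 2 = 0) :
    Diag D l (HH D l) := by
  refine ⟨fun n h => h.1, fun n h1 h2 => ?_, ?_, ?_⟩
  · have := h2.2.1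
    omega
  · intro i n h1 h2 h3
    have hb : blk l n = i := blk_eq hm h1 (by omega)
    have h0 : l 0 ≤ n := (hm.monotone (Nat.zero_le i)).trans h1
    unfold HH
    rw [hb, if_pos h2]
    exact ⟨fun h => h.2.2, fun h => ⟨h3, h0, h⟩⟩
  · intro i n h1 h2
    have hb : blk l n = i := blk_eq hm h1 (by omega)
    have h0 : l 0 ≤ n := (hm.monotone (Nat.zero_le i)).trans h1
    have h3 : n % 2 = 0 := by
      have := he (i + 1)
      omega
    unfold HH
    rw [hb, if_neg (by omega)]
    exact ⟨fun h => h.2.2, fun h => ⟨h3, h0, h⟩⟩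

/-- the verifier -/
def RR (D : ℕ → Code × ℕ) (l : ℕ → ℕ) (x : List Bool × List Bool) : Bool :=
  (decide (x.1 = List.replicate x.1.length true) && (decide (x.1.length % 2 = 0) &&
    decide (l 0 ≤ x.1.length))) &&
  (bif decide (l (blk l x.1.length + 1) ≤ x.1.length + 2) then
    !(bfW (D (blk l x.1.length)).1 (D (blk l x.1.length)).2
      (min (l (blk l x.1.length)) x.1.length) (List.replicate (x.1.length + 2) ()))
  else (decide (x.2.length ≤ (x.1.length + 2) ^ (D (blk l x.1.length)).2 +
      (D (blk l x.1.length)).2) &&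
    acc (D (blk l x.1.length)).1 (List.replicate (x.1.length + 2) true) x.2))

theorem poly_RR {D : ℕ → Code × ℕ} {l : ℕ → ℕ}
    (hl : Poly (fun p : List Unit × List Unit => decide (l p.1.length ≤ p.2.length)))
    (hm : StrictMono l) (hD1 : Poly (fun u : List Unit => (D u.length).1))
    (hD2 : UPoly (fun u : List Unit => (D u.length).2)) : Poly (RR D l) := by
  have h1 : Poly (fun x : List Bool × List Bool => x.1) := Poly.fst Poly.id
  have h2 : Poly (fun x : List Bool × List Bool => x.2) := Poly.snd Poly.id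
  have hn : UPoly (fun x : List Bool × List Bool => x.1.length) := UPoly.length h1
  have hn2 : UPoly (fun x : List Bool × List Bool => x.1.length + 2) := UPoly.add hn (UPoly.const 2)
  have hb : UPoly (fun x : List Bool × List Bool => blk l x.1.length) := uBlk hl hm hn
  have he : Poly (fun x : List Bool × List Bool => (D (blk l x.1.length)).1) :=
    (hD1.comp (show Poly (fun x : List Bool × List Bool => List.replicate (blk l x.1.length) ())
      from hb)).congr fun x => by rw [List.length_replicate]
  have hk : UPoly (fun x : List Bool × List Bool => (D (blk l x.1.length)).2) := by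
    refine (UPoly.comp hD2 (show Poly (fun x : List Bool × List Bool =>
      List.replicate (blk l x.1.length) ()) from hb)).congr fun x => by
        beta_reduce
        rw [List.length_replicate]
  unfold RR
  refine Poly.and (Poly.and (Poly.decide_eq h1 (poly_rep hn)) (Poly.and
    (Poly.decide_eq (Poly.mod hn.toPoly (NPC.Poly.const 2)) (NPC.Poly.const 0))
    (uLe hl (UPoly.const 0) hn))) ?_
  refine Poly.cond (uLe hl (UPoly.add hb (UPoly.const 1)) hn2) ?_ ?_
  · exact Poly.not (poly_bfW he hk (uMinL hl hb hn) hn2)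
  · exact Poly.and (Poly.decide_le (UPoly.length h2).toPoly (Poly.add (poly_pow hn2.toPoly hk)
      hk.toPoly)) (poly_acc he (poly_rep hn2) h2)


/-! ### facts on `ell` -/

theorem ell_even (G : ℕ → ℕ) : ∀ i, ell G i % 2 = 0
  | 0 => by rw [ell]; omega
  | i + 1 => by rw [ell]; omega

theorem ell_step (G : ℕ → ℕ) (i : ℕ) :
    2 ^ (ell G i + 1) ^ (i + 1) ≤ ell G (i + 1) ∧ ell G i + 2 ≤ ell G (i + 1) := by
  have h1 : ell G (i + 1) = 2 * (G (i + 1) + 2 ^ (ell G i + 1) ^ (i + 1)) := by rw [ell]
  have h2 : (ell G i + 1) ^ (i + 1) < 2 ^ (ell G i + 1) ^ (i + 1) := Nat.lt_two_pow_self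
  have h3 : ell G i + 1 ≤ (ell G i + 1) ^ (i + 1) := by
    calc ell G i + 1 = (ell G i + 1) ^ 1 := (pow_one _).symm
      _ ≤ _ := Nat.pow_le_pow_right (by omega) (by omega)
  omega

theorem ell_strictMono (G : ℕ → ℕ) : StrictMono (ell G) :=
  strictMono_nat_of_lt_succ fun i => by
    have := (ell_step G i).2
    omega

theorem two_le_ell (G : ℕ → ℕ) : 2 ≤ ell G 0 := by rw [ell]; omega

theorem pow_bound {a k i : ℕ} (ha : 1 ≤ a) (hk : k ≤ i) : a ^ k + k ≤ (a + 1) ^ (i + 1) := by
  have h1 : a ^ k ≤ (a + 1) ^ i :=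
    (Nat.pow_le_pow_left (by omega) k).trans (Nat.pow_le_pow_right (by omega) hk)
  have h2 : k ≤ (a + 1) ^ i :=
    (hk.trans Nat.lt_two_pow_self.le).trans (Nat.pow_le_pow_left (by omega) i)
  calc a ^ k + k ≤ (a + 1) ^ i * 2 := by omega
    _ ≤ (a + 1) ^ i * (a + 1) := Nat.mul_le_mul_left _ (by omega)
    _ = (a + 1) ^ (i + 1) := (pow_succ _ _).symm

theorem brute_ok {G : ℕ → ℕ} {D : ℕ → Code × ℕ} (hD3 : ∀ n, (D n).2 ≤ n) {n : ℕ}
    (h : ell G (blk (ell G) n + 1) ≤ n + 2) :
    2 ^ (ell G (blk (ell G) n) ^ (D (blk (ell G) n)).2 + (D (blk (ell G) n)).2) ≤ n + 2 := by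
  have h2 := two_le_ell G
  have h3 := (ell_strictMono G).monotone (Nat.zero_le (blk (ell G) n))
  refine le_trans (Nat.pow_le_pow_right (by norm_num) (pow_bound (by omega) (hD3 _))) ?_
  exact (ell_step G _).1.trans h

/-! ### soundness and completeness of the verifier -/

theorem RR_sound {G : ℕ → ℕ} {D : ℕ → Code × ℕ} (hD3 : ∀ n, (D n).2 ≤ n) {w c : List Bool}
    (h : RR D (ell G) (w, c) = true) :
    w = List.replicate w.length true ∧ HH D (ell G) w.length := by
  unfold RR at h
  simp only [Bool.and_eq_true, decide_eq_true_eq] at h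
  obtain ⟨⟨h1, h2, h3⟩, h4⟩ := h
  refine ⟨h1, h2, h3, ?_⟩
  generalize w.length = n at *
  by_cases h5 : ell G (blk (ell G) n + 1) ≤ n + 2
  · rw [if_neg (not_lt.2 h5)]
    rw [decide_eq_true h5, cond_true, min_eq_left (l_blk_le h3), Bool.not_eq_true'] at h4
    intro hW
    rw [← bfW_iff (pad := List.replicate (n + 2) ())
      (by rw [List.length_replicate]; exact brute_ok hD3 h5), h4] at hW
    exact Bool.false_ne_true hW
  · rw [if_pos (not_le.1 h5)]
    rw [decide_eq_false h5, cond_false, Bool.and_eq_true, decide_eq_true_eq] at h4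
    exact ⟨c, h4.1, h4.2⟩

theorem RR_complete {G : ℕ → ℕ} {D : ℕ → Code × ℕ} (hD3 : ∀ n, (D n).2 ≤ n) {n : ℕ}
    (h : HH D (ell G) n) : ∃ c : List Bool,
      c.length ≤ (Polynomial.X ^ 2 + Polynomial.X : Polynomial ℕ).eval
        (n ^ (D (blk (ell G) n)).2 + n) ∧
      RR D (ell G) (List.replicate n true, c) = true := by
  obtain ⟨h2, h3, h4⟩ := h
  have hn2 := two_le_ell G
  unfold RR
  simp only [List.length_replicate, decide_true, Bool.true_and, h2, h3]
  by_cases h5 : ell G (blk (ell G) n + 1) ≤ n + 2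
  · rw [if_neg (not_lt.2 h5)] at h4
    refine ⟨[], Nat.zero_le _, ?_⟩
    rw [decide_eq_true h5, cond_true, min_eq_left (l_blk_le h3), Bool.not_eq_true']
    rw [← Bool.not_eq_true]
    intro hb
    apply h4
    rwa [bfW_iff (by rw [List.length_replicate]; exact brute_ok hD3 h5)] at hb
  · rw [if_pos (not_le.1 h5)] at h4
    obtain ⟨c, hc, ha⟩ := h4
    refine ⟨c, hc.trans ?_, ?_⟩
    · simp only [Polynomial.eval_add, Polynomial.eval_pow, Polynomial.eval_X]
      have hk : (D (blk (ell G) n)).2 ≤ n := (hD3 _).trans (blk_le _ _)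
      generalize (D (blk (ell G) n)).2 = k at hk
      have h6 : (n + 2) ^ k ≤ (n ^ k) ^ 2 := by
        rw [← pow_mul, mul_comm k 2, pow_mul]
        exact Nat.pow_le_pow_left (by nlinarith) k
      have h7 : (n ^ k) ^ 2 ≤ (n ^ k + n) ^ 2 := Nat.pow_le_pow_left (by omega) 2
      have h8 : k ≤ n ^ k + n := by omega
      omega
    · rw [decide_eq_false h5, cond_false, decide_eq_true hc, Bool.true_and]
      exact ha

/-! ### computability -/

/-- brute force decision of `HH` with the given padding -/
def HB (D : ℕ → Code × ℕ) (l : ℕ → ℕ) (n : ℕ) (pad : List Unit) : Bool :=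
  (decide (n % 2 = 0) && decide (l 0 ≤ n)) &&
  (bif decide (l (blk l n + 1) ≤ n + 2) then
    !(bfW (D (blk l n)).1 (D (blk l n)).2 (min (l (blk l n)) n) pad)
  else bfW (D (blk l n)).1 (D (blk l n)).2 (n + 2) pad)

theorem HB_iff {G : ℕ → ℕ} {D : ℕ → Code × ℕ} (hD3 : ∀ n, (D n).2 ≤ n) {n : ℕ}
    {pad : List Unit} (hp : 2 ^ ((n + 2) ^ n + n) ≤ pad.length) :
    HB D (ell G) n pad = true ↔ HH D (ell G) n := by
  have hk : (D (blk (ell G) n)).2 ≤ n := (hD3 _).trans (blk_le _ _)
  have key : ∀ m ≤ n + 2, 2 ^ (m ^ (D (blk (ell G) n)).2 + (D (blk (ell G) n)).2) ≤ pad.length := by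
    intro m hm
    refine le_trans (Nat.pow_le_pow_right (by norm_num) ?_) hp
    have h1 : m ^ (D (blk (ell G) n)).2 ≤ (n + 2) ^ n :=
      (Nat.pow_le_pow_left hm _).trans (Nat.pow_le_pow_right (by omega) hk)
    omega
  unfold HB HH
  rw [Bool.and_eq_true, Bool.and_eq_true, decide_eq_true_eq, decide_eq_true_eq, and_assoc]
  refine and_congr_right fun h1 => and_congr_right fun h2 => ?_
  by_cases h5 : ell G (blk (ell G) n + 1) ≤ n + 2
  · rw [if_neg (not_lt.2 h5), decide_eq_true h5, cond_true, min_eq_left (l_blk_le h2),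
      Bool.not_eq_true', ← Bool.not_eq_true, bfW_iff (key _ ((l_blk_le h2).trans (by omega)))]
  · rw [if_pos (not_le.1 h5), decide_eq_false h5, cond_false, bfW_iff (key _ le_rfl)]

theorem poly_HB {D : ℕ → Code × ℕ} {l : ℕ → ℕ}
    (hl : Poly (fun p : List Unit × List Unit => decide (l p.1.length ≤ p.2.length)))
    (hm : StrictMono l) (hD1 : Poly (fun u : List Unit => (D u.length).1))
    (hD2 : UPoly (fun u : List Unit => (D u.length).2)) {n : α → ℕ} {pad : α → List Unit}
    (hn : UPoly n) (hp : Poly pad) : Poly (fun x => HB D l (n x) (pad x)) := by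
  have hn2 : UPoly (fun x => n x + 2) := UPoly.add hn (UPoly.const 2)
  have hb : UPoly (fun x => blk l (n x)) := uBlk hl hm hn
  have he : Poly (fun x => (D (blk l (n x))).1) :=
    (hD1.comp (show Poly (fun x => List.replicate (blk l (n x)) ())
      from hb)).congr fun x => by rw [List.length_replicate]
  have hk : UPoly (fun x => (D (blk l (n x))).2) := by
    refine (UPoly.comp hD2 (show Poly (fun x =>
      List.replicate (blk l (n x)) ()) from hb)).congr fun x => by
        beta_reduce
        rw [List.length_replicate]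
  unfold HB
  refine Poly.and (Poly.and
    (Poly.decide_eq (Poly.mod hn.toPoly (NPC.Poly.const 2)) (NPC.Poly.const 0))
    (uLe hl (UPoly.const 0) hn)) ?_
  refine Poly.cond (uLe hl (UPoly.add hb (UPoly.const 1)) hn2) ?_ ?_
  · exact Poly.not (poly_bfW he hk (uMinL hl hb hn) hp)
  · exact poly_bfW he hk hn2 hp

/-- number of `true`s -/
def tr (x : List Bool) : ℕ := (x.filter (fun b => b)).length

/-- number of `false`s -/
def fa (x : List Bool) : ℕ := (x.filter (fun b => !b)).length

/-- `n` times `true`, `m` times `false` -/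
def inp (n m : ℕ) : List Bool :=
  (List.range n).map (fun _ => true) ++ (List.range m).map (fun _ => false)

theorem tr_inp (n m : ℕ) : tr (inp n m) = n := by
  unfold tr inp
  rw [List.filter_append, List.length_append]
  have h1 : ((List.range n).map (fun _ => true)).filter (fun b => b) =
      (List.range n).map (fun _ => true) := by
    rw [List.filter_eq_self]
    simp
  have h2 : ((List.range m).map (fun _ => false)).filter (fun b => b) = [] := by
    rw [List.filter_eq_nil_iff]
    simp
  rw [h1, h2]
  simp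

theorem fa_inp (n m : ℕ) : fa (inp n m) = m := by
  unfold fa inp
  rw [List.filter_append, List.length_append]
  have h1 : ((List.range n).map (fun _ => true)).filter (fun b => !b) = [] := by
    rw [List.filter_eq_nil_iff]
    simp
  have h2 : ((List.range m).map (fun _ => false)).filter (fun b => !b) =
      (List.range m).map (fun _ => false) := by
    rw [List.filter_eq_self]
    simp
  rw [h1, h2]
  simp

theorem uTr : UPoly tr := UPoly.length (Poly.filter (p := fun _ b => b) Poly.id (Poly.snd Poly.id))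

theorem uFa : UPoly fa :=
  UPoly.length (Poly.filter (p := fun _ b => !b) Poly.id (Poly.not (Poly.snd Poly.id)))

theorem comp_inp {β : Type} [Primcodable β] {f g : β → ℕ} (hf : Computable f)
    (hg : Computable g) : Computable (fun x => inp (f x) (g x)) := by
  have h1 : ∀ b : Bool, Computable (fun n : ℕ => (List.range n).map (fun _ => b)) := fun b =>
    (Primrec.list_map Primrec.list_range (Primrec.const b).to₂).to_comp
  exact Computable.list_append.comp ((h1 true).comp hf) ((h1 false).comp hg)

theorem comp_of_poly {g : List Bool → Bool} (hg : Poly g) : Computable g := by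
  have h1 : Computable (fun x => [g x]) := polyTime_computable (polyTime_of_poly hg)
  exact (Primrec.list_headI.to_comp.comp h1).of_eq fun x => rfl

theorem comp_pow {β : Type} [Primcodable β] {f g : β → ℕ} (hf : Computable f)
    (hg : Computable g) : Computable (fun x => f x ^ g x) := by
  have h1 : Primrec₂ (fun m n : ℕ => m ^ n) := Primrec₂.unpaired'.1 Nat.Primrec.pow
  exact h1.to_comp.comp hf hg

theorem comp_add {β : Type} [Primcodable β] {f g : β → ℕ} (hf : Computable f)
    (hg : Computable g) : Computable (fun x => f x + g x) :=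
  Primrec.nat_add.to_comp.comp hf hg

theorem HH_computable {G : ℕ → ℕ}
    (hl : Poly (fun p : List Unit × List Unit => decide (ell G p.1.length ≤ p.2.length)))
    {D : ℕ → Code × ℕ} (hD1 : Poly (fun u : List Unit => (D u.length).1))
    (hD2 : UPoly (fun u : List Unit => (D u.length).2)) (hD3 : ∀ n, (D n).2 ≤ n) :
    ComputablePred (HH D (ell G)) := by
  have h1 : Poly (fun x : List Bool => HB D (ell G) (tr x) (List.replicate (fa x) ())) :=
    poly_HB hl (ell_strictMono G) hD1 hD2 uTr uFa
  have h2 : Computable (fun n : ℕ => inp n (2 ^ ((n + 2) ^ n + n))) :=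
    comp_inp Computable.id (comp_pow (Computable.const 2) (comp_add (comp_pow
      (comp_add Computable.id (Computable.const 2)) Computable.id) Computable.id))
  have h3 := (comp_of_poly h1).comp h2
  have h4 : ∀ n, HB D (ell G) (tr (inp n (2 ^ ((n + 2) ^ n + n))))
      (List.replicate (fa (inp n (2 ^ ((n + 2) ^ n + n)))) ()) = true ↔ HH D (ell G) n := by
    intro n
    rw [tr_inp, fa_inp]
    exact HB_iff hD3 (by rw [List.length_replicate])
  classical
  refine ⟨Classical.decPred _, h3.of_eq fun n => ?_⟩
  rw [Bool.eq_iff_iff, h4 n, decide_eq_true_eq]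

theorem kap_computable {l : ℕ → ℕ}
    (hl : Poly (fun p : List Unit × List Unit => decide (l p.1.length ≤ p.2.length)))
    (hm : StrictMono l) {D : ℕ → Code × ℕ}
    (hD2 : UPoly (fun u : List Unit => (D u.length).2)) (hD3 : ∀ n, (D n).2 ≤ n) :
    Computable (fun n => (D (blk l n)).2) := by
  have hb : UPoly (fun x : List Bool => blk l (tr x)) := uBlk hl hm uTr
  have hk : UPoly (fun x : List Bool => (D (blk l (tr x))).2) := by
    refine (UPoly.comp hD2 (show Poly (fun x : List Bool =>
      List.replicate (blk l (tr x)) ()) from hb)).congr fun x => by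
        beta_reduce
        rw [List.length_replicate]
  have h1 : Poly (fun x : List Bool => decide (fa x < (D (blk l (tr x))).2)) :=
    Poly.decide_lt uFa.toPoly hk.toPoly
  have h2 : Computable (fun p : ℕ × ℕ => inp p.1 p.2) := comp_inp Computable.fst Computable.snd
  have h3 : Computable (fun p : ℕ × ℕ => decide (p.2 < (D (blk l p.1)).2)) :=
    ((comp_of_poly h1).comp h2).of_eq fun p => by
      beta_reduce
      rw [tr_inp, fa_inp]
  have h4 : Computable (fun n : ℕ => Nat.rec (motive := fun _ => ℕ) 0
      (fun j s => bif decide (j < (D (blk l n)).2) then s + 1 else s) n) := by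
    refine Computable.nat_rec (f := fun n : ℕ => n) (g := fun _ => 0)
      (h := fun n p => bif decide (p.1 < (D (blk l n)).2) then p.2 + 1 else p.2)
      Computable.id (Computable.const 0) ?_
    have h5 : Computable (fun q : ℕ × ℕ × ℕ => decide (q.2.1 < (D (blk l q.1)).2)) :=
      h3.comp (Computable.pair Computable.fst (Computable.fst.comp Computable.snd))
    have h6 : Computable (fun q : ℕ × ℕ × ℕ => q.2.2) := Computable.snd.comp Computable.snd
    exact Computable.cond h5 (comp_add h6 (Computable.const 1)) h6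
  refine h4.of_eq fun n => ?_
  have h7 : ∀ k m : ℕ, Nat.rec (motive := fun _ => ℕ) 0
      (fun j s => bif decide (j < k) then s + 1 else s) m = min k m := by
    intro k m
    induction m with
    | zero => simp
    | succ m ih =>
      show (bif decide (m < k) then _ + 1 else _) = _
      rw [ih]
      by_cases h : m < k
      · rw [decide_eq_true h, cond_true]; omega
      · rw [decide_eq_false h, cond_false]; omega
  rw [h7, min_eq_left ((hD3 _).trans (blk_le _ _))]

end DiagX

theorem exists_diag {G : ℕ → ℕ} (hG : Hon G) {D : ℕ → Code × ℕ}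
    (hD1 : Poly (fun u : List Unit => (D u.length).1))
    (hD2 : UPoly (fun u : List Unit => (D u.length).2)) (hD3 : ∀ n, (D n).2 ≤ n) :
    ∃ H : ℕ → Prop, Diag D (ell G) H ∧ ComputablePred H ∧
      Computable (fun n => (D (blk (ell G) n)).2) ∧
      ∃ (R : List Bool × List Bool → Bool) (p : Polynomial ℕ), Poly R ∧
        (∀ w c, R (w, c) = true → w = List.replicate w.length true ∧ H w.length) ∧
        ∀ n, H n → ∃ c : List Bool, c.length ≤ p.eval (n ^ (D (blk (ell G) n)).2 + n) ∧
          R (List.replicate n true, c) = true := by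
  have hl := (hon_ell hG).poly
  have hm := DiagX.ell_strictMono G
  exact ⟨DiagX.HH D (ell G), DiagX.HH_diag hm (DiagX.ell_even G),
    DiagX.HH_computable hl hD1 hD2 hD3, DiagX.kap_computable hl hm hD2 hD3,
    DiagX.RR D (ell G), _, DiagX.poly_RR hl hm hD1 hD2, fun w c h => DiagX.RR_sound hD3 h,
    fun n h => DiagX.RR_complete hD3 h⟩

end Pool.Agent.H639R2.NTP
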