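import Pool.Agent.H639R2.NTP.Basic
import Pool.Agent.H639R2.NTP.Cap
import Pool.Agent.H639R2.NTP.Comp
import Pool.Agent.H671R2.PolyAuto

/-!
# Computability of polynomial-time tests with computable unary arguments
-/

namespace Pool.Agent.H639R2.NTP

open Pool.Agent.NPC Pool.Agent.H660R2.NX Turing

theorem computable_of_poly {F : List Bool → Bool} (hF : Poly F) : Computable F := by
  have h := polyTime_computable (polyTime_of_poly hF)
  have h1 : Computable (fun x => ([F x] : List Bool).head?) := Primrec.list_head?.to_comp.comp h
  have h2 : Computable (fun x => (([F x] : List Bool).head?).getD false) :=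
    Computable.option_getD h1 (Computable.const false)
  exact h2.of_eq fun x => rfl

variable {α : Type} [Primcodable α]

theorem computable_replicate {n : α → ℕ} (hn : Computable n) :
    Computable (fun a => List.replicate (n a) true) := by
  have h : Primrec (fun n : ℕ => (List.range n).map (fun _ => true)) :=
    Primrec.list_map Primrec.list_range (Primrec.const true).to₂
  exact (h.to_comp.comp hn).of_eq fun a => by simp

theorem pairBits_replicate (n : ℕ) (w : List Bool) :
    pairBits (List.replicate n true) w = List.replicate (2 * n) true ++ false :: w := by
  unfold pairBits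
  congr 1
  induction n with
  | zero => rfl
  | succ n ih =>
    rw [List.replicate_succ, List.flatMap_cons, ih, show 2 * (n + 1) = 2 * n + 1 + 1 by ring,
      List.replicate_succ, List.replicate_succ]
    rfl

theorem computable_pad {n m : α → ℕ} (hn : Computable n) (hm : Computable m) :
    Computable (fun a => pairBits (List.replicate (n a) true) (List.replicate (m a) true)) := by
  have h1 : Computable (fun a => List.replicate (2 * n a) true ++
      false :: List.replicate (m a) true) :=
    Computable.list_append.comp (computable_replicate (Primrec.nat_mul.to_comp.comp
      (Computable.const 2) hn)) (Computable.list_cons.comp (Computable.const false)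
      (computable_replicate hm))
  exact h1.of_eq fun a => (pairBits_replicate _ _).symm

/-- A polynomial-time test of two unary numbers, applied to computable functions. -/
theorem computable_test {B : ℕ → ℕ → Bool}
    (hB : Poly (fun p : List Unit × List Unit => B p.1.length p.2.length)) {n m : α → ℕ}
    (hn : Computable n) (hm : Computable m) : Computable (fun a => B (n a) (m a)) := by
  have h1 : Poly (fun x : List Bool => B (unpair x).1.length (unpair x).2.length) := by
    have hu := poly_unpair
    refine (hB.comp (f := fun x : List Bool => ((unpair x).1.map (fun _ => ()),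
      (unpair x).2.map (fun _ => ()))) ?_).congr fun x => by simp
    exact NPC.Poly.pair (NPC.Poly.map (F := fun _ _ => ()) (NPC.Poly.fst hu) (NPC.Poly.const ()))
      (NPC.Poly.map (F := fun _ _ => ()) (NPC.Poly.snd hu) (NPC.Poly.const ()))
  refine ((computable_of_poly h1).comp (computable_pad hn hm)).of_eq fun a => ?_
  rw [unpair_pairBits]
  simp

theorem primrec_pow : Primrec₂ (fun a b : ℕ => a ^ b) := by
  refine (Primrec.nat_rec' (f := fun p : ℕ × ℕ => p.2) (g := fun _ => 1)
    (h := fun p q => q.2 * p.1) Primrec.snd (Primrec.const 1) ?_).of_eq fun p => ?_
  · exact Primrec.nat_mul.comp (Primrec.snd.comp Primrec.snd) (Primrec.fst.comp Primrec.fst)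
  · obtain ⟨a, b⟩ := p
    show Nat.rec 1 (fun _ r => r * a) b = a ^ b
    induction b with
    | zero => rfl
    | succ n ih =>
      rw [pow_succ, ← ih]

end Pool.Agent.H639R2.NTP
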