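import Pool.Agent.H639R2.NTP.Basic
import Pool.Agent.H639R2.NTP.Cap
import Pool.Agent.H639R2.NTP.Pad
import Pool.Agent.H639R2.NTP.Ell
import Pool.Agent.H639R2.NTP.ComplTow

/-!
# PB: non-closure for fast growing increasing bounds
-/

namespace Pool.Agent.H639R2.NTP

open Pool.Agent.NPC Pool.Agent.H660R2.NX Turing

theorem exists_pow_bound (p : Polynomial ℕ) : ∃ k, ∀ x, p.eval x ≤ x ^ k + k := by
  induction p using Polynomial.induction_on' with
  | add p q hp hq =>
    obtain ⟨a, ha⟩ := hp
    obtain ⟨b, hb⟩ := hq
    refine ⟨a + b + 2, fun x => ?_⟩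
    rw [Polynomial.eval_add]
    have h1 := ha x
    have h2 := hb x
    rcases Nat.lt_or_ge x 2 with hx | hx
    · have h3 : x ^ a ≤ 1 := pow_le_one₀ (Nat.zero_le _) (by omega)
      have h4 : x ^ b ≤ 1 := pow_le_one₀ (Nat.zero_le _) (by omega)
      omega
    · have h3 : x ^ a ≤ x ^ (a + b) := Nat.pow_le_pow_right (by omega) (by omega)
      have h4 : x ^ b ≤ x ^ (a + b) := Nat.pow_le_pow_right (by omega) (by omega)
      have h5 : x ^ (a + b) * 2 ≤ x ^ (a + b) * x := Nat.mul_le_mul_left _ hx
      have h6 : x ^ (a + b) * x ≤ x ^ (a + b + 2) := by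
        rw [← pow_succ]
        exact Nat.pow_le_pow_right (by omega) (by omega)
      omega
  | monomial j c =>
    refine ⟨j + c, fun x => ?_⟩
    rw [Polynomial.eval_monomial]
    rcases Nat.lt_or_ge x 2 with hx | hx
    · have h3 : x ^ j ≤ 1 := pow_le_one₀ (Nat.zero_le _) (by omega)
      have h4 : c * x ^ j ≤ c * 1 := Nat.mul_le_mul_left _ h3
      omega
    · have h3 : c ≤ x ^ c := (Nat.lt_two_pow_self).le.trans (Nat.pow_le_pow_left hx c)
      have h4 : c * x ^ j ≤ x ^ c * x ^ j := Nat.mul_le_mul_right _ h3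
      have h5 : x ^ (j + c) = x ^ c * x ^ j := by rw [pow_add, mul_comm]
      omega

theorem computable_of_test {f : ℕ → ℕ}
    (hf : Poly (fun p : List Unit × List Unit => decide (f p.1.length ≤ p.2.length))) :
    Computable f := by
  have h1 : Computable (fun p : ℕ × ℕ => decide (f p.1 ≤ p.2)) :=
    computable_test (B := fun n m => decide (f n ≤ m)) hf Computable.fst Computable.snd
  have h2 : Partrec (fun n => Nat.rfind (fun m => Part.some (decide (f n ≤ m)))) :=
    Partrec.rfind (p := fun n m => Part.some (decide (f n ≤ m))) h1.partrec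
  refine h2.of_eq fun n => ?_
  show Nat.rfind _ = Part.some (f n)
  rw [Part.eq_some_iff, Nat.mem_rfind]
  refine ⟨by simp, fun {m} hm => by simpa using hm⟩

theorem computable_uPoly {f : ℕ → ℕ} (hf : UPoly (fun u : List Unit => f u.length)) :
    Computable f := by
  refine computable_of_test (NPC.Poly.decide_le ?_ ?_)
  · exact (hf.comp (f := fun p : List Unit × List Unit => p.1)
      (NPC.Poly.fst NPC.Poly.id)).toPoly
  · exact NPC.Poly.length (NPC.Poly.snd NPC.Poly.id)

namespace PB

section

variable (G : ℕ → ℕ) (D : ℕ → Code × ℕ)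

/-- The bound for the certificates of `D n`. -/
def Qb (n : ℕ) : ℕ := ell G n ^ (D n).2 + (D n).2

/-- The code `D n` accepts the word `true^n` with a certificate of length at most `Qb n`. -/
def On (n : ℕ) : Prop :=
  ∃ c : List Bool, c.length ≤ Qb G D n ∧ acc (D n).1 (List.replicate n true) c = true

/-- The large values. -/
def T (n : ℕ) : ℕ := 2 ^ (Qb G D n + 1) + ell G n

open Classical in
/-- The sum of the large values. -/
noncomputable def sm (n : ℕ) : ℕ := ∑ j ∈ Finset.range n, if On G D j then T G D j else 0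

/-- The time bound. -/
noncomputable def tb (n : ℕ) : ℕ := G n + n + sm G D (n + 1)

end

variable {G : ℕ → ℕ} {D : ℕ → Code × ℕ}

theorem three_mul (S : ℕ) : 3 * S + 1 ≤ 2 ^ (S + 1) := by
  induction S with
  | zero => norm_num
  | succ S ih =>
    rw [pow_succ]
    rcases Nat.eq_zero_or_pos S with h | h
    · subst h; norm_num
    · omega

theorem pow_bound (S k n : ℕ) (hS : 1 ≤ S) (hk : k ≤ n) : S ^ k + k + 1 ≤ (S + 1) ^ (n + 1) := by
  have h1 : 1 + k ≤ (S + 1) ^ k := by
    have h2 : k < 2 ^ k := Nat.lt_two_pow_self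
    have h3 : 2 ^ k ≤ (S + 1) ^ k := Nat.pow_le_pow_left (by omega) k
    omega
  have h2 : S ^ k ≤ (S + 1) ^ k := Nat.pow_le_pow_left (by omega) k
  have h3 : (S + 1) ^ (k + 1) ≤ (S + 1) ^ (n + 1) := Nat.pow_le_pow_right (by omega) (by omega)
  have h4 : (S + 1) ^ k * 2 ≤ (S + 1) ^ k * (S + 1) := Nat.mul_le_mul_left _ (by omega)
  rw [pow_succ] at h3
  omega

theorem sm_le (hG : Hon G) (hell : Hon (ell G)) (hD3 : ∀ n, (D n).2 ≤ n) :
    ∀ n, sm G D n + G n + n ≤ ell G n
  | 0 => by
    simp [sm, ell]
    omega
  | n + 1 => by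
    have ih := sm_le hG hell hD3 n
    have h1 : sm G D (n + 1) ≤ sm G D n + T G D n := by
      unfold sm
      rw [Finset.sum_range_succ]
      split_ifs <;> omega
    have hS := hell.le n
    have hS1 : 1 ≤ ell G n := by
      cases n with
      | zero => show 1 ≤ 2 * (G 0 + 1); omega
      | succ n => omega
    have h2 := pow_bound (ell G n) (D n).2 n hS1 (hD3 n)
    have h3 : 2 ^ (ell G n ^ (D n).2 + (D n).2 + 1) ≤ 2 ^ (ell G n + 1) ^ (n + 1) :=
      Nat.pow_le_pow_right (by norm_num) h2
    have h4 := three_mul (ell G n)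
    have h5 : 2 ^ (ell G n + 1) ≤ 2 ^ (ell G n + 1) ^ (n + 1) :=
      Nat.pow_le_pow_right (by norm_num) (Nat.le_self_pow (by omega) _)
    have h6 : T G D n = 2 ^ (ell G n ^ (D n).2 + (D n).2 + 1) + ell G n := rfl
    show sm G D (n + 1) + G (n + 1) + (n + 1) ≤ 2 * (G (n + 1) + 2 ^ (ell G n + 1) ^ (n + 1))
    omega

theorem tb_off (hG : Hon G) (hell : Hon (ell G)) (hD3 : ∀ n, (D n).2 ≤ n) {n : ℕ}
    (h : ¬ On G D n) : tb G D n ≤ ell G n := by
  have h1 := sm_le hG hell hD3 n
  have h2 : sm G D (n + 1) = sm G D n := by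
    unfold sm
    rw [Finset.sum_range_succ, if_neg h, add_zero]
  unfold tb
  omega

theorem tb_on {n : ℕ} (h : On G D n) : T G D n ≤ tb G D n := by
  have h2 : sm G D (n + 1) = sm G D n + T G D n := by
    unfold sm
    rw [Finset.sum_range_succ, if_pos h]
  unfold tb
  omega

theorem strictMono_tb (hG : Hon G) : StrictMono (tb G D) := by
  refine strictMono_nat_of_lt_succ fun n => ?_
  have h1 := hG.mono (Nat.le_succ n)
  have h2 : sm G D (n + 1) ≤ sm G D (n + 1 + 1) := by
    unfold sm
    rw [Finset.sum_range_succ _ (n + 1)]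
    omega
  unfold tb
  have h3 : G n ≤ G (n + 1) := h1
  omega

/-- The brute force test with a cap. -/
def brute (G : ℕ → ℕ) (D : ℕ → Code × ℕ) (n m : ℕ) : Bool :=
  (allB (min (min (ell G n) m ^ (D n).2) m + (D n).2) (List.replicate m ())).any
    (fun c => acc (D n).1 (List.replicate n true) c)

theorem on_of_brute {n m : ℕ} (h : brute G D n m = true) : On G D n := by
  unfold brute at h
  rw [List.any_eq_true] at h
  obtain ⟨c, hc, ha⟩ := h
  have h1 := (grow_inv (List.replicate m ()) _).2 c hc
  refine ⟨c, h1.trans ?_, ha⟩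
  have h2 : min (ell G n) m ^ (D n).2 ≤ ell G n ^ (D n).2 :=
    Nat.pow_le_pow_left (min_le_left _ _) _
  have h3 := min_le_left (min (ell G n) m ^ (D n).2) m
  unfold Qb
  omega

theorem brute_of_on {n m : ℕ} (hm : T G D n ≤ m) (h : On G D n) : brute G D n m = true := by
  obtain ⟨c, hc, ha⟩ := h
  have h1 : Qb G D n < 2 ^ (Qb G D n + 1) :=
    lt_trans (Nat.lt_succ_self _) Nat.lt_two_pow_self
  have h2 : T G D n = 2 ^ (Qb G D n + 1) + ell G n := rfl
  have h3 : 2 ^ (Qb G D n + 1) = 2 ^ Qb G D n * 2 := pow_succ _ _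
  have h4 : ell G n ^ (D n).2 ≤ Qb G D n := Nat.le_add_right _ _
  have h5 : min (min (ell G n) m ^ (D n).2) m = ell G n ^ (D n).2 := by
    rw [min_eq_left (show ell G n ≤ m by omega), min_eq_left (by omega)]
  unfold brute
  rw [h5, List.any_eq_true]
  refine ⟨c, ?_, ha⟩
  have h6 : 2 ^ (ell G n ^ (D n).2 + (D n).2) ≤ (List.replicate m ()).length := by
    rw [List.length_replicate]
    change 2 ^ Qb G D n ≤ m
    omega
  rw [allB_eq h6]
  exact mem_allStr.2 hc

theorem poly_brute (hell : Hon (ell G)) (hD1 : Poly (fun u : List Unit => (D u.length).1))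
    (hD2 : UPoly (fun u : List Unit => (D u.length).2)) :
    Poly (fun p : List Unit × List Unit => brute G D p.1.length p.2.length) := by
  have hn : UPoly (fun p : List Unit × List Unit => p.1.length) :=
    UPoly.length (NPC.Poly.fst NPC.Poly.id)
  have hm : UPoly (fun p : List Unit × List Unit => p.2.length) :=
    UPoly.length (NPC.Poly.snd NPC.Poly.id)
  have hK : UPoly (fun p : List Unit × List Unit => (D p.1.length).2) :=
    hD2.comp (NPC.Poly.fst NPC.Poly.id)
  have hS := uPoly_capHon hell hn hm
  have hP := uPoly_capPow hS.toPoly hK hm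
  have hQ := hP.add hK
  have hall := poly_allB hQ (pad := fun p : List Unit × List Unit =>
    List.replicate p.2.length ()) hm
  unfold brute
  refine NPC.Poly.any (p := fun (z : List Unit × List Unit) c =>
    acc (D z.1.length).1 (List.replicate z.1.length true) c) hall ?_
  refine poly_acc (e := fun q : (List Unit × List Unit) × List Bool => (D q.1.1.length).1)
    (w := fun q : (List Unit × List Unit) × List Bool => List.replicate q.1.1.length true)
    (c := fun q => q.2) ?_ ?_ (NPC.Poly.snd NPC.Poly.id)
  · exact hD1.comp (NPC.Poly.fst (NPC.Poly.fst NPC.Poly.id))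
  · refine (NPC.Poly.map (F := fun (_ : (List Unit × List Unit) × List Bool) (_ : Unit) => true)
      (l := fun q : (List Unit × List Unit) × List Bool => q.1.1)
      (NPC.Poly.fst (NPC.Poly.fst NPC.Poly.id)) (NPC.Poly.const true)).congr fun q => ?_
    simp

theorem computable_T (hell : Hon (ell G)) (hD2 : UPoly (fun u : List Unit => (D u.length).2)) :
    Computable (T G D) := by
  have hK : Computable (fun n => (D n).2) := computable_uPoly hD2
  have hp : Computable₂ (fun a b : ℕ => a ^ b) := primrec_pow.to_comp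
  have h1 : Computable (fun n => ell G n ^ (D n).2) := hp.comp hell.comp hK
  have h2 : Computable (fun n => ell G n ^ (D n).2 + (D n).2) :=
    Primrec.nat_add.to_comp.comp h1 hK
  have h3 : Computable (fun n => 2 ^ (ell G n ^ (D n).2 + (D n).2 + 1)) :=
    hp.comp (Computable.const 2) (Computable.succ.comp h2)
  exact Primrec.nat_add.to_comp.comp h3 hell.comp

theorem computable_tb (hG : Hon G) (hell : Hon (ell G))
    (hD1 : Poly (fun u : List Unit => (D u.length).1))
    (hD2 : UPoly (fun u : List Unit => (D u.length).2)) : Computable (tb G D) := by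
  have hT := computable_T hell hD2
  have hb : Computable (fun n => brute G D n (T G D n)) :=
    computable_test (poly_brute hell hD1 hD2) Computable.id hT
  have hc : Computable (fun n => cond (brute G D n (T G D n)) (T G D n) 0) :=
    Computable.cond hb hT (Computable.const 0)
  have hs : Computable (fun n : ℕ => (Nat.rec 0 (fun j r =>
      r + cond (brute G D j (T G D j)) (T G D j) 0) n : ℕ)) := by
    refine Computable.nat_rec (f := fun n : ℕ => n) (g := fun _ => (0 : ℕ))
      (h := fun (_ : ℕ) (p : ℕ × ℕ) => p.2 + cond (brute G D p.1 (T G D p.1)) (T G D p.1) 0)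
      Computable.id (Computable.const 0) ?_
    exact Primrec.nat_add.to_comp.comp (Computable.snd.comp Computable.snd)
      (hc.comp (Computable.fst.comp Computable.snd))
  have hs' : Computable (sm G D) := by
    refine hs.of_eq fun n => ?_
    induction n with
    | zero => simp [sm]
    | succ n ih =>
      have h1 : sm G D (n + 1) = sm G D n + cond (brute G D n (T G D n)) (T G D n) 0 := by
        unfold sm
        rw [Finset.sum_range_succ]
        by_cases h : On G D n
        · rw [if_pos h, brute_of_on le_rfl h]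
          rfl
        · rw [if_neg h]
          cases hb' : brute G D n (T G D n) with
          | false => rfl
          | true => exact absurd (on_of_brute hb') h
      rw [h1, ← ih]
  exact Primrec.nat_add.to_comp.comp (Primrec.nat_add.to_comp.comp hG.comp Computable.id)
    (hs'.comp Computable.succ)

end PB

open PB in
theorem partB {G : ℕ → ℕ} (hG : Hon G) : ∃ t : ℕ → ℕ, Computable t ∧ StrictMono t ∧
    (∀ n, G n ≤ t n) ∧ ∃ L ∈ NT t, Lᶜ ∉ NT t := by
  have hell := hon_ell hG
  obtain ⟨D, hD1, hD2, hDs, hD3⟩ := exists_enum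
  refine ⟨tb G D, computable_tb hG hell hD1 hD2, strictMono_tb hG, fun n => ?_,
    {w | w = List.replicate w.length true ∧ On G D w.length}, ?_, ?_⟩
  · unfold tb
    omega
  · refine mem_NT_of_poly (R := fun z => decide (z.1 = List.replicate z.1.length true) &&
      brute G D z.1.length z.2.length) ?_ Polynomial.X ?_ ?_
    · refine NPC.Poly.and (NPC.Poly.dec_eq (NPC.Poly.fst NPC.Poly.id) ?_) ?_
      · refine (NPC.Poly.map (F := fun (_ : List Bool × List Bool) (_ : Bool) => true)
          (l := fun q : List Bool × List Bool => q.1)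
          (NPC.Poly.fst NPC.Poly.id) (NPC.Poly.const true)).congr fun q => ?_
        simp
      · refine ((poly_brute hell hD1 hD2).comp (f := fun z : List Bool × List Bool =>
          (z.1.map (fun _ => ()), z.2.map (fun _ => ()))) ?_).congr fun z => by simp
        exact NPC.Poly.pair
          (NPC.Poly.map (F := fun _ _ => ()) (NPC.Poly.fst NPC.Poly.id) (NPC.Poly.const ()))
          (NPC.Poly.map (F := fun _ _ => ()) (NPC.Poly.snd NPC.Poly.id) (NPC.Poly.const ()))
    · intro w c h
      simp only [Bool.and_eq_true, decide_eq_true_eq] at h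
      exact ⟨h.1, on_of_brute h.2⟩
    · rintro w ⟨hw, hon⟩
      refine ⟨List.replicate (T G D w.length) true, ?_, ?_⟩
      · rw [List.length_replicate, Polynomial.eval_X]
        exact tb_on hon
      · simp only [Bool.and_eq_true, decide_eq_true_eq, List.length_replicate]
        exact ⟨hw, brute_of_on le_rfl hon⟩
  · intro hL
    obtain ⟨e, p, hs, hc⟩ := exists_code_of_mem_NT (t := tb G D)
      (fun n => (hG.le n).trans (by unfold tb; omega)) hL
    obtain ⟨k, hk⟩ := exists_pow_bound p
    obtain ⟨n, hn⟩ := hDs e k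
    by_cases hon : On G D n
    · obtain ⟨c, hc1, hc2⟩ := hon
      have h1 := hs (List.replicate n true) c (by rw [hn] at hc2; exact hc2)
      apply h1
      simp only [Set.mem_setOf_eq, List.length_replicate, true_and]
      exact ⟨c, hc1, hc2⟩
    · have h1 : List.replicate n true ∈
          ({w | w = List.replicate w.length true ∧ On G D w.length}ᶜ : Set (List Bool)) := by
        simp only [Set.mem_compl_iff, Set.mem_setOf_eq, List.length_replicate, true_and]
        exact hon
      obtain ⟨c, hc1, hc2⟩ := hc _ h1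
      rw [List.length_replicate] at hc1
      apply hon
      refine ⟨c, hc1.trans ((eval_mono p (tb_off hG hell hD3 hon)).trans ((hk _).trans ?_)), ?_⟩
      · unfold Qb
        rw [hn]
      · rw [hn]
        exact hc2

end Pool.Agent.H639R2.NTP
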