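import Pool.Agent.H639R2.NTP.Basic
import Pool.Agent.H639R2.NTP.Comp
import Pool.Agent.H639R2.NTP.Tow

/-!
# C5: the violation test is computable (helper267)
-/

namespace Pool.Agent.H639R2.NTP

open Pool.Agent.NPC Pool.Agent.H660R2.NX Turing

attribute [local irreducible] unpair

namespace C5

theorem primrec_pairBits : Primrec₂ pairBits := by
  unfold pairBits
  have h1 : Primrec (fun p : List Bool × List Bool => p.1.flatMap (fun b => [true, b])) :=
    Primrec.list_flatMap Primrec.fst ((Primrec.list_cons.comp (Primrec.const true)
      (Primrec.list_cons.comp Primrec.snd (Primrec.const []))).to₂)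
  exact Primrec.list_append.comp h1
    (Primrec.list_cons.comp (Primrec.const false) Primrec.snd)

theorem primrec_replicate : Primrec (fun n : ℕ => List.replicate n true) := by
  have h : Primrec (fun n : ℕ => (List.range n).map (fun _ => true)) :=
    Primrec.list_map Primrec.list_range (Primrec.const true).to₂
  exact h.of_eq (fun n => by simp)

theorem computable_any {α β : Type} [Primcodable α] [Primcodable β] {l : α → List β}
    {P : α → β → Bool} (hl : Computable l) (hP : Computable₂ P) :
    Computable (fun a => (l a).any (P a)) := by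
  have h : Computable (fun a : α => Nat.rec (motive := fun _ => Bool) false
      (fun m b => b || (((l a)[m]?).map (P a)).getD false) (l a).length) := by
    refine Computable.nat_rec (Computable.list_length.comp hl) (Computable.const false)
      (h := fun a (p : ℕ × Bool) => p.2 || (((l a)[p.1]?).map (P a)).getD false) ?_
    have h1 : Computable (fun q : α × (ℕ × Bool) => (l q.1)[q.2.1]?) :=
      Computable.list_getElem?.comp (hl.comp Computable.fst)
        (Computable.fst.comp Computable.snd)
    have h2 : Computable (fun q : α × (ℕ × Bool) => ((l q.1)[q.2.1]?).map (P q.1)) :=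
      Computable.option_map h1 (hP.comp (Computable.fst.comp Computable.fst) Computable.snd).to₂
    have h3 : Computable (fun q : α × (ℕ × Bool) => (((l q.1)[q.2.1]?).map (P q.1)).getD false) :=
      Computable.option_getD h2 (Computable.const false)
    exact (Primrec.or.to_comp.comp (Computable.snd.comp Computable.snd) h3).to₂
  refine h.of_eq fun a => ?_
  have key : ∀ n, Nat.rec (motive := fun _ => Bool) false
      (fun m b => b || (((l a)[m]?).map (P a)).getD false) n = ((l a).take n).any (P a) := by
    intro n
    induction n with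
    | zero => simp
    | succ n ih =>
      simp only [ih, List.take_add_one, List.any_append]
      congr 1
      cases (l a)[n]? <;> simp
  rw [key, List.take_length]

theorem comp_not {α : Type} [Primcodable α] {f : α → Bool} (h : Computable f) :
    Computable (fun a => !(f a)) := Primrec.not.to_comp.comp h

theorem comp_and {α : Type} [Primcodable α] {f g : α → Bool} (h : Computable f)
    (h' : Computable g) : Computable (fun a => f a && g a) := Primrec.and.to_comp.comp h h'

/-- all words of length at most `n` -/
def allL : ℕ → List (List Bool)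
  | 0 => [[]]
  | n + 1 => [] :: (allL n).flatMap (fun c => [true :: c, false :: c])

theorem mem_allL {c : List Bool} : ∀ {n : ℕ}, c ∈ allL n ↔ c.length ≤ n := by
  intro n
  induction n generalizing c with
  | zero => simp [allL]
  | succ n ih =>
    simp only [allL, List.mem_cons, List.mem_flatMap, List.not_mem_nil, or_false]
    constructor
    · rintro (rfl | ⟨a, ha, rfl | rfl⟩)
      · simp
      · have := ih.1 ha
        simp only [List.length_cons]; omega
      · have := ih.1 ha
        simp only [List.length_cons]; omega
    · intro h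
      cases c with
      | nil => exact Or.inl rfl
      | cons b c =>
        right
        refine ⟨c, ih.2 (by simpa using h), ?_⟩
        cases b <;> simp

theorem primrec_allL : Primrec allL := by
  have h : Primrec (Nat.rec (motive := fun _ => List (List Bool)) [[]] (fun _ ih =>
      [] :: ih.flatMap (fun c => [true :: c, false :: c]))) := by
    refine Primrec.nat_rec₁ _ ?_
    have h1 : Primrec (fun q : (ℕ × List (List Bool)) × List Bool =>
        [true :: q.2, false :: q.2]) :=
      Primrec.list_cons.comp (Primrec.list_cons.comp (Primrec.const true) Primrec.snd)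
        (Primrec.list_cons.comp (Primrec.list_cons.comp (Primrec.const false) Primrec.snd)
          (Primrec.const []))
    have h2 : Primrec (fun q : ℕ × List (List Bool) =>
        q.2.flatMap (fun c => [true :: c, false :: c])) :=
      Primrec.list_flatMap Primrec.snd h1.to₂
    exact (Primrec.list_cons.comp (Primrec.const []) h2).to₂
  refine h.of_eq fun n => ?_
  induction n with
  | zero => rfl
  | succ n ih => simp only [allL, ← ih]

theorem primrec_two_pow : Primrec (fun y : ℕ => 2 ^ y) := by
  have h : Primrec (Nat.rec (motive := fun _ => ℕ) 1 (fun _ v => 2 * v)) :=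
    Primrec.nat_rec₁ _ ((Primrec.nat_mul.comp (Primrec.const 2) Primrec.snd).to₂)
  refine h.of_eq fun n => ?_
  induction n with
  | zero => rfl
  | succ n ih => rw [pow_succ, ← ih]; simp only [mul_comm]

theorem primrec_tow : Primrec₂ tow := by
  have h : Primrec₂ (fun (x k : ℕ) => Nat.rec (motive := fun _ => ℕ) x (fun _ y => 2 ^ y) k) :=
    Primrec.nat_rec Primrec.id ((primrec_two_pow.comp (Primrec.snd.comp Primrec.snd)).to₂)
  have h2 : ∀ k x, Nat.rec (motive := fun _ => ℕ) x (fun _ y => 2 ^ y) k = tow k x := by
    intro k x
    induction k with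
    | zero => rfl
    | succ k ih => simp only [tow, ← ih]
  exact (h.comp Primrec.snd Primrec.fst).of_eq fun p => h2 p.1 p.2

theorem comp_tow {α : Type} [Primcodable α] {f g : α → ℕ} (hf : Computable f)
    (hg : Computable g) : Computable (fun a => tow (f a + 1) (g a)) := by
  have h := primrec_tow.to_comp.comp (Computable.succ.comp hf) hg
  exact h

end C5

attribute [local irreducible] tow C5.allL

/-- C5: the violation test is computable. -/
theorem exists_viol {G : ℕ → ℕ} (hG : Hon G) {D : ℕ → Code × ℕ}
    (hD : Poly (fun u : List Unit => (D u.length).1)) : ∃ viol : ℕ → ℕ → ℕ → Bool,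
      Computable (fun p : ℕ × ℕ × ℕ => viol p.1 p.2.1 p.2.2) ∧
      ∀ i γ n, viol i γ n = true ↔ ∃ w : List Bool, w.length = n ∧
        (∃ c : List Bool, c.length ≤ tow (n + 1) (G n) ∧ acc (D i).1 w c = true) ∧
        ∀ c : List Bool, c.length ≤ tow (γ + 1) (G n) → acc (D i).1 w c = false := by
  -- the universal verifier is computable
  have hacc : Computable (fun p : (ℕ × List Bool) × List Bool => acc (D p.1.1).1 p.1.2 p.2) := by
    have h1 : Poly (fun x : List Bool => (D (unpair x).1.length).1) := by
      have h := hD.comp (f := fun x : List Bool => (unpair x).1.map (fun _ => ())) (by fun_prop)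
      refine h.congr fun x => ?_
      simp
    have h2 : Poly (fun x : List Bool => acc (D (unpair x).1.length).1
        (unpair (unpair x).2).1 (unpair (unpair x).2).2) :=
      poly_acc h1 (by fun_prop) (by fun_prop)
    have h3 := polyTime_computable (polyTime_of_poly h2)
    have h4 : Computable (fun p : (ℕ × List Bool) × List Bool =>
        pairBits (List.replicate p.1.1 true) (pairBits p.1.2 p.2)) := by
      refine Primrec.to_comp ?_
      exact C5.primrec_pairBits.comp (C5.primrec_replicate.comp (Primrec.fst.comp Primrec.fst))
        (C5.primrec_pairBits.comp (Primrec.snd.comp Primrec.fst) Primrec.snd)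
    have h5 := (Primrec.list_headI (α := Bool)).to_comp.comp (h3.comp h4)
    refine h5.of_eq fun p => ?_
    simp only [unpair_pairBits, List.length_replicate, List.headI_cons]
  have hGc : Computable G := hG.comp
  -- `∃ c, c.length ≤ B ∧ acc`
  have hex : Computable (fun q : (ℕ × List Bool) × ℕ =>
      (C5.allL q.2).any (fun c => acc (D q.1.1).1 q.1.2 c)) := by
    refine C5.computable_any (l := fun q : (ℕ × List Bool) × ℕ => C5.allL q.2)
      (P := fun q c => acc (D q.1.1).1 q.1.2 c) (C5.primrec_allL.to_comp.comp Computable.snd) ?_
    exact (hacc.comp ((Computable.fst.comp Computable.fst).pair Computable.snd)).to₂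
  refine ⟨fun i γ n => (C5.allL n).any (fun w => decide (w.length = n) &&
    ((C5.allL (tow (n + 1) (G n))).any (fun c => acc (D i).1 w c) &&
      !((C5.allL (tow (γ + 1) (G n))).any (fun c => acc (D i).1 w c)))), ?_, ?_⟩
  · refine C5.computable_any (l := fun p : ℕ × ℕ × ℕ => C5.allL p.2.2)
      (P := fun p w => decide (w.length = p.2.2) &&
        ((C5.allL (tow (p.2.2 + 1) (G p.2.2))).any (fun c => acc (D p.1).1 w c) &&
          !((C5.allL (tow (p.2.1 + 1) (G p.2.2))).any (fun c => acc (D p.1).1 w c))))
      (C5.primrec_allL.to_comp.comp (Computable.snd.comp Computable.snd)) ?_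
    -- the parts
    have e1 : Computable (fun q : (ℕ × ℕ × ℕ) × List Bool => decide (q.2.length = q.1.2.2)) := by
      have := (Primrec.eq (α := ℕ)).decide.comp (Primrec.list_length.comp Primrec.snd)
        (Primrec.snd.comp (Primrec.snd.comp Primrec.fst)) (α := (ℕ × ℕ × ℕ) × List Bool)
      exact this.to_comp
    have en : Computable (fun q : (ℕ × ℕ × ℕ) × List Bool => q.1.2.2) :=
      Computable.snd.comp (Computable.snd.comp Computable.fst)
    have eγ : Computable (fun q : (ℕ × ℕ × ℕ) × List Bool => q.1.2.1) :=
      Computable.fst.comp (Computable.snd.comp Computable.fst)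
    have ei : Computable (fun q : (ℕ × ℕ × ℕ) × List Bool => (q.1.1, q.2)) :=
      (Computable.fst.comp Computable.fst).pair Computable.snd
    have et2 : Computable (fun q : (ℕ × ℕ × ℕ) × List Bool =>
        tow (q.1.2.2 + 1) (G q.1.2.2)) := C5.comp_tow en (hGc.comp en)
    have et3 : Computable (fun q : (ℕ × ℕ × ℕ) × List Bool =>
        tow (q.1.2.1 + 1) (G q.1.2.2)) := C5.comp_tow eγ (hGc.comp en)
    have e2 : Computable (fun q : (ℕ × ℕ × ℕ) × List Bool =>
        (C5.allL (tow (q.1.2.2 + 1) (G q.1.2.2))).any (fun c => acc (D q.1.1).1 q.2 c)) :=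
      hex.comp (ei.pair et2)
    have e3 : Computable (fun q : (ℕ × ℕ × ℕ) × List Bool =>
        (C5.allL (tow (q.1.2.1 + 1) (G q.1.2.2))).any (fun c => acc (D q.1.1).1 q.2 c)) :=
      hex.comp (ei.pair et3)
    have e4 : Computable (fun q : (ℕ × ℕ × ℕ) × List Bool =>
        !((C5.allL (tow (q.1.2.1 + 1) (G q.1.2.2))).any (fun c => acc (D q.1.1).1 q.2 c))) :=
      C5.comp_not e3
    have e5 : Computable (fun q : (ℕ × ℕ × ℕ) × List Bool =>
        ((C5.allL (tow (q.1.2.2 + 1) (G q.1.2.2))).any (fun c => acc (D q.1.1).1 q.2 c) &&
        !((C5.allL (tow (q.1.2.1 + 1) (G q.1.2.2))).any (fun c => acc (D q.1.1).1 q.2 c)))) :=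
      C5.comp_and e2 e4
    have e6 : Computable (fun q : (ℕ × ℕ × ℕ) × List Bool => decide (q.2.length = q.1.2.2) &&
        ((C5.allL (tow (q.1.2.2 + 1) (G q.1.2.2))).any (fun c => acc (D q.1.1).1 q.2 c) &&
        !((C5.allL (tow (q.1.2.1 + 1) (G q.1.2.2))).any (fun c => acc (D q.1.1).1 q.2 c)))) :=
      C5.comp_and e1 e5
    exact e6
  · intro i γ n
    simp only [List.any_eq_true, Bool.and_eq_true, decide_eq_true_eq, Bool.not_eq_true',
      List.any_eq_false, C5.mem_allL, Bool.not_eq_true]
    constructor
    · rintro ⟨w, -, h1, h2, h3⟩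
      exact ⟨w, h1, h2, h3⟩
    · rintro ⟨w, h1, h2, h3⟩
      exact ⟨w, h1.le, h1, h2, h3⟩

end Pool.Agent.H639R2.NTP
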