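import Pool.Agent.H639R2.NTP.Basic
import Pool.Agent.H639R2.NTP.Pad
import Pool.Agent.H639R2.NTP.ComplTow
import Pool.Agent.H639R2.NTP.Viol

/-!
# PC: closure under complement for suitable fast growing bounds
-/

namespace Pool.Agent.H639R2.NTP

open Pool.Agent.NPC Pool.Agent.H660R2.NX Turing

theorem NT_mono_eventually {t t' : ℕ → ℕ} {N : ℕ} (h : ∀ n, N ≤ n → t n ≤ t' n)
    {L : Set (List Bool)} (hL : L ∈ NT t) : L ∈ NT t' := by
  obtain ⟨V, p, hV, hs, hc⟩ := hL
  refine ⟨V, p + Polynomial.C (∑ n ∈ Finset.range N, p.eval (t n)), hV, hs, fun w hw => ?_⟩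
  obtain ⟨c, h1, h2⟩ := hc w hw
  refine ⟨c, h1.trans ?_, h2⟩
  rw [Polynomial.eval_add, Polynomial.eval_C]
  rcases Nat.lt_or_ge w.length N with hN | hN
  · have h3 : p.eval (t w.length) ≤ ∑ n ∈ Finset.range N, p.eval (t n) :=
      Finset.single_le_sum (f := fun n => p.eval (t n)) (fun _ _ => Nat.zero_le _)
        (Finset.mem_range.2 hN)
    omega
  · have h3 := eval_mono p (h w.length hN)
    omega

theorem exists_eval_le_two_pow (p : Polynomial ℕ) : ∃ N, ∀ x, N ≤ x → p.eval x ≤ 2 ^ x := by
  obtain ⟨C, hC⟩ := C1.eval_le_two_pow (p * Polynomial.X)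
  refine ⟨C + 1, fun x hx => ?_⟩
  have h1 := hC x
  rw [Polynomial.eval_mul, Polynomial.eval_X] at h1
  have h2 : C * 2 ^ x ≤ x * 2 ^ x := Nat.mul_le_mul_right _ (by omega)
  have h3 : p.eval x * x ≤ 2 ^ x * x := h1.trans (h2.trans (le_of_eq (mul_comm _ _)))
  exact Nat.le_of_mul_le_mul_right h3 (by omega)

theorem tow_mono {k l : ℕ} (h : k ≤ l) (x : ℕ) : tow k x ≤ tow l x := by
  induction h with
  | refl => exact le_rfl
  | step _ ih => exact ih.trans (Nat.lt_two_pow_self).le

theorem primrec_tow : Primrec₂ tow := by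
  refine (Primrec.nat_rec' (f := fun p : ℕ × ℕ => p.1) (g := fun p => p.2)
    (h := fun _ q => 2 ^ q.2) Primrec.fst Primrec.snd ?_).of_eq fun p => ?_
  · exact primrec_pow.comp (Primrec.const 2) (Primrec.snd.comp Primrec.snd)
  · obtain ⟨a, b⟩ := p
    show Nat.rec b (fun _ r => 2 ^ r) a = tow a b
    induction a with
    | zero => rfl
    | succ n ih =>
      show 2 ^ _ = tow (n + 1) b
      rw [ih]
      rfl

namespace PC

section

variable (viol : ℕ → ℕ → ℕ → Bool)

/-- The current level of the `i`-th verifier. -/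
def gg (i : ℕ) : ℕ → ℕ
  | 0 => i
  | n + 1 => cond (decide (i ≤ n) && viol i (gg i n) n) (n + 1) (gg i n)

/-- The minimum of `n` and the levels of the violating verifiers with index below `j`. -/
def lv (n : ℕ) : ℕ → ℕ
  | 0 => n
  | j + 1 => cond (viol j (gg viol j n) n) (min (gg viol j n) (lv n j)) (lv n j)

/-- The level of the time bound. -/
def lev (n : ℕ) : ℕ := lv viol n (n + 1)

end

variable {viol : ℕ → ℕ → ℕ → Bool}

theorem gg_le (i : ℕ) : ∀ n, i ≤ gg viol i n
  | 0 => le_rfl
  | n + 1 => by
    have ih := gg_le i n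
    unfold gg
    cases h : (decide (i ≤ n) && viol i (gg viol i n) n) with
    | false => exact ih
    | true =>
      simp only [Bool.and_eq_true, decide_eq_true_eq] at h
      simp only [cond_true]
      omega

theorem le_max_gg (i : ℕ) : ∀ n, gg viol i n ≤ max i n
  | 0 => le_max_left _ _
  | n + 1 => by
    have ih := le_max_gg i n
    unfold gg
    cases h : (decide (i ≤ n) && viol i (gg viol i n) n) with
    | false =>
      simp only [cond_false]
      omega
    | true =>
      simp only [cond_true]
      omega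

theorem gg_mono_succ (i n : ℕ) : gg viol i n ≤ gg viol i (n + 1) := by
  have h1 := le_max_gg (viol := viol) i n
  conv_rhs => unfold gg
  cases h : (decide (i ≤ n) && viol i (gg viol i n) n) with
  | false => exact le_rfl
  | true =>
    simp only [Bool.and_eq_true, decide_eq_true_eq] at h
    simp only [cond_true]
    omega

theorem gg_mono (i : ℕ) : Monotone (gg viol i) := monotone_nat_of_le_succ (gg_mono_succ i)

theorem lv_le (n : ℕ) : ∀ j, lv viol n j ≤ n
  | 0 => le_rfl
  | j + 1 => by
    have ih := lv_le n j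
    unfold lv
    cases viol j (gg viol j n) n with
    | false => exact ih
    | true => exact (min_le_right _ _).trans ih

theorem lv_le_gg (n : ℕ) {i : ℕ} (hi : viol i (gg viol i n) n = true) :
    ∀ j, i < j → lv viol n j ≤ gg viol i n
  | 0 => fun h => absurd h (by omega)
  | j + 1 => fun h => by
    rcases Nat.lt_or_ge i j with h1 | h1
    · have ih := lv_le_gg n hi j h1
      unfold lv
      cases viol j (gg viol j n) n with
      | false => exact ih
      | true => exact (min_le_right _ _).trans ih
    · have h2 : i = j := by omega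
      subst h2
      unfold lv
      rw [hi]
      exact min_le_left _ _

theorem le_lv {n k : ℕ} (hk : k ≤ n) : ∀ j,
    (∀ i, i < j → viol i (gg viol i n) n = true → k ≤ gg viol i n) → k ≤ lv viol n j
  | 0 => fun _ => hk
  | j + 1 => fun h => by
    have ih := le_lv hk j fun i hi => h i (by omega)
    unfold lv
    cases hv : viol j (gg viol j n) n with
    | false => exact ih
    | true => exact le_min (h j (by omega) hv) ih

/-- The level tends to infinity. -/
theorem exists_le_lev (k : ℕ) : ∃ N, ∀ n, N ≤ n → k ≤ lev viol n := by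
  have h1 : ∀ i, ∃ N, ∀ n, N ≤ n → viol i (gg viol i n) n = true → k ≤ gg viol i n := by
    intro i
    by_cases h : ∃ n, max i k ≤ n ∧ viol i (gg viol i n) n = true
    · obtain ⟨n, hn, hv⟩ := h
      refine ⟨n + 1, fun m hm _ => ?_⟩
      refine le_trans ?_ (gg_mono i hm)
      have h2 : gg viol i (n + 1) = n + 1 := by
        have h3 : decide (i ≤ n) = true := decide_eq_true (by omega)
        conv_lhs => unfold gg
        rw [hv, h3]
        rfl
      omega
    · refine ⟨max i k, fun n hn hv => absurd ⟨n, hn, hv⟩ h⟩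
  choose N hN using h1
  refine ⟨k + ∑ i ∈ Finset.range k, N i, fun n hn => ?_⟩
  refine le_lv (by omega) _ fun i _ hv => ?_
  rcases Nat.lt_or_ge i k with hik | hik
  · have h2 : N i ≤ ∑ i ∈ Finset.range k, N i :=
      Finset.single_le_sum (f := N) (fun _ _ => Nat.zero_le _) (Finset.mem_range.2 hik)
    exact hN i n (by omega) hv
  · exact hik.trans (gg_le i n)

theorem lev_le_gg {n i : ℕ} (hi : i ≤ n) (hv : viol i (gg viol i n) n = true) :
    lev viol n ≤ gg viol i n := lv_le_gg n hv _ (by omega)

theorem computable_gg (hv : Computable (fun p : ℕ × ℕ × ℕ => viol p.1 p.2.1 p.2.2)) :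
    Computable (fun p : ℕ × ℕ => gg viol p.1 p.2) := by
  refine (Computable.nat_rec (f := fun p : ℕ × ℕ => p.2) (g := fun p => p.1)
    (h := fun (p : ℕ × ℕ) (q : ℕ × ℕ) => cond (decide (p.1 ≤ q.1) && viol p.1 q.2 q.1) (q.1 + 1) q.2)
    Computable.snd Computable.fst ?_).of_eq fun p => ?_
  · have h1 : Computable (fun z : (ℕ × ℕ) × ℕ × ℕ => decide (z.1.1 ≤ z.2.1)) :=
      (Primrec.nat_le.decide.to_comp).comp (Computable.fst.comp Computable.fst)
        (Computable.fst.comp Computable.snd)
    have h2 : Computable (fun z : (ℕ × ℕ) × ℕ × ℕ => viol z.1.1 z.2.2 z.2.1) :=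
      hv.comp (f := fun p : ℕ × ℕ × ℕ => viol p.1 p.2.1 p.2.2)
        (g := fun z : (ℕ × ℕ) × ℕ × ℕ => (z.1.1, z.2.2, z.2.1))
        ((Computable.fst.comp Computable.fst).pair
          ((Computable.snd.comp Computable.snd).pair (Computable.fst.comp Computable.snd)))
    exact Computable.cond (Primrec.and.to_comp.comp h1 h2)
      (Computable.succ.comp (Computable.fst.comp Computable.snd))
      (Computable.snd.comp Computable.snd)
  · obtain ⟨i, n⟩ := p
    show Nat.rec i _ n = gg viol i n
    induction n with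
    | zero => rfl
    | succ n ih =>
      conv_rhs => unfold gg
      rw [← ih]

theorem computable_lev (hv : Computable (fun p : ℕ × ℕ × ℕ => viol p.1 p.2.1 p.2.2)) :
    Computable (lev viol) := by
  have hg := computable_gg hv
  refine (Computable.nat_rec (f := fun n : ℕ => n + 1) (g := fun n => n)
    (h := fun (n : ℕ) (q : ℕ × ℕ) => cond (viol q.1 (gg viol q.1 n) n)
      (min (gg viol q.1 n) q.2) q.2) Computable.succ Computable.id ?_).of_eq fun n => ?_
  · have h1 : Computable (fun z : ℕ × ℕ × ℕ => gg viol z.2.1 z.1) :=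
      hg.comp (f := fun p : ℕ × ℕ => gg viol p.1 p.2) (g := fun z : ℕ × ℕ × ℕ => (z.2.1, z.1))
        ((Computable.fst.comp Computable.snd).pair Computable.fst)
    have h2 : Computable (fun z : ℕ × ℕ × ℕ => viol z.2.1 (gg viol z.2.1 z.1) z.1) :=
      hv.comp (f := fun p : ℕ × ℕ × ℕ => viol p.1 p.2.1 p.2.2)
        (g := fun z : ℕ × ℕ × ℕ => (z.2.1, gg viol z.2.1 z.1, z.1))
        ((Computable.fst.comp Computable.snd).pair (h1.pair Computable.fst))
    exact Computable.cond h2 (Primrec.nat_min.to_comp.comp h1 (Computable.snd.comp Computable.snd))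
      (Computable.snd.comp Computable.snd)
  · have key : ∀ j, (Nat.rec n (fun j r => cond (viol j (gg viol j n) n)
        (min (gg viol j n) r) r) j : ℕ) = lv viol n j := by
      intro j
      induction j with
      | zero => rfl
      | succ j ih =>
        conv_rhs => unfold lv
        rw [← ih]
    exact key (n + 1)

end PC

open PC in
/-- The union theorem for the levels of iterated exponentials: if the level `lam` of the bound is
below the level function `lev` and tends to infinity, the class is closed under complement. -/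
theorem closed_of_lev {G : ℕ → ℕ} (hG : Hon G) {D : ℕ → Code × ℕ}
    (hDs : ∀ e k, ∃ n, D n = (e, k)) {viol : ℕ → ℕ → ℕ → Bool}
    (hv : ∀ i γ n, viol i γ n = true ↔ ∃ w : List Bool, w.length = n ∧
        (∃ c : List Bool, c.length ≤ tow (n + 1) (G n) ∧ acc (D i).1 w c = true) ∧
        ∀ c : List Bool, c.length ≤ tow (γ + 1) (G n) → acc (D i).1 w c = false)
    {lam : ℕ → ℕ} (hl1 : ∀ n, lam n ≤ lev viol n) (hl2 : ∀ k, ∃ N, ∀ n, N ≤ n → k ≤ lam n) :
    ∀ L ∈ NT (fun n => tow (lam n) (G n)), Lᶜ ∈ NT (fun n => tow (lam n) (G n)) := by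
  set t : ℕ → ℕ := fun n => tow (lam n) (G n) with ht
  have hGt : ∀ n, G n ≤ t n := fun n => C1.le_tow _ _
  have hup : ∀ k L, L ∈ NT (fun n => tow k (G n)) → L ∈ NT t := by
    intro k L hL
    obtain ⟨N, hN⟩ := hl2 k
    exact NT_mono_eventually (N := N) (fun n hn => tow_mono (hN n hn) _) hL
  have hdown : ∀ L, L ∈ NT t → ∃ k, L ∈ NT (fun n => tow k (G n)) := by
    intro L hL
    obtain ⟨e, q, hs, hc⟩ := exists_code_of_mem_NT (t := t)
      (fun n => (hG.le n).trans (hGt n)) hL
    obtain ⟨i, hi⟩ := hDs e 0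
    obtain ⟨N, hN⟩ := exists_eval_le_two_pow q
    -- no late violations
    have h1 : ∀ n, i ≤ n → N ≤ n → viol i (gg viol i n) n = false := by
      intro n hin hNn
      by_contra h
      have h2 : viol i (gg viol i n) n = true := by simpa using h
      obtain ⟨w, hw, ⟨c, _, hc2⟩, hno⟩ := (hv _ _ _).1 h2
      rw [hi] at hc2 hno
      have hwL := hs w c hc2
      obtain ⟨c', hc'1, hc'2⟩ := hc w hwL
      rw [hw] at hc'1
      have h3 : c'.length ≤ tow (gg viol i n + 1) (G n) := by
        have h4 : q.eval (t n) ≤ 2 ^ t n := hN _ (hNn.trans ((hG.le n).trans (hGt n)))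
        have h5 : t n ≤ tow (gg viol i n) (G n) :=
          tow_mono ((hl1 n).trans (lev_le_gg hin h2)) _
        exact hc'1.trans (h4.trans (Nat.pow_le_pow_right (by norm_num) h5))
      rw [hno c' h3] at hc'2
      simp at hc'2
    -- the level of `i` is eventually constant
    set M := max i N with hM
    have h2 : ∀ j, gg viol i (M + j) = gg viol i M := by
      intro j
      induction j with
      | zero => rfl
      | succ j ih =>
        have h3 := h1 (M + j) (by omega) (by omega)
        rw [← Nat.add_assoc]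
        conv_lhs => unfold gg
        rw [h3, Bool.and_false]
        exact ih
    refine ⟨gg viol i M + 1, ?_⟩
    refine NT_mono_eventually (N := M)
      (t := fun n => if n < M then q.eval (t n) else tow (gg viol i M + 1) (G n))
      (fun n hn => by simp only [if_neg (not_lt.2 hn)]; exact le_rfl) ?_
    refine mem_NT_of_poly (R := fun z => acc e z.1 z.2)
      (poly_acc (NPC.Poly.const e) (NPC.Poly.fst NPC.Poly.id) (NPC.Poly.snd NPC.Poly.id))
      Polynomial.X hs fun w hw => ?_
    obtain ⟨c, hc1, hc2⟩ := hc w hw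
    rw [Polynomial.eval_X]
    rcases Nat.lt_or_ge w.length M with hlt | hge
    · simp only [if_pos hlt]
      exact ⟨c, hc1, hc2⟩
    · simp only [if_neg (not_lt.2 hge)]
      by_contra hno
      have h3 := h1 w.length (by omega) (by omega)
      have h4 : gg viol i w.length = gg viol i M := by
        have := h2 (w.length - M)
        rwa [show M + (w.length - M) = w.length by omega] at this
      rw [h4] at h3
      have h5 : viol i (gg viol i M) w.length = true := by
        rw [hv]
        refine ⟨w, rfl, ⟨c, ?_, by rw [hi]; exact hc2⟩, fun c' hc' => ?_⟩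
        · have h6 : q.eval (t w.length) ≤ 2 ^ t w.length :=
            hN _ ((by omega : N ≤ w.length).trans ((hG.le _).trans (hGt _)))
          have h7 : t w.length ≤ tow w.length (G w.length) :=
            tow_mono ((hl1 _).trans (lv_le _ _)) _
          exact hc1.trans (h6.trans (Nat.pow_le_pow_right (by norm_num) h7))
        · rw [hi]
          by_contra h8
          exact hno ⟨c', hc', by simpa using h8⟩
      rw [h3] at h5
      simp at h5
  intro L hL
  obtain ⟨k, hk⟩ := hdown L hL
  exact hup (k + 2) _ (compl_tow hG k hk)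

open PC in
theorem partC {G : ℕ → ℕ} (hG : Hon G) : ∃ t : ℕ → ℕ, Computable t ∧ (∀ n, G n ≤ t n) ∧
    ∀ L ∈ NT t, Lᶜ ∈ NT t := by
  obtain ⟨D, hD1, hD2, hDs, hD3⟩ := exists_enum
  obtain ⟨viol, hvc, hv⟩ := exists_viol hG hD1
  exact ⟨fun n => tow (lev viol n) (G n),
    primrec_tow.to_comp.comp (computable_lev hvc) hG.comp, fun n => C1.le_tow _ _,
    closed_of_lev hG hDs hv (fun _ => le_rfl) exists_le_lev⟩

end Pool.Agent.H639R2.NTP
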