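import Pool.Agent.H639R2.NTP.Diag
import Pool.Agent.H639R2.NTP.Basic
import Pool.Agent.H671R2.PolyAuto

/-!
# Non-closure under complement just above the polynomials
-/

namespace Pool.Agent.H639R2.NTP

open Pool.Agent.NPC Pool.Agent.H660R2.NX Turing

/-! ### the diagonal set is not in `NP` -/

theorem not_np {D : ℕ → Code × ℕ} (hD : ∀ e k, ∃ n, D n = (e, k)) {l : ℕ → ℕ}
    (hl : ∀ i, l i % 2 = 0) (hl2 : ∀ i, l i + 2 ≤ l (i + 1)) {H : ℕ → Prop} (hH : Diag D l H)
    (e : Code) (k : ℕ) : ¬ ∀ n, H n ↔ W e k n := by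
  intro h
  obtain ⟨i, hi⟩ := hD e k
  have h1 := hl i
  have h2 := hl (i + 1)
  have h3 := hl2 i
  have key : ∀ j : ℕ, l i + 2 * j + 2 ≤ l (i + 1) → (H (l i) ↔ H (l i + 2 * j)) := by
    intro j
    induction j with
    | zero => exact fun _ => Iff.rfl
    | succ j ih =>
      intro hj
      rw [ih (by omega), hH.mid i (l i + 2 * j) (by omega) (by omega) (by omega), hi]
      simp only
      rw [← h]
      rfl
  have h4 := key ((l (i + 1) - 2 - l i) / 2) (by omega)
  have h5 : l i + 2 * ((l (i + 1) - 2 - l i) / 2) = l (i + 1) - 2 := by omega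
  rw [h5, hH.last i (l (i + 1) - 2) (by omega) (by omega), hi] at h4
  simp only at h4
  rw [← h] at h4
  tauto

namespace PA

/-! ### the numbers of the blocks -/

theorem two_pow_ge (m : ℕ) : m + 1 ≤ 2 ^ m := Nat.lt_two_pow_self

theorem ell_even (G : ℕ → ℕ) (i : ℕ) : ell G i % 2 = 0 := by
  cases i with
  | zero => show (2 * (G 0 + 1)) % 2 = 0; omega
  | succ i => show (2 * (G (i + 1) + 2 ^ (ell G i + 1) ^ (i + 1))) % 2 = 0; omega

theorem ell_gap (G : ℕ → ℕ) (i : ℕ) : ell G i + 2 < ell G (i + 1) := by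
  show ell G i + 2 < 2 * (G (i + 1) + 2 ^ (ell G i + 1) ^ (i + 1))
  have h1 : ell G i + 1 ≤ (ell G i + 1) ^ (i + 1) := Nat.le_self_pow (by omega) _
  have h2 : 2 ^ (ell G i + 1) ≤ 2 ^ (ell G i + 1) ^ (i + 1) :=
    Nat.pow_le_pow_right (by norm_num) h1
  have h3 := two_pow_ge (ell G i + 1)
  omega

theorem ell_strictMono (G : ℕ → ℕ) : StrictMono (ell G) :=
  strictMono_nat_of_lt_succ fun i => by have := ell_gap G i; omega

theorem le_ell {G : ℕ → ℕ} (i : ℕ) : G i ≤ ell G i := by
  cases i with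
  | zero => show G 0 ≤ 2 * (G 0 + 1); omega
  | succ i =>
    show G (i + 1) ≤ 2 * (G (i + 1) + 2 ^ (ell G i + 1) ^ (i + 1))
    exact (Nat.le_add_right _ _).trans (Nat.le_mul_of_pos_left _ (by norm_num))

theorem two_le_ell (G : ℕ → ℕ) (i : ℕ) : 2 ≤ ell G i := by
  have h1 : ell G 0 ≤ ell G i := (ell_strictMono G).monotone (Nat.zero_le _)
  have h2 : ell G 0 = 2 * (G 0 + 1) := rfl
  omega

theorem blk_le {l : ℕ → ℕ} {n : ℕ} (h0 : l 0 ≤ n) : l (blk l n) ≤ n := by
  have h := Nat.findGreatest_spec (P := fun i => l i ≤ n) (Nat.zero_le n) h0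
  exact h

theorem blk_ell (G : ℕ → ℕ) (i : ℕ) : blk (ell G) (ell G i) = i := by
  have h1 : i ≤ ell G i := (ell_strictMono G).le_apply
  have h2 : i ≤ blk (ell G) (ell G i) :=
    Nat.le_findGreatest h1 le_rfl
  have h3 : ell G (blk (ell G) (ell G i)) ≤ ell G i :=
    blk_le ((ell_strictMono G).monotone (Nat.zero_le _))
  have h4 := (ell_strictMono G).le_iff_le.1 h3
  omega

/-! ### polynomials -/

theorem poly_bound (p : Polynomial ℕ) (k0 : ℕ) : ∃ k, k0 ≤ k ∧ ∀ n, p.eval n ≤ n ^ k + k := by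
  refine ⟨k0 + p.eval 1 + p.natDegree, by omega, fun n => ?_⟩
  rcases Nat.eq_zero_or_pos n with h | h
  · subst h
    have h1 := eval_mono p (Nat.zero_le 1)
    exact le_trans (by omega : p.eval 0 ≤ k0 + p.eval 1 + p.natDegree) (Nat.le_add_left _ _)
  · have h1 : p.eval n ≤ p.eval 1 * n ^ p.natDegree := by
      rw [Polynomial.eval_eq_sum_range, Polynomial.eval_eq_sum_range, Finset.sum_mul]
      refine Finset.sum_le_sum fun i hi => ?_
      rw [one_pow, mul_one]
      rw [Finset.mem_range] at hi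
      exact Nat.mul_le_mul_left _ (Nat.pow_le_pow_right h (by omega))
    rcases Nat.lt_or_ge n 2 with h2 | h2
    · have h3 : n = 1 := by omega
      subst h3
      simp only [one_pow]
      omega
    · have h3 : p.eval 1 ≤ n ^ (k0 + p.eval 1) := by
        have h4 : p.eval 1 < 2 ^ (p.eval 1) := Nat.lt_two_pow_self
        have h5 : 2 ^ (p.eval 1) ≤ n ^ (p.eval 1) := Nat.pow_le_pow_left h2 _
        have h6 : n ^ (p.eval 1) ≤ n ^ (k0 + p.eval 1) := Nat.pow_le_pow_right h (by omega)
        omega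
      have h4 : p.eval 1 * n ^ p.natDegree ≤ n ^ (k0 + p.eval 1) * n ^ p.natDegree :=
        Nat.mul_le_mul_right _ h3
      rw [← pow_add] at h4
      omega

/-! ### the time bound -/

/-- the exponent -/
def kap (D : ℕ → Code × ℕ) (G : ℕ → ℕ) (n : ℕ) : ℕ := (D (blk (ell G) n)).2

open Classical in
/-- the time bound -/
noncomputable def tt (D : ℕ → Code × ℕ) (G : ℕ → ℕ) (H : ℕ → Prop) (n : ℕ) : ℕ :=
  if H n then max n (n ^ kap D G n) else n

theorem tt_of {D : ℕ → Code × ℕ} {G : ℕ → ℕ} {H : ℕ → Prop} {n : ℕ} (h : H n) :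
    tt D G H n = max n (n ^ kap D G n) := if_pos h

theorem tt_of_not {D : ℕ → Code × ℕ} {G : ℕ → ℕ} {H : ℕ → Prop} {n : ℕ} (h : ¬ H n) :
    tt D G H n = n := if_neg h

theorem computable_tt {D : ℕ → Code × ℕ} {G : ℕ → ℕ} {H : ℕ → Prop} (hH : ComputablePred H)
    (hk : Computable (kap D G)) : Computable (tt D G H) := by
  obtain ⟨hdec, hH⟩ := hH
  have h1 : Computable (fun n : ℕ => n ^ kap D G n) :=
    (Primrec₂.unpaired'.1 Nat.Primrec.pow).to_comp.comp Computable.id hk
  have h2 : Computable (fun n : ℕ => max n (n ^ kap D G n)) :=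
    Primrec.nat_max.to_comp.comp Computable.id h1
  refine (Computable.cond hH h2 Computable.id).of_eq fun n => ?_
  unfold tt
  by_cases h : H n
  · rw [if_pos h]
    simp only [h, decide_true, cond_true]
  · rw [if_neg h]
    simp only [h, decide_false, cond_false]
    rfl

theorem le_tt {D : ℕ → Code × ℕ} {G : ℕ → ℕ} {H : ℕ → Prop} (n : ℕ) : n ≤ tt D G H n := by
  by_cases h : H n
  · rw [tt_of h]
    exact le_max_left _ _
  · rw [tt_of_not h]

theorem tt_le {D : ℕ → Code × ℕ} {G : ℕ → ℕ} {H : ℕ → Prop}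
    (hD3 : ∀ n, (D n).2 ≤ n) (hH : Diag D (ell G) H) (n k : ℕ) (hn : n < G k) :
    tt D G H n ≤ n ^ (k + 1) := by
  by_cases h : H n
  · have h0 : ell G 0 ≤ n := by
      by_contra h0
      exact hH.small n (by omega) h
    have hn1 : 1 ≤ n := by have := two_le_ell G 0; omega
    rw [tt_of h]
    have h1 : kap D G n ≤ k + 1 := by
      by_contra h1
      have h2 : kap D G n ≤ blk (ell G) n := hD3 _
      have h3 := blk_le h0
      have h4 : ell G k ≤ ell G (blk (ell G) n) := (ell_strictMono G).monotone (by omega)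
      have h5 := le_ell (G := G) k
      omega
    refine max_le (Nat.le_self_pow (by omega) _) (Nat.pow_le_pow_right hn1 h1)
  · rw [tt_of_not h]
    exact Nat.le_self_pow (by omega) _

/-- The diagonal set contains numbers with large exponents. -/
theorem exists_large {D : ℕ → Code × ℕ} {G : ℕ → ℕ} {H : ℕ → Prop}
    (hacc : ∀ {V : List Bool → List Bool}, PolyTime V → ∃ e q, IsAcc e V q)
    (hD : ∀ e k, ∃ n, D n = (e, k)) (hH : Diag D (ell G) H) (k : ℕ) :
    ∃ n, n ^ k < tt D G H n := by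
  obtain ⟨e, q, he⟩ := hacc (V := fun _ => [true])
    (polyTime_of_poly (NPC.Poly.const true))
  obtain ⟨K, hK1, hK2⟩ := poly_bound q (k + 1)
  obtain ⟨i, hi⟩ := hD e K
  have h2 := two_le_ell G i
  have hHi : H (ell G i) := by
    rw [hH.mid i (ell G i) le_rfl (ell_gap G i) (ell_even G i), hi]
    obtain ⟨c', h1, h3⟩ := he.complete (List.replicate (ell G i + 2) true) [] rfl
    refine ⟨c', ?_, h1⟩
    simp only [List.length_replicate, List.length_nil, add_zero] at h3
    exact h3.trans (hK2 _)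
  refine ⟨ell G i, ?_⟩
  rw [tt_of hHi]
  have h4 : kap D G (ell G i) = K := by
    unfold kap
    rw [blk_ell, hi]
  rw [h4]
  exact lt_of_lt_of_le (Nat.pow_lt_pow_right (by omega) (by omega)) (le_max_right _ _)

/-! ### the languages -/

/-- the unary language of the diagonal set -/
def LH (H : ℕ → Prop) : Set (List Bool) :=
  {w | w = List.replicate w.length true ∧ H w.length}

/-- the words of odd length -/
def L1 (H : ℕ → Prop) : Set (List Bool) :=
  {w | ∃ n, w = List.replicate (2 * n + 1) true ∧ ¬ H n}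

theorem rep_mem_LH {H : ℕ → Prop} {n : ℕ} : List.replicate n true ∈ LH H ↔ H n := by
  unfold LH
  rw [Set.mem_ofPred_eq, List.length_replicate]
  exact ⟨fun h => h.2, fun h => ⟨rfl, h⟩⟩

theorem rep_mem_L1 {H : ℕ → Prop} {n : ℕ} :
    List.replicate (2 * n + 1) true ∈ L1 H ↔ ¬ H n := by
  constructor
  · rintro ⟨m, h1, h2⟩
    have h3 := congrArg List.length h1
    rw [List.length_replicate, List.length_replicate] at h3
    have h4 : m = n := by omega
    rwa [← h4]
  · exact fun h => ⟨n, rfl, h⟩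

theorem poly_rep {α : Type} [TEnc α] {n : α → ℕ} (hn : UPoly n) :
    Poly (fun a => List.replicate (n a) true) :=
  (NPC.Poly.map (F := fun _ (_ : Unit) => true) (l := fun a => List.replicate (n a) ()) hn
    (NPC.Poly.const true)).congr fun a => by rw [List.map_replicate]

theorem poly_fst : Poly (fun q : List Bool × List Bool => q.1) := Poly.fst Poly.id

theorem poly_snd : Poly (fun q : List Bool × List Bool => q.2) := Poly.snd Poly.id

theorem poly_unary : Poly (fun q : List Bool × List Bool =>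
    decide (q.1 = List.replicate q.1.length true)) :=
  Poly.decide_eq poly_fst (poly_rep (UPoly.length poly_fst))

end PA

theorem partA {G : ℕ → ℕ} (hG : Hon G) : ∃ t : ℕ → ℕ, Computable t ∧ (∀ n, n ≤ t n) ∧
    (∀ n k, n < G k → t n ≤ n ^ (k + 1)) ∧ (∀ k, ∃ n, n ^ k < t n) ∧
    ∃ L ∈ NT t, Lᶜ ∉ NT t := by
  obtain ⟨D, hD1, hD2, hD, hD3⟩ := exists_enum
  obtain ⟨H, hH, hHc, hκ, R, p, hR, hRs, hRc⟩ := exists_diag hG hD1 hD2 hD3
  refine ⟨PA.tt D G H, PA.computable_tt hHc hκ, PA.le_tt, PA.tt_le hD3 hH,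
    PA.exists_large (fun hV => exists_acc hV) hD hH, ?_⟩
  by_contra hcon
  push Not at hcon
  -- the language of the diagonal set
  have h1 : PA.LH H ∈ NT (PA.tt D G H) := by
    refine mem_NT_of_poly hR (p.comp (Polynomial.C 2 * Polynomial.X)) hRs fun w hw => ?_
    obtain ⟨hw1, hw2⟩ := hw
    obtain ⟨c, hc1, hc2⟩ := hRc w.length hw2
    refine ⟨c, hc1.trans ?_, by rw [hw1]; simpa using hc2⟩
    rw [Polynomial.eval_comp]
    apply eval_mono
    simp only [Polynomial.eval_mul, Polynomial.eval_C, Polynomial.eval_X]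
    rw [PA.tt_of hw2]
    have h2 := le_max_left w.length (w.length ^ PA.kap D G w.length)
    have h3 := le_max_right w.length (w.length ^ PA.kap D G w.length)
    unfold PA.kap at h2 h3 ⊢
    omega
  obtain ⟨e, q, he1, he2⟩ := exists_code_of_mem_NT PA.le_tt (hcon _ h1)
  -- the words of odd length
  have h2 : PA.L1 H ∈ NT (PA.tt D G H) := by
    have hu : UPoly (fun q : List Bool × List Bool => (q.1.length - 1) / 2) :=
      UPoly.of_le (Poly.div (Poly.sub (Poly.length PA.poly_fst) (NPC.Poly.const 1))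
        (NPC.Poly.const 2)) (UPoly.length PA.poly_fst) fun q => by omega
    have hP : Poly (fun q : List Bool × List Bool => decide (q.1.length % 2 = 1) &&
        (decide (q.1 = List.replicate q.1.length true) &&
          acc e (List.replicate ((q.1.length - 1) / 2) true) q.2)) :=
      Poly.and (Poly.decide_eq (Poly.mod (Poly.length PA.poly_fst) (NPC.Poly.const 2))
        (NPC.Poly.const 1)) (Poly.and PA.poly_unary
          (poly_acc (NPC.Poly.const e) (PA.poly_rep hu) PA.poly_snd))
    refine mem_NT_of_poly hP q ?_ ?_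
    · intro w c h
      simp only [Bool.and_eq_true, decide_eq_true_eq] at h
      obtain ⟨ha, hb, hc⟩ := h
      refine ⟨(w.length - 1) / 2, ?_, ?_⟩
      · have : 2 * ((w.length - 1) / 2) + 1 = w.length := by omega
        rw [this]
        exact hb
      · intro hn
        exact he1 _ _ hc (PA.rep_mem_LH.2 hn)
    · rintro w ⟨n, rfl, hn⟩
      obtain ⟨c, hc1, hc2⟩ := he2 (List.replicate n true) (fun hn' => hn (PA.rep_mem_LH.1 hn'))
      refine ⟨c, hc1.trans (eval_mono q ?_), ?_⟩
      · rw [List.length_replicate, List.length_replicate, PA.tt_of_not hn]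
        exact le_trans (by omega) (PA.le_tt (2 * n + 1))
      · simp only [List.length_replicate, Bool.and_eq_true, decide_eq_true_eq, true_and]
        refine ⟨by omega, ?_⟩
        have : (2 * n + 1 - 1) / 2 = n := by omega
        rw [this]
        exact hc2
  obtain ⟨e', q', he1', he2'⟩ := exists_code_of_mem_NT PA.le_tt (hcon _ h2)
  -- the diagonal set has short certificates
  have h3 : PA.LH H ∈ NT (fun n => n) := by
    have hu : UPoly (fun q : List Bool × List Bool => 2 * q.1.length + 1) :=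
      UPoly.add (UPoly.mul (UPoly.const 2) (UPoly.length PA.poly_fst)) (UPoly.const 1)
    have hP : Poly (fun q : List Bool × List Bool =>
        decide (q.1 = List.replicate q.1.length true) &&
          acc e' (List.replicate (2 * q.1.length + 1) true) q.2) :=
      Poly.and PA.poly_unary (poly_acc (NPC.Poly.const e') (PA.poly_rep hu) PA.poly_snd)
    refine mem_NT_of_poly hP (q'.comp (Polynomial.C 2 * Polynomial.X + Polynomial.C 1)) ?_ ?_
    · intro w c h
      simp only [Bool.and_eq_true, decide_eq_true_eq] at h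
      refine ⟨h.1, ?_⟩
      by_contra hn
      exact he1' _ _ h.2 (PA.rep_mem_L1.2 hn)
    · rintro w ⟨hw1, hw2⟩
      obtain ⟨c, hc1, hc2⟩ := he2' (List.replicate (2 * w.length + 1) true)
        (fun h => PA.rep_mem_L1.1 h hw2)
      refine ⟨c, hc1.trans ?_, ?_⟩
      · rw [List.length_replicate, Polynomial.eval_comp,
          PA.tt_of_not (fun h => by have := hH.even _ h; omega)]
        simp
      · simp only [Bool.and_eq_true, decide_eq_true_eq]
        exact ⟨hw1, hc2⟩
  obtain ⟨e'', q'', he1'', he2''⟩ := exists_code_of_mem_NT (fun n => le_rfl) h3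
  obtain ⟨k, -, hk⟩ := PA.poly_bound q'' 0
  refine not_np hD (PA.ell_even G) (fun i => (PA.ell_gap G i).le) hH e'' k fun n => ?_
  constructor
  · intro hn
    obtain ⟨c, hc1, hc2⟩ := he2'' (List.replicate n true) (PA.rep_mem_LH.2 hn)
    rw [List.length_replicate] at hc1
    exact ⟨c, hc1.trans (hk n), hc2⟩
  · rintro ⟨c, -, hc⟩
    exact PA.rep_mem_LH.1 (he1'' _ _ hc)

end Pool.Agent.H639R2.NTP
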