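import Pool.Agent.H639R2.NTP.Bridge
import Pool.Agent.H639R2.NTP.PartA
import Pool.Agent.H639R2.NTP.PB
import Pool.Agent.H639R2.NTP.PC

/-!
# Closure of `NTIME(Pol t)` under complement, `t` an arbitrary computable time bound
-/

namespace Pool.Agent.H639R2.NTP

open Pool.Agent.NPC Pool.Agent.H660R2.NX Turing

theorem exists_inv {α : ℕ → ℕ} (hα : Computable α) (hm : Monotone α)
    (hu : ∀ k, ∃ n, k ≤ α n) : ∃ h : ℕ → ℕ, Computable h ∧ ∀ n, n < h (α n) := by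
  classical
  refine ⟨fun k => Nat.find (hu (k + 1)), ?_, fun n => ?_⟩
  · have h1 : Computable (fun p : ℕ × ℕ => decide (p.1 + 1 ≤ α p.2)) :=
      Primrec.nat_le.decide.to_comp.comp (Computable.succ.comp Computable.fst)
        (hα.comp Computable.snd)
    have h2 : Partrec (fun k => Nat.rfind (fun m => Part.some (decide (k + 1 ≤ α m)))) :=
      Partrec.rfind (p := fun k m => Part.some (decide (k + 1 ≤ α m))) h1.partrec
    refine h2.of_eq fun k => ?_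
    show Nat.rfind _ = Part.some (Nat.find (hu (k + 1)))
    rw [Part.eq_some_iff, Nat.mem_rfind]
    refine ⟨by simpa using Nat.find_spec (hu (k + 1)), fun {m} hm => ?_⟩
    have h3 := Nat.find_min (hu (k + 1)) hm
    simpa using h3
  · show n < Nat.find (hu (α n + 1))
    rw [Nat.lt_find_iff]
    intro m hmn
    have h1 := hm hmn
    omega

theorem final :
    (∀ α : ℕ → ℕ, Computable α → Monotone α → (∀ k, ∃ n, k ≤ α n) →
      ∃ t : ℕ → ℕ, Computable t ∧ (∀ n, n ≤ t n ∧ t n ≤ n ^ (α n + 1)) ∧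
        (∀ k, ∃ n, n ^ k < t n) ∧ ∃ L ∈ NT t, Lᶜ ∉ NT t) ∧
    (∀ g : ℕ → ℕ, Computable g → ∃ t : ℕ → ℕ, Computable t ∧ StrictMono t ∧ (∀ n, g n ≤ t n) ∧
      ∃ L ∈ NT t, Lᶜ ∉ NT t) ∧
    (∀ g : ℕ → ℕ, Computable g → ∃ t : ℕ → ℕ, Computable t ∧ (∀ n, n ≤ t n ∧ g n ≤ t n) ∧
      ∀ L ∈ NT t, Lᶜ ∈ NT t) := by
  refine ⟨fun α hα hm hu => ?_, fun g hg => ?_, fun g hg => ?_⟩
  · obtain ⟨h, hh, hn⟩ := exists_inv hα hm hu
    obtain ⟨G, hG, hle⟩ := bridge hh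
    obtain ⟨t, ht, h1, h2, h3, h4⟩ := partA hG
    exact ⟨t, ht, fun n => ⟨h1 n, h2 n (α n) ((hn n).trans_le (hle _))⟩, h3, h4⟩
  · obtain ⟨G, hG, hle⟩ := bridge hg
    obtain ⟨t, ht, h1, h2, h3⟩ := partB hG
    exact ⟨t, ht, h1, fun n => (hle n).trans (h2 n), h3⟩
  · obtain ⟨G, hG, hle⟩ := bridge hg
    obtain ⟨t, ht, h1, h2⟩ := partC hG
    exact ⟨t, ht, fun n => ⟨(hG.le n).trans (h1 n), (hle n).trans (h1 n)⟩, h2⟩

end Pool.Agent.H639R2.NTP
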