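import Pool.Agent.H639R2.NTP.Defs
import Pool.Agent.H639R2.NTP.Tow

/-!
# Definitions for the Π₃-completeness theorem
-/

namespace Pool.Agent.H639R2.NTP

open Pool.Agent.NPC Pool.Agent.H660R2.NX Turing

/-- The predicate `P` is `Π₃`. -/
def IsPi3 {α : Type} [Primcodable α] (P : α → Prop) : Prop :=
  ∃ R : α × ℕ × ℕ × ℕ → Bool, Computable R ∧
    ∀ x, P x ↔ ∀ i, ∃ j, ∀ k, R (x, i, j, k) = true

/-- `NTIME(Pol t)` is closed under complement. -/
def Clo (t : ℕ → ℕ) : Prop := ∀ L ∈ NT t, Lᶜ ∈ NT t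

/-- The program `e` computes a time bound `t ≥ id` with `NTIME(Pol t)` closed under complement. -/
def ClosedCode (e : Nat.Partrec.Code) : Prop :=
  ∃ t : ℕ → ℕ, (∀ n, e.eval n = Part.some (t n)) ∧ (∀ n, n ≤ t n) ∧ Clo t

/-- `w` has an accepted certificate of length at most `v ^ k + k`. -/
def Sh (e : Code) (k v : ℕ) (w : List Bool) : Prop :=
  ∃ c : List Bool, c.length ≤ v ^ k + k ∧ acc e w c = true

/-- The diagonal language. -/
def Ldiag (G : ℕ → ℕ) (D : ℕ → Code × ℕ) (C : ℕ → ℕ) (x i : ℕ) : Set (List Bool) :=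
  {w | w = List.replicate w.length true ∧ x ≤ w.length ∧ w.length.unpair.1 = i ∧
    ∃ d, C w.length = d + 1 ∧
      ∃ c : List Bool, c.length ≤ tow (i + 2) (G w.length) ∧ acc (D d).1 w c = true}

end Pool.Agent.H639R2.NTP
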