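import Pool.Agent.H639R2.NTP.Defs

/-!
# Blueprint: closure of `NTIME(Pol t)` under complement, `t` an arbitrary computable time bound
-/

namespace Pool.Agent.H639R2.NTP

open Pool.Agent.NPC Pool.Agent.H660R2.NX Turing

/-! ### DC (Basic.lean), helper639 -/

theorem exists_acc {V : List Bool → List Bool} (hV : PolyTime V) : ∃ e q, IsAcc e V q := sorry

theorem poly_acc {α : Type} [TEnc α] {e : α → Code} {w c : α → List Bool} (he : Poly e)
    (hw : Poly w) (hc : Poly c) : Poly (fun a => acc (e a) (w a) (c a)) := sorry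

theorem mem_NT_of_poly {L : Set (List Bool)} {t : ℕ → ℕ} {R : List Bool × List Bool → Bool}
    (hR : Poly R) (p : Polynomial ℕ) (hs : ∀ w c, R (w, c) = true → w ∈ L)
    (hc : ∀ w ∈ L, ∃ c : List Bool, c.length ≤ p.eval (t w.length) ∧ R (w, c) = true) :
    L ∈ NT t := sorry

theorem exists_code_of_mem_NT {L : Set (List Bool)} {t : ℕ → ℕ} (ht : ∀ n, n ≤ t n)
    (hL : L ∈ NT t) : ∃ (e : Code) (p : Polynomial ℕ), (∀ w c, acc e w c = true → w ∈ L) ∧
      ∀ w ∈ L, ∃ c : List Bool, c.length ≤ p.eval (t w.length) ∧ acc e w c = true := sorry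

/-- An enumeration of all pairs (code, exponent). -/
theorem exists_enum : ∃ D : ℕ → Code × ℕ, Poly (fun u : List Unit => (D u.length).1) ∧
    UPoly (fun u : List Unit => (D u.length).2) ∧ (∀ e k, ∃ n, D n = (e, k)) ∧
    ∀ n, (D n).2 ≤ n := sorry

/-! ### CB: polynomial-time computable functions are computable (Mathlib's `Computable`) -/

theorem polyTime_computable {f : List Bool → List Bool} (hf : PolyTime f) : Computable f := sorry

/-! ### BR: every computable function is below an honest one -/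

theorem bridge {g : ℕ → ℕ} (hg : Computable g) : ∃ G, Hon G ∧ ∀ n, g n ≤ G n := sorry

/-! ### EL: a fast growing honest sequence -/

/-- A fast growing sequence of even numbers. -/
def ell (G : ℕ → ℕ) : ℕ → ℕ
  | 0 => 2 * (G 0 + 1)
  | i + 1 => 2 * (G (i + 1) + 2 ^ (ell G i + 1) ^ (i + 1))

theorem hon_ell {G : ℕ → ℕ} (hG : Hon G) : Hon (ell G) := sorry

/-! ### PA1: a unary set of even numbers which is not in `NP` -/

/-- Bounded acceptance of the word `true^n`. -/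
def W (e : Code) (k n : ℕ) : Prop :=
  ∃ c : List Bool, c.length ≤ n ^ k + k ∧ acc e (List.replicate n true) c = true

/-- The properties of the diagonal set `H` for the enumeration `D` and the interval ends `l`. -/
structure Diag (D : ℕ → Code × ℕ) (l : ℕ → ℕ) (H : ℕ → Prop) : Prop where
  even : ∀ n, H n → n % 2 = 0
  small : ∀ n, n < l 0 → ¬ H n
  mid : ∀ i n, l i ≤ n → n + 2 < l (i + 1) → n % 2 = 0 →
    (H n ↔ W (D i).1 (D i).2 (n + 2))
  last : ∀ i n, l i ≤ n → n + 2 = l (i + 1) → (H n ↔ ¬ W (D i).1 (D i).2 (l i))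

theorem not_np {D : ℕ → Code × ℕ} (hD : ∀ e k, ∃ n, D n = (e, k)) {l : ℕ → ℕ}
    (hl : ∀ i, l i % 2 = 0) (hl2 : ∀ i, l i + 2 ≤ l (i + 1)) {H : ℕ → Prop} (hH : Diag D l H)
    (e : Code) (k : ℕ) : ¬ ∀ n, H n ↔ W e k n := sorry

/-- The index `i` with `l i ≤ n < l (i + 1)` (for a strictly increasing sequence `l`). -/
def blk (l : ℕ → ℕ) (n : ℕ) : ℕ := Nat.findGreatest (fun i => l i ≤ n) n

/-! ### PAH: the diagonal set is decidable and has short certificates -/

theorem exists_diag {G : ℕ → ℕ} (hG : Hon G) {D : ℕ → Code × ℕ}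
    (hD1 : Poly (fun u : List Unit => (D u.length).1))
    (hD2 : UPoly (fun u : List Unit => (D u.length).2)) (hD3 : ∀ n, (D n).2 ≤ n) :
    ∃ H : ℕ → Prop, Diag D (ell G) H ∧ ComputablePred H ∧
      Computable (fun n => (D (blk (ell G) n)).2) ∧
      ∃ (R : List Bool × List Bool → Bool) (p : Polynomial ℕ), Poly R ∧
        (∀ w c, R (w, c) = true → w = List.replicate w.length true ∧ H w.length) ∧
        ∀ n, H n → ∃ c : List Bool, c.length ≤ p.eval (n ^ (D (blk (ell G) n)).2 + n) ∧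
          R (List.replicate n true, c) = true := sorry

/-! ### PA: non-closure just above the polynomials -/

theorem partA {G : ℕ → ℕ} (hG : Hon G) : ∃ t : ℕ → ℕ, Computable t ∧ (∀ n, n ≤ t n) ∧
    (∀ n k, n < G k → t n ≤ n ^ (k + 1)) ∧ (∀ k, ∃ n, n ^ k < t n) ∧
    ∃ L ∈ NT t, Lᶜ ∉ NT t := sorry

/-! ### PB: non-closure for fast growing increasing bounds -/

theorem partB {G : ℕ → ℕ} (hG : Hon G) : ∃ t : ℕ → ℕ, Computable t ∧ StrictMono t ∧
    (∀ n, G n ≤ t n) ∧ ∃ L ∈ NT t, Lᶜ ∉ NT t := sorry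

/-! ### PC: closure for suitable fast growing bounds -/

/-- Iterated exponentials. -/
def tow : ℕ → ℕ → ℕ
  | 0, x => x
  | k + 1, x => 2 ^ tow k x

/-- C1 -/
theorem compl_tow {G : ℕ → ℕ} (hG : Hon G) (k : ℕ) {L : Set (List Bool)}
    (hL : L ∈ NT (fun n => tow k (G n))) : Lᶜ ∈ NT (fun n => tow (k + 2) (G n)) := sorry

/-- C5: the violation test is computable. -/
theorem exists_viol {G : ℕ → ℕ} (hG : Hon G) {D : ℕ → Code × ℕ}
    (hD : Poly (fun u : List Unit => (D u.length).1)) : ∃ viol : ℕ → ℕ → ℕ → Bool,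
      Computable (fun p : ℕ × ℕ × ℕ => viol p.1 p.2.1 p.2.2) ∧
      ∀ i γ n, viol i γ n = true ↔ ∃ w : List Bool, w.length = n ∧
        (∃ c : List Bool, c.length ≤ tow (n + 1) (G n) ∧ acc (D i).1 w c = true) ∧
        ∀ c : List Bool, c.length ≤ tow (γ + 1) (G n) → acc (D i).1 w c = false := sorry

theorem partC {G : ℕ → ℕ} (hG : Hon G) : ∃ t : ℕ → ℕ, Computable t ∧ (∀ n, G n ≤ t n) ∧
    ∀ L ∈ NT t, Lᶜ ∈ NT t := sorry

/-! ### The final theorem -/

theorem final :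
    (∀ α : ℕ → ℕ, Computable α → Monotone α → (∀ k, ∃ n, k ≤ α n) →
      ∃ t : ℕ → ℕ, Computable t ∧ (∀ n, n ≤ t n ∧ t n ≤ n ^ (α n + 1)) ∧
        (∀ k, ∃ n, n ^ k < t n) ∧ ∃ L ∈ NT t, Lᶜ ∉ NT t) ∧
    (∀ g : ℕ → ℕ, Computable g → ∃ t : ℕ → ℕ, Computable t ∧ StrictMono t ∧ (∀ n, g n ≤ t n) ∧
      ∃ L ∈ NT t, Lᶜ ∉ NT t) ∧
    (∀ g : ℕ → ℕ, Computable g → ∃ t : ℕ → ℕ, Computable t ∧ (∀ n, n ≤ t n ∧ g n ≤ t n) ∧
      ∀ L ∈ NT t, Lᶜ ∈ NT t) := sorry

end Pool.Agent.H639R2.NTP
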