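import Pool.Agent.H639R2.NTP.Pi3Defs
import Pool.Agent.H639R2.NTP.Final

/-!
# Blueprint: the set of time bounds `t` with `NTIME(Pol t)` closed under complement is `Π₃`-complete
-/

namespace Pool.Agent.H639R2.NTP

open Pool.Agent.NPC Pool.Agent.H660R2.NX Turing

/-! ### U1 (Pi3Of.lean) -/

theorem isPi3_of {α β γ δ : Type} [Primcodable α] [Primcodable β] [Primcodable γ] [Primcodable δ]
    {R : α × β × γ × δ → Bool} (hR : Computable R) {P : α → Prop}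
    (h : ∀ x, P x ↔ ∀ b : β, ∃ c : γ, ∀ d : δ, R (x, b, c, d) = true) : IsPi3 P := sorry

/-! ### U2 (CloIff.lean) -/

theorem clo_iff {t : ℕ → ℕ} (ht : ∀ n, n ≤ t n) {D : ℕ → Code × ℕ}
    (hD : ∀ e k, ∃ n, D n = (e, k)) : Clo t ↔ ∀ a,
      (∃ w c : List Bool, acc (D a).1 w c = true ∧ ¬ Sh (D a).1 (D a).2 (t w.length) w) ∨
      ∃ b, ∀ w c : List Bool, (acc (D b).1 w c = true → Sh (D b).1 (D b).2 (t w.length) w) ∧
        (Sh (D b).1 (D b).2 (t w.length) w ↔ ¬ Sh (D a).1 (D a).2 (t w.length) w) := sorry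

/-! ### U3 (ShComp.lean) -/

theorem computable_acc {D : ℕ → Code × ℕ} (hD : Poly (fun u : List Unit => (D u.length).1)) :
    Computable (fun p : ℕ × List Bool × List Bool => acc (D p.1).1 p.2.1 p.2.2) := sorry

theorem exists_sh {D : ℕ → Code × ℕ} (hD1 : Poly (fun u : List Unit => (D u.length).1))
    (hD2 : UPoly (fun u : List Unit => (D u.length).2)) : ∃ sh : ℕ → ℕ → List Bool → Bool,
      Computable (fun p : ℕ × ℕ × List Bool => sh p.1 p.2.1 p.2.2) ∧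
      ∀ a v w, sh a v w = true ↔ Sh (D a).1 (D a).2 v w := sorry

/-! ### U4 (Upper.lean) -/

theorem isPi3_closedCode : IsPi3 ClosedCode := sorry

/-! ### L1 (Fast.lean) -/

theorem exists_fast {G : ℕ → ℕ} (hG : Hon G) :
    ∃ G' : ℕ → ℕ, Hon G' ∧ (∀ n, G n ≤ G' n) ∧ ∀ n, tow n (G' n) < G' (n + 1) := sorry

/-! ### L2 (Clock.lean) -/

theorem exists_clock {C : ℕ × ℕ → ℕ} (hC : Computable C) :
    ∃ (F : ℕ → ℕ → ℕ → Option ℕ) (g : ℕ → ℕ), Computable g ∧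
      (∀ x, Poly (fun p : List Unit × List Unit => F x p.1.length p.2.length)) ∧
      (∀ x n m v, F x n m = some v → v = C (x, n)) ∧
      ∀ x n m, x ≤ n → g n ≤ m → F x n m = some (C (x, n)) := sorry

/-! ### L3 (Sched.lean) -/

theorem exists_sched {R : ℕ × ℕ × ℕ × ℕ → Bool} (hR : Computable R) :
    ∃ C : ℕ × ℕ → ℕ, Computable C ∧ (∀ x n, C (x, n) ≤ n + 1) ∧
      (∀ x, (∀ i, ∃ j, ∀ k, R (x, i, j, k) = true) →
        ∀ i, ∃ N, ∀ n, N ≤ n → n.unpair.1 = i → C (x, n) = 0) ∧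
      ∀ x, ¬ (∀ i, ∃ j, ∀ k, R (x, i, j, k) = true) →
        ∃ i, ∀ d, ∃ n, n.unpair.1 = i ∧ C (x, n) = d + 1 := sorry

/-! ### L4 (OnTest.lean) -/

theorem exists_on {G : ℕ → ℕ} (hG : Hon G) {D : ℕ → Code × ℕ}
    (hD : Poly (fun u : List Unit => (D u.length).1)) : ∃ on : ℕ → ℕ → ℕ → Bool,
      Computable (fun p : ℕ × ℕ × ℕ => on p.1 p.2.1 p.2.2) ∧
      ∀ d γ n, on d γ n = true ↔ ∃ c : List Bool, c.length ≤ tow γ (G n) ∧
        acc (D d).1 (List.replicate n true) c = true := sorry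

/-! ### L5 (DiagVer.lean) -/

theorem exists_ver {G : ℕ → ℕ} (hG : Hon G) {D : ℕ → Code × ℕ}
    (hD : Poly (fun u : List Unit => (D u.length).1)) {F : ℕ → ℕ → Option ℕ} {C : ℕ → ℕ}
    (hF : Poly (fun p : List Unit × List Unit => F p.1.length p.2.length))
    (hs : ∀ n m v, F n m = some v → v = C n) {x : ℕ}
    (hc : ∀ n m, x ≤ n → G n ≤ m → F n m = some (C n)) (hle : ∀ n, C n ≤ n + 1) (i : ℕ) :
    ∃ R : List Bool × List Bool → Bool, Poly R ∧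
      (∀ w c, R (w, c) = true → w ∈ Ldiag G D C x i) ∧
      ∀ w ∈ Ldiag G D C x i, ∃ c : List Bool, c.length ≤ tow (i + 4) (G w.length) ∧
        R (w, c) = true := sorry

/-! ### L6 (Lower.lean) -/

theorem lower {R : ℕ × ℕ × ℕ × ℕ → Bool} (hR : Computable R) {g : ℕ → ℕ} (hg : Computable g) :
    ∃ t : ℕ → ℕ → ℕ, Computable₂ t ∧ ∀ x, StrictMono (t x) ∧ (∀ n, g n ≤ t x n) ∧
      (Clo (t x) ↔ ∀ i, ∃ j, ∀ k, R (x, i, j, k) = true) := sorry

/-! ### L7 -/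

theorem final3 : IsPi3 ClosedCode ∧ ∀ P : ℕ → Prop, IsPi3 P → ∀ g : ℕ → ℕ, Computable g →
    ∃ f : ℕ → Nat.Partrec.Code, Computable f ∧ ∀ x, ∃ t : ℕ → ℕ,
      (∀ n, (f x).eval n = Part.some (t n)) ∧ StrictMono t ∧ (∀ n, g n ≤ t n) ∧
      (Clo t ↔ P x) := sorry

end Pool.Agent.H639R2.NTP
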